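import Mathlib
import Pool.Agent.TH705.SM.Cut

set_option autoImplicit false

/-!
# Orbits of standard maps with time-dependent parameters
-/

namespace Pool.Agent.U785.ST

open Real
open Pool.Agent.TH705.SM (L L_cont L_period)

/-- lifts of the orbit with `x_0 = s`, `x_1 = t` -/
noncomputable def X (a : ℕ → ℝ) (s : ℝ) : ℕ → ℝ → ℝ
  | 0, _ => s
  | 1, t => t
  | k + 2, t => 2 * X a s (k + 1) t - X a s k t + a k * sin (2 * π * X a s (k + 1) t)

/-- first derivatives -/
noncomputable def D (a : ℕ → ℝ) (s : ℝ) : ℕ → ℝ → ℝ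
  | 0, _ => 0
  | 1, _ => 1
  | k + 2, t => L (a k) (X a s (k + 1) t) * D a s (k + 1) t - D a s k t

/-- second derivatives -/
noncomputable def B (a : ℕ → ℝ) (s : ℝ) : ℕ → ℝ → ℝ
  | 0, _ => 0
  | 1, _ => 0
  | k + 2, t => L (a k) (X a s (k + 1) t) * B a s (k + 1) t
      - 4 * π ^ 2 * a k * sin (2 * π * X a s (k + 1) t) * D a s (k + 1) t ^ 2 - B a s k t

variable (a : ℕ → ℝ) (s : ℝ)

theorem X_hasDeriv (k : ℕ) (t : ℝ) : HasDerivAt (X a s k) (D a s k t) t := by
  induction k using Nat.strong_induction_on with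
  | _ k ih =>
    match k with
    | 0 => exact hasDerivAt_const t s
    | 1 => exact hasDerivAt_id t
    | k + 2 =>
      have h1 := ih (k + 1) (by omega)
      have h0 := ih k (by omega)
      have h2 := (h1.const_mul (2 * π)).sin
      have h3 := ((h1.const_mul 2).sub h0).add (h2.const_mul (a k))
      refine HasDerivAt.congr_deriv (f := X a s (k + 2)) h3 ?_
      show _ = L (a k) (X a s (k + 1) t) * D a s (k + 1) t - D a s k t
      unfold L
      ring

theorem L_hasDeriv (b : ℝ) (k : ℕ) (t : ℝ) : HasDerivAt (fun t => L b (X a s k t))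
    (-(4 * π ^ 2 * b * sin (2 * π * X a s k t)) * D a s k t) t := by
  have h1 := ((X_hasDeriv a s k t).const_mul (2 * π)).cos
  have h2 := (h1.const_mul (2 * π * b)).const_add 2
  refine HasDerivAt.congr_deriv (f := fun t => L b (X a s k t)) h2 ?_
  ring

theorem D_hasDeriv (k : ℕ) (t : ℝ) : HasDerivAt (D a s k) (B a s k t) t := by
  induction k using Nat.strong_induction_on with
  | _ k ih =>
    match k with
    | 0 => exact hasDerivAt_const t 0
    | 1 => exact hasDerivAt_const t 1
    | k + 2 =>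
      have h1 := ih (k + 1) (by omega)
      have h0 := ih k (by omega)
      have h3 := ((L_hasDeriv a s (a k) (k + 1) t).mul h1).sub h0
      refine HasDerivAt.congr_deriv (f := D a s (k + 2)) h3 ?_
      show _ = L (a k) (X a s (k + 1) t) * B a s (k + 1) t
        - 4 * π ^ 2 * a k * sin (2 * π * X a s (k + 1) t) * D a s (k + 1) t ^ 2 - B a s k t
      ring

theorem X_cont (k : ℕ) : Continuous (fun p : ℝ × ℝ => X a p.1 k p.2) := by
  induction k using Nat.strong_induction_on with
  | _ k ih =>
    match k with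
    | 0 => exact continuous_fst
    | 1 => exact continuous_snd
    | k + 2 =>
      have h1 := ih (k + 1) (by omega)
      have h0 := ih k (by omega)
      show Continuous (fun p : ℝ × ℝ => 2 * X a p.1 (k + 1) p.2 - X a p.1 k p.2 +
          a k * sin (2 * π * X a p.1 (k + 1) p.2))
      fun_prop

theorem L2_cont (b : ℝ) (k : ℕ) : Continuous (fun p : ℝ × ℝ => L b (X a p.1 k p.2)) :=
  (L_cont b).comp (X_cont a k)

theorem D2_cont (k : ℕ) : Continuous (fun p : ℝ × ℝ => D a p.1 k p.2) := by
  induction k using Nat.strong_induction_on with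
  | _ k ih =>
    match k with
    | 0 => exact continuous_const
    | 1 => exact continuous_const
    | k + 2 =>
      have h1 := ih (k + 1) (by omega)
      have h0 := ih k (by omega)
      have h2 := L2_cont a (a k) (k + 1)
      show Continuous (fun p : ℝ × ℝ => L (a k) (X a p.1 (k + 1) p.2) * D a p.1 (k + 1) p.2 -
        D a p.1 k p.2)
      fun_prop

theorem B2_cont (k : ℕ) : Continuous (fun p : ℝ × ℝ => B a p.1 k p.2) := by
  induction k using Nat.strong_induction_on with
  | _ k ih =>
    match k with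
    | 0 => exact continuous_const
    | 1 => exact continuous_const
    | k + 2 =>
      have h1 := ih (k + 1) (by omega)
      have h0 := ih k (by omega)
      have h2 := X_cont a (k + 1)
      have h3 := D2_cont a (k + 1)
      have h4 := L2_cont a (a k) (k + 1)
      show Continuous (fun p : ℝ × ℝ => L (a k) (X a p.1 (k + 1) p.2) * B a p.1 (k + 1) p.2
        - 4 * π ^ 2 * a k * sin (2 * π * X a p.1 (k + 1) p.2) * D a p.1 (k + 1) p.2 ^ 2 -
          B a p.1 k p.2)
      fun_prop

theorem Xt_cont (k : ℕ) : Continuous (X a s k) :=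
  (X_cont a k).comp (by fun_prop : Continuous (fun t : ℝ => (s, t)))

theorem D_cont (k : ℕ) : Continuous (D a s k) :=
  (D2_cont a k).comp (by fun_prop : Continuous (fun t : ℝ => (s, t)))

theorem B_cont (k : ℕ) : Continuous (B a s k) :=
  (B2_cont a k).comp (by fun_prop : Continuous (fun t : ℝ => (s, t)))

/-- periodicity -/
theorem X_period (k : ℕ) (t : ℝ) : X a s k (t + 1) = X a s k t + k := by
  induction k using Nat.strong_induction_on with
  | _ k ih =>
    match k with
    | 0 => simp [X]
    | 1 => simp [X]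
    | k + 2 =>
      have h1 := ih (k + 1) (by omega)
      have h0 := ih k (by omega)
      show 2 * X a s (k + 1) (t + 1) - X a s k (t + 1) + a k * sin (2 * π * X a s (k + 1) (t + 1)) =
        2 * X a s (k + 1) t - X a s k t + a k * sin (2 * π * X a s (k + 1) t) + ((k + 2 : ℕ) : ℝ)
      have h2 : sin (2 * π * X a s (k + 1) (t + 1)) = sin (2 * π * X a s (k + 1) t) := by
        rw [h1]
        have e : 2 * π * (X a s (k + 1) t + ((k + 1 : ℕ) : ℝ)) =
            2 * π * X a s (k + 1) t + ((k + 1 : ℕ) : ℝ) * (2 * π) := by ring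
        rw [e, sin_add_nat_mul_two_pi]
      rw [h2, h1, h0]
      push_cast
      ring

theorem D_period (k : ℕ) (t : ℝ) : D a s k (t + 1) = D a s k t := by
  induction k using Nat.strong_induction_on with
  | _ k ih =>
    match k with
    | 0 => rfl
    | 1 => rfl
    | k + 2 =>
      have h1 := ih (k + 1) (by omega)
      have h0 := ih k (by omega)
      show L (a k) (X a s (k + 1) (t + 1)) * D a s (k + 1) (t + 1) - D a s k (t + 1) =
        L (a k) (X a s (k + 1) t) * D a s (k + 1) t - D a s k t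
      rw [X_period, L_period, h1, h0]

/-- the factor at time `k`, continued by `1` from time `n` on -/
noncomputable def el (n k : ℕ) (t : ℝ) : ℝ := if k < n then L (a k) (X a s (k + 1) t) else 1

theorem el_lt {n k : ℕ} (h : k < n) (t : ℝ) : el a s n k t = L (a k) (X a s (k + 1) t) := by
  unfold el
  rw [if_pos h]

theorem el_ge {n k : ℕ} (h : n ≤ k) (t : ℝ) : el a s n k t = 1 := by
  unfold el
  rw [if_neg (not_lt.2 h)]

/-- the good points up to time `n` -/
def Good (T : ℕ → ℝ) (n : ℕ) (t : ℝ) : Prop :=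
  ∀ k, k < n → T k ≤ |el a s n k t * el a s n (k + 1) t|

variable {a s}

theorem el_ne {T : ℕ → ℝ} (hT : ∀ k, 16 ≤ T k) {n : ℕ} {t : ℝ} (hg : Good a s T n t) (k : ℕ) :
    el a s n k t ≠ 0 := by
  rcases Nat.lt_or_ge k n with h | h
  · intro h0
    have h1 := hg k h
    rw [h0, zero_mul, abs_zero] at h1
    have := hT k
    linarith
  · rw [el_ge a s h]
    exact one_ne_zero

/-- growth -/
theorem growth {T : ℕ → ℝ} (hT : ∀ k, 16 ≤ T k) {n : ℕ} {t : ℝ} (hg : Good a s T n t) :
    ∀ k, k < n → 12 * |D a s k t| ≤ |L (a k) (X a s (k + 1) t)| * |D a s (k + 1) t| := by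
  intro k
  induction k with
  | zero =>
    intro _
    show 12 * |(0:ℝ)| ≤ _
    rw [abs_zero, mul_zero]
    positivity
  | succ k ih =>
    intro hk
    have h1 := ih (by omega)
    have h2 := hg k (by omega)
    rw [el_lt a s (by omega : k < n), el_lt a s hk, abs_mul] at h2
    have e : D a s (k + 1 + 1) t = L (a k) (X a s (k + 1) t) * D a s (k + 1) t - D a s k t := rfl
    have h4 : |L (a k) (X a s (k + 1) t)| * |D a s (k + 1) t| - |D a s k t| ≤
        |D a s (k + 1 + 1) t| := by
      rw [e, ← abs_mul]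
      exact abs_sub_abs_le_abs_sub _ _
    set x := |L (a k) (X a s (k + 1) t)|
    set y := |L (a (k + 1)) (X a s (k + 1 + 1) t)|
    set d := |D a s (k + 1) t|
    have hd : 0 ≤ d := abs_nonneg _
    have hy : 0 ≤ y := abs_nonneg _
    have h5 : 11 / 12 * (x * d) ≤ |D a s (k + 1 + 1) t| := by linarith
    have h6 := mul_le_mul_of_nonneg_left h5 hy
    have h7 : 16 * d ≤ x * y * d := by
      have := mul_le_mul_of_nonneg_right ((hT k).trans h2) hd
      linarith
    nlinarith

theorem D_low {T : ℕ → ℝ} (hT : ∀ k, 16 ≤ T k) {n : ℕ} {t : ℝ} (hg : Good a s T n t) {k : ℕ}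
    (hk : k < n) : 11 / 12 * (|L (a k) (X a s (k + 1) t)| * |D a s (k + 1) t|) ≤
      |D a s (k + 2) t| := by
  have h1 := growth hT hg k hk
  have e : D a s (k + 2) t = L (a k) (X a s (k + 1) t) * D a s (k + 1) t - D a s k t := rfl
  have h4 : |L (a k) (X a s (k + 1) t)| * |D a s (k + 1) t| - |D a s k t| ≤
      |D a s (k + 2) t| := by
    rw [e, ← abs_mul]
    exact abs_sub_abs_le_abs_sub _ _
  linarith

theorem D_two {T : ℕ → ℝ} (hT : ∀ k, 16 ≤ T k) {n : ℕ} {t : ℝ} (hg : Good a s T n t) {k : ℕ}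
    (hk : k < n) : 11 * |D a s k t| ≤ |D a s (k + 2) t| := by
  have h1 := growth hT hg k hk
  have h2 := D_low hT hg hk
  linarith

theorem D_ne {T : ℕ → ℝ} (hT : ∀ k, 16 ≤ T k) {n : ℕ} {t : ℝ} (hg : Good a s T n t) :
    ∀ k, k ≤ n → D a s (k + 1) t ≠ 0 := by
  intro k
  induction k with
  | zero => intro _; exact one_ne_zero
  | succ k ih =>
    intro hk h0
    have h1 := ih (by omega)
    have h2 := D_low hT hg (k := k) (by omega)
    have h3 : D a s (k + 2) t = 0 := h0
    rw [h3, abs_zero] at h2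
    have h4 := el_ne hT hg k
    rw [el_lt a s (by omega : k < n)] at h4
    have h5 : 0 < |L (a k) (X a s (k + 1) t)| * |D a s (k + 1) t| :=
      mul_pos (abs_pos.2 h4) (abs_pos.2 h1)
    linarith

variable (a s)

/-- the guaranteed remaining expansion -/
noncomputable def w (n k : ℕ) (t : ℝ) : ℝ :=
  ∏ j ∈ Finset.Ico k n, (3 / 4 * |L (a j) (X a s (j + 1) t)|)

theorem w_succ {n k : ℕ} (hk : k < n) (t : ℝ) :
    w a s n k t = 3 / 4 * |L (a k) (X a s (k + 1) t)| * w a s n (k + 1) t := by
  unfold w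
  rw [Finset.prod_eq_prod_Ico_succ_bot hk]

theorem w_ge {n k : ℕ} (hk : n ≤ k) (t : ℝ) : w a s n k t = 1 := by
  unfold w
  rw [Finset.Ico_eq_empty (by omega), Finset.prod_empty]

theorem w_nonneg (n k : ℕ) (t : ℝ) : 0 ≤ w a s n k t :=
  Finset.prod_nonneg fun _ _ => by positivity

theorem w_two {n k : ℕ} (hk : k < n) (t : ℝ) :
    9 / 16 * |el a s n k t * el a s n (k + 1) t| * w a s n (k + 2) t ≤ w a s n k t := by
  rw [w_succ a s hk, abs_mul, el_lt a s hk]
  rcases Nat.lt_or_ge (k + 1) n with h | h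
  · rw [w_succ a s h, el_lt a s h]
    apply le_of_eq
    ring
  · rw [el_ge a s h, w_ge a s h, w_ge a s (by omega), abs_one]
    have := abs_nonneg (L (a k) (X a s (k + 1) t))
    linarith

variable {a s}

theorem w_low {T : ℕ → ℝ} {q : ℝ} (hq : 1 ≤ q) (hqT : ∀ k, q ^ 2 ≤ 9 / 16 * T k) {n : ℕ} {t : ℝ}
    (hg : Good a s T n t) : ∀ j k, n - k = j → q ^ (n - k) ≤ w a s n k t := by
  intro j
  induction j using Nat.strong_induction_on with
  | _ j ih =>
    intro k hj
    rcases Nat.lt_or_ge k n with h | h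
    · have h1 := ih (n - (k + 2)) (by omega) (k + 2) rfl
      have h2 := w_two a s h t
      have h3 := hg k h
      have h4 := hqT k
      have h5 : 0 ≤ q ^ (n - (k + 2)) := by positivity
      have h6 : q ^ (n - k) ≤ q ^ 2 * q ^ (n - (k + 2)) := by
        rw [← pow_add]
        exact pow_le_pow_right₀ hq (by omega)
      calc q ^ (n - k) ≤ q ^ 2 * q ^ (n - (k + 2)) := h6
        _ ≤ (9 / 16 * |el a s n k t * el a s n (k + 1) t|) * w a s n (k + 2) t := by
            apply mul_le_mul _ h1 h5 (by positivity)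
            linarith
        _ ≤ _ := h2
    · rw [w_ge a s h, Nat.sub_eq_zero_of_le h, pow_zero]

theorem D_w {T : ℕ → ℝ} (hT : ∀ k, 16 ≤ T k) {n : ℕ} {t : ℝ} (hg : Good a s T n t) :
    ∀ j k, k + j = n → |D a s (k + 1) t| * w a s n k t ≤ |D a s (n + 1) t| := by
  intro j
  induction j with
  | zero =>
    intro k hk
    rw [w_ge a s (by omega), mul_one, show k = n by omega]
  | succ j ih =>
    intro k hk
    have h1 := ih (k + 1) (by omega)
    have h2 := D_low hT hg (k := k) (by omega)
    rw [w_succ a s (by omega : k < n)]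
    refine le_trans ?_ h1
    have h3 := w_nonneg a s n (k + 1) t
    have h4 : |D a s (k + 1) t| * (3 / 4 * |L (a k) (X a s (k + 1) t)|) ≤
        |D a s (k + 1 + 1) t| := by
      refine le_trans ?_ h2
      have h5 : 0 ≤ |L (a k) (X a s (k + 1) t)| * |D a s (k + 1) t| := by positivity
      nlinarith
    calc _ = |D a s (k + 1) t| * (3 / 4 * |L (a k) (X a s (k + 1) t)|) * w a s n (k + 1) t := by
          ring
      _ ≤ _ := mul_le_mul_of_nonneg_right h4 h3

end Pool.Agent.U785.ST
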