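import Mathlib
import Pool.Agent.U785.ST.Seq

set_option autoImplicit false

/-!
# Distortion
-/

namespace Pool.Agent.U785.ST

open Real
open Pool.Agent.TH705.SM (L L_cont L_period)

variable {a : ℕ → ℝ} {s : ℝ}

/-- the term of the distortion -/
noncomputable def et (a : ℕ → ℝ) (s : ℝ) (j : ℕ) (t : ℝ) : ℝ :=
  4 * π ^ 2 * |a j| * D a s (j + 1) t ^ 2 / |D a s (j + 2) t|

theorem et_nonneg (j : ℕ) (t : ℝ) : 0 ≤ et a s j t := by
  unfold et
  positivity

theorem beta {T : ℕ → ℝ} (hT : ∀ k, 16 ≤ T k) {n : ℕ} {t : ℝ} (hg : Good a s T n t) :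
    ∀ m, m ≤ n → |B a s (m + 1) t / D a s (m + 1) t| +
      1 / 10 * |B a s (m + 1) t / D a s (m + 1) t - B a s m t / D a s m t| ≤
        11 / 10 * ∑ j ∈ Finset.range m, et a s j t := by
  intro m
  induction m with
  | zero =>
    intro _
    have h1 : B a s (0 + 1) t = 0 := rfl
    have h0 : B a s 0 t = 0 := rfl
    rw [h1, h0]
    simp
  | succ m ih =>
    intro hm
    have h1 := ih (by omega)
    have hn1 := D_ne hT hg m (by omega)
    have hn2 := D_ne hT hg (m + 1) (by omega)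
    have h2 := D_two hT hg (k := m) (by omega)
    have hB0 : B a s m t = B a s m t / D a s m t * D a s m t := by
      rcases Nat.eq_zero_or_pos m with h | h
      · subst h
        show (0:ℝ) = _
        have : B a s 0 t = 0 := rfl
        rw [this]
        simp
      · obtain ⟨k, rfl⟩ := Nat.exists_eq_add_of_le' h
        have := D_ne hT hg k (by omega)
        field_simp
    have hB1 : B a s (m + 1) t = B a s (m + 1) t / D a s (m + 1) t * D a s (m + 1) t := by
      field_simp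
    set β0 := B a s m t / D a s m t with hβ0
    set β1 := B a s (m + 1) t / D a s (m + 1) t with hβ1
    set β2 := B a s (m + 1 + 1) t / D a s (m + 1 + 1) t with hβ2
    set l := L (a m) (X a s (m + 1) t) with hl
    set g := 4 * π ^ 2 * a m * sin (2 * π * X a s (m + 1) t) with hgg
    have eD : D a s (m + 1 + 1) t = l * D a s (m + 1) t - D a s m t := rfl
    have eB : B a s (m + 1 + 1) t = l * B a s (m + 1) t - g * D a s (m + 1) t ^ 2 -
      B a s m t := rfl
    have key : β2 - β1 = D a s m t / D a s (m + 1 + 1) t * (β1 - β0) -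
        g * D a s (m + 1) t ^ 2 / D a s (m + 1 + 1) t := by
      have e1 : β2 * D a s (m + 1 + 1) t = B a s (m + 1 + 1) t := by
        rw [hβ2]
        exact div_mul_cancel₀ _ hn2
      have e2 : (β2 - β1) * D a s (m + 1 + 1) t = D a s m t * (β1 - β0) -
          g * D a s (m + 1) t ^ 2 := by
        rw [sub_mul, e1, eB, hB1, hB0, eD]
        ring
      have e3 : β2 - β1 = (D a s m t * (β1 - β0) - g * D a s (m + 1) t ^ 2) /
          D a s (m + 1 + 1) t := by
        rw [eq_div_iff hn2]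
        exact e2
      rw [e3]
      ring
    have hD2 : 0 < |D a s (m + 1 + 1) t| := abs_pos.2 hn2
    have h3 : |D a s m t / D a s (m + 1 + 1) t| ≤ 1 / 11 := by
      rw [abs_div, div_le_div_iff₀ hD2 (by norm_num)]
      linarith
    have h4 : |g * D a s (m + 1) t ^ 2 / D a s (m + 1 + 1) t| ≤ et a s m t := by
      unfold et
      rw [abs_div, abs_mul, abs_of_nonneg (sq_nonneg (D a s (m + 1) t))]
      apply div_le_div_of_nonneg_right _ (abs_nonneg _)
      apply mul_le_mul_of_nonneg_right _ (sq_nonneg _)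
      rw [hgg, abs_mul, abs_mul, abs_of_pos (by positivity : 0 < 4 * π ^ 2)]
      have h7 := abs_sin_le_one (2 * π * X a s (m + 1) t)
      calc 4 * π ^ 2 * |a m| * |sin (2 * π * X a s (m + 1) t)| ≤ 4 * π ^ 2 * |a m| * 1 :=
            mul_le_mul_of_nonneg_left h7 (by positivity)
        _ = _ := mul_one _
    have h5 : |β2 - β1| ≤ 1 / 11 * |β1 - β0| + et a s m t := by
      rw [key]
      refine (abs_sub _ _).trans (add_le_add ?_ h4)
      rw [abs_mul]
      exact mul_le_mul_of_nonneg_right h3 (abs_nonneg _)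
    have h6 : |β2| ≤ |β1| + |β2 - β1| := by
      have := abs_add_le β1 (β2 - β1)
      rwa [add_sub_cancel] at this
    rw [Finset.sum_range_succ]
    linarith

theorem B_le {T : ℕ → ℝ} (hT : ∀ k, 16 ≤ T k) {n : ℕ} {t : ℝ} (hg : Good a s T n t) :
    |B a s (n + 1) t / D a s (n + 1) t ^ 2| ≤
      11 / 10 * ∑ j ∈ Finset.range n, et a s j t / |D a s (n + 1) t| := by
  have h1 := beta hT hg n le_rfl
  have hD : 0 < |D a s (n + 1) t| := abs_pos.2 (D_ne hT hg n le_rfl)
  have h2 : |B a s (n + 1) t / D a s (n + 1) t| ≤ 11 / 10 * ∑ j ∈ Finset.range n, et a s j t := by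
    have := abs_nonneg (B a s (n + 1) t / D a s (n + 1) t - B a s n t / D a s n t)
    linarith
  rw [← Finset.sum_div, sq, ← div_div, abs_div, mul_div_assoc', div_le_div_iff_of_pos_right hD]
  exact h2

/-- the function which dominates all the terms: `x` is the variable factor, `y` the other one -/
noncomputable def hh (b T x y : ℝ) : ℝ := |b| * |y| / ((x * y) ^ 2 + T ^ 2)

theorem hh_nonneg (b T x y : ℝ) : 0 ≤ hh b T x y := by
  unfold hh
  positivity

/-- the inverse of the remaining expansion -/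
theorem inv_w {T : ℕ → ℝ} (hT : ∀ k, 16 ≤ T k) {q : ℝ} (hq : 1 ≤ q)
    (hqT : ∀ k, q ^ 2 ≤ 9 / 16 * T k) {n : ℕ} {t : ℝ} (hg : Good a s T n t) {k : ℕ} (hk : k < n) :
    |D a s (k + 1) t| * (9 / 16 * |el a s n k t * el a s n (k + 1) t| * q ^ (n - (k + 2))) ≤
      |D a s (n + 1) t| := by
  have h1 := D_w hT hg (n - k) k (by omega)
  have h2 := w_two a s hk t
  have h3 := w_low hq hqT hg (n - (k + 2)) (k + 2) rfl
  refine le_trans ?_ h1
  apply mul_le_mul_of_nonneg_left _ (abs_nonneg _)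
  refine le_trans ?_ h2
  apply mul_le_mul_of_nonneg_left h3
  positivity

theorem et_le {T : ℕ → ℝ} (hT : ∀ k, 16 ≤ T k) {q : ℝ} (hq : 1 ≤ q)
    (hqT : ∀ k, q ^ 2 ≤ 9 / 16 * T k) {n : ℕ} {t : ℝ} (hg : Good a s T n t) {k : ℕ} (hk : k < n) :
    et a s k t / |D a s (n + 1) t| ≤
      16 * π ^ 2 * (hh (a k) (T k) (el a s n k t) (el a s n (k + 1) t) / q ^ (n - (k + 2))) := by
  have h1 := inv_w hT hq hqT hg hk
  have h2 := D_low hT hg hk
  have h3 := hg k hk
  have hx := el_ne hT hg k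
  have hy := el_ne hT hg (k + 1)
  have hd1 := D_ne hT hg k hk.le
  have hd2 := D_ne hT hg (k + 1) (by omega)
  have hd3 := D_ne hT hg n le_rfl
  rw [← el_lt a s hk] at h2
  set x := el a s n k t
  set y := el a s n (k + 1) t
  have hQ : 0 < q ^ (n - (k + 2)) := by positivity
  set Q := q ^ (n - (k + 2))
  have hd1' : 0 < |D a s (k + 1) t| := abs_pos.2 hd1
  have hd2' : 0 < |D a s (k + 2) t| := abs_pos.2 hd2
  have hd3' : 0 < |D a s (n + 1) t| := abs_pos.2 hd3
  have hx' : 0 < |x| := abs_pos.2 hx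
  have hy' : 0 < |y| := abs_pos.2 hy
  have hTk := hT k
  unfold et hh
  rw [abs_mul] at h1 h3
  have hsq : D a s (k + 1) t ^ 2 = |D a s (k + 1) t| ^ 2 := (sq_abs _).symm
  have hxy : (x * y) ^ 2 = (|x| * |y|) ^ 2 := by rw [← abs_mul, sq_abs]
  rw [hsq, hxy]
  generalize |D a s (k + 1) t| = d1 at *
  generalize |D a s (k + 2) t| = d2 at *
  generalize |D a s (n + 1) t| = d3 at *
  generalize |x| = X at *
  generalize |y| = Y at *
  -- `4 π² |a| d1² / (d2 d3)`
  have h4 : d1 ^ 2 * (11 / 12 * 9 / 16 * (X ^ 2 * Y * Q)) ≤ d2 * d3 := by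
    have := mul_le_mul h2 h1 (by positivity) hd2'.le
    refine le_trans (le_of_eq ?_) this
    ring
  have h5 : d1 ^ 2 / d2 / d3 ≤ 2 / (X ^ 2 * Y * Q) := by
    rw [div_div, div_le_div_iff₀ (by positivity) (by positivity)]
    have : 0 < d1 ^ 2 * (X ^ 2 * Y * Q) := by positivity
    nlinarith
  have h6 : 1 / (X ^ 2 * Y) ≤ 2 * (Y / ((X * Y) ^ 2 + T k ^ 2)) := by
    have hT2 : T k ^ 2 ≤ (X * Y) ^ 2 := pow_le_pow_left₀ (by linarith) h3 2
    have hXY : 0 < X * Y := by positivity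
    have e : 1 / (X ^ 2 * Y) = 2 * (Y / ((X * Y) ^ 2 + (X * Y) ^ 2)) := by
      field_simp
      ring
    rw [e]
    apply mul_le_mul_of_nonneg_left _ (by norm_num)
    apply div_le_div_of_nonneg_left hy'.le (by positivity)
    linarith
  have e1 : 4 * π ^ 2 * |a k| * d1 ^ 2 / d2 / d3 = 4 * π ^ 2 * |a k| * (d1 ^ 2 / d2 / d3) := by ring
  have hAk := abs_nonneg (a k)
  rw [e1]
  calc 4 * π ^ 2 * |a k| * (d1 ^ 2 / d2 / d3) ≤ 4 * π ^ 2 * |a k| * (2 / (X ^ 2 * Y * Q)) :=
        mul_le_mul_of_nonneg_left h5 (by positivity)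
    _ = 8 * π ^ 2 * |a k| / Q * (1 / (X ^ 2 * Y)) := by
        field_simp
        ring
    _ ≤ 8 * π ^ 2 * |a k| / Q * (2 * (Y / ((X * Y) ^ 2 + T k ^ 2))) :=
        mul_le_mul_of_nonneg_left h6 (by positivity)
    _ = _ := by ring

end Pool.Agent.U785.ST
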