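import Mathlib
import Pool.Agent.U785.ST.Dist

set_option autoImplicit false

/-!
# Cutoffs
-/

namespace Pool.Agent.U785.ST

open Real MeasureTheory
open Pool.Agent.TH705.SM (L L_cont L_period rho rho' rho_zero rho_one rho'_zero rho'_le KK KK_one
  rho_hasDeriv rho_cont rho'_cont rho_nonneg rho_le_one)

/-- the derivative of `el` -/
noncomputable def el' (a : ℕ → ℝ) (s : ℝ) (n k : ℕ) (t : ℝ) : ℝ :=
  if k < n then -(4 * π ^ 2 * a k * sin (2 * π * X a s (k + 1) t)) * D a s (k + 1) t else 0

theorem el_hasDeriv (a : ℕ → ℝ) (s : ℝ) (n k : ℕ) (t : ℝ) :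
    HasDerivAt (el a s n k) (el' a s n k t) t := by
  unfold el'
  by_cases h : k < n
  · rw [if_pos h]
    have h1 : el a s n k = fun t => L (a k) (X a s (k + 1) t) := by
      funext u
      exact el_lt a s h u
    rw [h1]
    exact L_hasDeriv a s (a k) (k + 1) t
  · rw [if_neg h]
    have h1 : el a s n k = fun _ => 1 := by
      funext u
      exact el_ge a s (not_lt.1 h) u
    rw [h1]
    exact hasDerivAt_const t 1

theorem el2_cont (a : ℕ → ℝ) (n k : ℕ) : Continuous (fun p : ℝ × ℝ => el a p.1 n k p.2) := by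
  unfold el
  by_cases h : k < n
  · simp only [if_pos h]
    exact L2_cont a (a k) (k + 1)
  · simp only [if_neg h]
    exact continuous_const

theorem el_cont (a : ℕ → ℝ) (s : ℝ) (n k : ℕ) : Continuous (el a s n k) :=
  (el2_cont a n k).comp (by fun_prop : Continuous (fun t : ℝ => (s, t)))

theorem el'_cont (a : ℕ → ℝ) (s : ℝ) (n k : ℕ) : Continuous (el' a s n k) := by
  have h1 := Xt_cont a s (k + 1)
  have h2 := D_cont a s (k + 1)
  unfold el'
  by_cases h : k < n
  · simp only [if_pos h]
    fun_prop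
  · simp only [if_neg h]
    exact continuous_const

theorem el_period (a : ℕ → ℝ) (s : ℝ) (n k : ℕ) (t : ℝ) : el a s n k (t + 1) = el a s n k t := by
  unfold el
  rw [X_period, L_period]

theorem el'_abs (a : ℕ → ℝ) (s : ℝ) {n k : ℕ} (h : k < n) (t : ℝ) :
    |el' a s n k t| ≤ 4 * π ^ 2 * |a k| * |D a s (k + 1) t| := by
  unfold el'
  rw [if_pos h, abs_mul, abs_neg, abs_mul, abs_mul, abs_of_pos (by positivity : 0 < 4 * π ^ 2)]
  apply mul_le_mul_of_nonneg_right _ (abs_nonneg _)
  have h7 := abs_sin_le_one (2 * π * X a s (k + 1) t)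
  calc 4 * π ^ 2 * |a k| * |sin (2 * π * X a s (k + 1) t)| ≤ 4 * π ^ 2 * |a k| * 1 :=
        mul_le_mul_of_nonneg_left h7 (by positivity)
    _ = _ := mul_one _

/-- the cutoff at a time -/
noncomputable def rk (a T : ℕ → ℝ) (s : ℝ) (n k : ℕ) (t : ℝ) : ℝ :=
  rho (el a s n k t * el a s n (k + 1) t / T k)

/-- its derivative -/
noncomputable def rk' (a T : ℕ → ℝ) (s : ℝ) (n k : ℕ) (t : ℝ) : ℝ :=
  rho' (el a s n k t * el a s n (k + 1) t / T k) *
    ((el' a s n k t * el a s n (k + 1) t + el a s n k t * el' a s n (k + 1) t) / T k)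

theorem rk_hasDeriv (a T : ℕ → ℝ) (s : ℝ) (n k : ℕ) (t : ℝ) :
    HasDerivAt (rk a T s n k) (rk' a T s n k t) t := by
  have h1 := ((el_hasDeriv a s n k t).mul (el_hasDeriv a s n (k + 1) t)).div_const (T k)
  exact (rho_hasDeriv (el a s n k t * el a s n (k + 1) t / T k)).comp t h1

theorem rk2_cont (a T : ℕ → ℝ) (n k : ℕ) :
    Continuous (fun p : ℝ × ℝ => rk a T p.1 n k p.2) := by
  have h1 := el2_cont a n k
  have h2 := el2_cont a n (k + 1)
  unfold rk
  exact rho_cont.comp ((h1.mul h2).div_const _)

theorem rk_cont (a T : ℕ → ℝ) (s : ℝ) (n k : ℕ) : Continuous (rk a T s n k) :=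
  continuous_iff_continuousAt.2 fun z => (rk_hasDeriv a T s n k z).continuousAt

theorem rk'_cont (a T : ℕ → ℝ) (s : ℝ) (n k : ℕ) : Continuous (rk' a T s n k) := by
  have h1 := el_cont a s n k
  have h2 := el_cont a s n (k + 1)
  have h3 := el'_cont a s n k
  have h4 := el'_cont a s n (k + 1)
  have h5 : Continuous (fun t => rho' (el a s n k t * el a s n (k + 1) t / T k)) :=
    rho'_cont.comp ((h1.mul h2).div_const _)
  unfold rk'
  fun_prop

theorem rk_period (a T : ℕ → ℝ) (s : ℝ) (n k : ℕ) (t : ℝ) :
    rk a T s n k (t + 1) = rk a T s n k t := by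
  unfold rk
  rw [el_period, el_period]

/-- the term which bounds the derivative of a cutoff -/
noncomputable def ck (a T : ℕ → ℝ) (s : ℝ) (n : ℕ) (q : ℝ) (k : ℕ) (t : ℝ) : ℝ :=
  hh (a k) (T k) (el a s n k t) (el a s n (k + 1) t) / q ^ (n - (k + 2)) +
    if k + 1 < n then
      hh (a (k + 1)) (T k) (el a s n (k + 1) t) (el a s n k t) / q ^ (n - (k + 3)) else 0

theorem ck_ge {a T : ℕ → ℝ} {s : ℝ} {n : ℕ} {q : ℝ} (hq : 1 ≤ q) (k : ℕ) (t : ℝ) :
    hh (a k) (T k) (el a s n k t) (el a s n (k + 1) t) / q ^ (n - (k + 2)) ≤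
      ck a T s n q k t := by
  unfold ck
  have : 0 ≤ if k + 1 < n then
      hh (a (k + 1)) (T k) (el a s n (k + 1) t) (el a s n k t) / q ^ (n - (k + 3)) else 0 := by
    split_ifs
    · have := hh_nonneg (a (k + 1)) (T k) (el a s n (k + 1) t) (el a s n k t)
      positivity
    · exact le_rfl
  linarith

theorem ck_nonneg {a T : ℕ → ℝ} {s : ℝ} {n : ℕ} {q : ℝ} (hq : 1 ≤ q) (k : ℕ) (t : ℝ) :
    0 ≤ ck a T s n q k t := by
  refine le_trans ?_ (ck_ge hq k t)
  have := hh_nonneg (a k) (T k) (el a s n k t) (el a s n (k + 1) t)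
  positivity

theorem rk'_le {a T : ℕ → ℝ} {s : ℝ} (hT : ∀ k, 16 ≤ T k) (hTm : ∀ k, T k ≤ T (k + 1)) {q : ℝ}
    (hq : 1 ≤ q) (hqT : ∀ k, q ^ 2 ≤ 9 / 16 * T k) {n : ℕ} {t : ℝ} (hg : Good a s T n t)
    {k : ℕ} (hk : k < n) :
    |rk' a T s n k t| ≤ 64 * KK * π ^ 2 * ck a T s n q k t * |D a s (n + 1) t| := by
  have hK := KK_one
  have hTk := hT k
  have hTk0 : 0 < T k := by linarith
  have hc0 := ck_nonneg (a := a) (T := T) (s := s) (n := n) hq k t
  by_cases hz : 2 < (el a s n k t * el a s n (k + 1) t / T k) ^ 2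
  · have : rho' (el a s n k t * el a s n (k + 1) t / T k) = 0 := by
      unfold rho'
      rw [Pool.Agent.TH705.SM.sT_deriv_zero (Or.inr (by linarith)), zero_mul]
    unfold rk'
    rw [this, zero_mul, abs_zero]
    positivity
  · rw [not_lt, div_pow, div_le_iff₀ (by positivity)] at hz
    have hr := rho'_le (el a s n k t * el a s n (k + 1) t / T k)
    have h1 := inv_w hT hq hqT hg hk
    have h2 := el'_abs a s hk t
    have h3 := hg k hk
    have hx := el_ne hT hg k
    have hy := el_ne hT hg (k + 1)
    unfold rk' ck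
    rw [abs_mul, abs_div, abs_of_pos hTk0]
    -- the second factor
    have hmain : |el' a s n k t * el a s n (k + 1) t + el a s n k t * el' a s n (k + 1) t| / T k ≤
        64 / 3 * π ^ 2 * (hh (a k) (T k) (el a s n k t) (el a s n (k + 1) t) / q ^ (n - (k + 2)) +
          if k + 1 < n then
            hh (a (k + 1)) (T k) (el a s n (k + 1) t) (el a s n k t) / q ^ (n - (k + 3)) else 0) *
          |D a s (n + 1) t| := by
      rw [mul_add, add_mul]
      refine (div_le_div_of_nonneg_right (abs_add_le _ _) hTk0.le).trans ?_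
      rw [add_div]
      refine add_le_add ?_ ?_
      · rw [abs_mul]
        unfold hh
        rw [abs_mul] at h1 h3
        have hxy : (el a s n k t * el a s n (k + 1) t) ^ 2 =
          (|el a s n k t| * |el a s n (k + 1) t|) ^ 2 := by rw [← abs_mul, sq_abs]
        rw [hxy] at hz ⊢
        have hx' : 0 < |el a s n k t| := abs_pos.2 hx
        have hy' : 0 < |el a s n (k + 1) t| := abs_pos.2 hy
        have hQ : 0 < q ^ (n - (k + 2)) := by positivity
        have hd1 : 0 ≤ |D a s (k + 1) t| := abs_nonneg _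
        have hb : 0 ≤ |a k| := abs_nonneg _
        generalize |D a s (k + 1) t| = d1 at *
        generalize |D a s (n + 1) t| = d3 at *
        generalize |el a s n k t| = x at *
        generalize |el a s n (k + 1) t| = y at *
        generalize q ^ (n - (k + 2)) = Q at *
        generalize |a k| = b at *
        generalize |el' a s n k t| = e' at *
        generalize T k = τ at *
        have hxyp : 0 < x * y := by positivity
        have h4 : d1 ≤ 16 / 9 * d3 / (x * y * Q) := by
          rw [le_div_iff₀ (by positivity)]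
          linarith
        have h5 : 1 / (τ * (x * y)) ≤ 3 / ((x * y) ^ 2 + τ ^ 2) := by
          rw [div_le_div_iff₀ (by positivity) (by positivity)]
          nlinarith
        calc e' * y / τ ≤ 4 * π ^ 2 * b * d1 * y / τ := by gcongr
          _ ≤ 4 * π ^ 2 * b * (16 / 9 * d3 / (x * y * Q)) * y / τ := by gcongr
          _ = 64 / 9 * π ^ 2 * (b * y / Q) * d3 * (1 / (τ * (x * y))) := by
              field_simp
              ring
          _ ≤ 64 / 9 * π ^ 2 * (b * y / Q) * d3 * (3 / ((x * y) ^ 2 + τ ^ 2)) := by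
              have : 0 ≤ d3 := by
                have : 0 ≤ d1 * (9 / 16 * (x * y) * Q) := by positivity
                linarith
              gcongr
          _ = _ := by
              field_simp
              ring
      · split_ifs with h
        · have h1' := inv_w hT hq hqT hg h
          have h2' := el'_abs a s h t
          have h3' := hg (k + 1) h
          have hTm' := hTm k
          rw [abs_mul]
          unfold hh
          have e1 : n - (k + 1 + 2) = n - (k + 3) := by omega
          rw [e1] at h1'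
          rw [abs_mul] at h3
          have hxy : (el a s n (k + 1) t * el a s n k t) ^ 2 =
            (|el a s n k t| * |el a s n (k + 1) t|) ^ 2 := by rw [← abs_mul, sq_abs]; ring
          have hxy2 : (el a s n k t * el a s n (k + 1) t) ^ 2 =
            (|el a s n k t| * |el a s n (k + 1) t|) ^ 2 := by rw [← abs_mul, sq_abs]
          rw [hxy2] at hz
          rw [hxy]
          have hx' : 0 < |el a s n k t| := abs_pos.2 hx
          have hy' : 0 < |el a s n (k + 1) t| := abs_pos.2 hy
          have hQ : 0 < q ^ (n - (k + 3)) := by positivity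
          have hd1 : 0 ≤ |D a s (k + 1 + 1) t| := abs_nonneg _
          have hb : 0 ≤ |a (k + 1)| := abs_nonneg _
          have hz0 : 0 ≤ |el a s n (k + 1) t * el a s n (k + 1 + 1) t| := abs_nonneg _
          generalize |D a s (k + 1 + 1) t| = d1 at *
          generalize |D a s (n + 1) t| = d3 at *
          generalize |el a s n k t| = x at *
          generalize |el a s n (k + 1) t * el a s n (k + 1 + 1) t| = z at *
          generalize |el a s n (k + 1) t| = y at *
          generalize q ^ (n - (k + 3)) = Q at *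
          generalize |a (k + 1)| = b at *
          generalize |el' a s n (k + 1) t| = e' at *
          generalize T (k + 1) = τ' at *
          generalize T k = τ at *
          have hxyp : 0 < x * y := by positivity
          have hzτ : τ ≤ z := hTm'.trans h3'
          have h4 : d1 ≤ 16 / 9 * d3 / (τ * Q) := by
            rw [le_div_iff₀ (by positivity)]
            have : d1 * (τ * Q) ≤ d1 * (z * Q) := by gcongr
            linarith
          have h5 : 1 / τ ^ 2 ≤ 3 / ((x * y) ^ 2 + τ ^ 2) := by
            rw [div_le_div_iff₀ (by positivity) (by positivity)]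
            nlinarith
          calc x * e' / τ ≤ x * (4 * π ^ 2 * b * d1) / τ := by gcongr
            _ ≤ x * (4 * π ^ 2 * b * (16 / 9 * d3 / (τ * Q))) / τ := by gcongr
            _ = 64 / 9 * π ^ 2 * (b * x / Q) * d3 * (1 / τ ^ 2) := by
                field_simp
                ring
            _ ≤ 64 / 9 * π ^ 2 * (b * x / Q) * d3 * (3 / ((x * y) ^ 2 + τ ^ 2)) := by
                have : 0 ≤ d3 := by
                  have : 0 ≤ d1 * (9 / 16 * z * Q) := by positivity
                  linarith
                gcongr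
            _ = _ := by
                field_simp
                ring
        · have : el' a s n (k + 1) t = 0 := by
            unfold el'
            rw [if_neg h]
          rw [this, mul_zero, abs_zero, zero_div, mul_zero, zero_mul]
    have hm0 := abs_nonneg (el' a s n k t * el a s n (k + 1) t +
      el a s n k t * el' a s n (k + 1) t)
    refine (mul_le_mul hr hmain (by positivity) (by positivity)).trans (le_of_eq ?_)
    ring

/-- the product of the cutoffs -/
noncomputable def chi (a T : ℕ → ℝ) (s : ℝ) (n : ℕ) : ℕ → ℝ → ℝ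
  | 0, _ => 1
  | m + 1, t => chi a T s n m t * rk a T s n m t

/-- its derivative -/
noncomputable def chi' (a T : ℕ → ℝ) (s : ℝ) (n : ℕ) : ℕ → ℝ → ℝ
  | 0, _ => 0
  | m + 1, t => chi' a T s n m t * rk a T s n m t + chi a T s n m t * rk' a T s n m t

theorem chi_hasDeriv (a T : ℕ → ℝ) (s : ℝ) (n m : ℕ) (t : ℝ) :
    HasDerivAt (chi a T s n m) (chi' a T s n m t) t := by
  induction m with
  | zero => exact hasDerivAt_const t 1
  | succ m ih => exact ih.mul (rk_hasDeriv a T s n m t)

theorem chi2_cont (a T : ℕ → ℝ) (n m : ℕ) :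
    Continuous (fun p : ℝ × ℝ => chi a T p.1 n m p.2) := by
  induction m with
  | zero => exact continuous_const
  | succ m ih => exact ih.mul (rk2_cont a T n m)

theorem chi_cont (a T : ℕ → ℝ) (s : ℝ) (n m : ℕ) : Continuous (chi a T s n m) :=
  continuous_iff_continuousAt.2 fun z => (chi_hasDeriv a T s n m z).continuousAt

theorem chi'_cont (a T : ℕ → ℝ) (s : ℝ) (n m : ℕ) : Continuous (chi' a T s n m) := by
  induction m with
  | zero => exact continuous_const
  | succ m ih =>
    exact (ih.mul (rk_cont a T s n m)).add ((chi_cont a T s n m).mul (rk'_cont a T s n m))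

theorem chi_mem (a T : ℕ → ℝ) (s : ℝ) (n m : ℕ) (t : ℝ) :
    0 ≤ chi a T s n m t ∧ chi a T s n m t ≤ 1 := by
  induction m with
  | zero => exact ⟨zero_le_one, le_rfl⟩
  | succ m ih =>
    have h0 : 0 ≤ rk a T s n m t := rho_nonneg _
    have h1 : rk a T s n m t ≤ 1 := rho_le_one _
    exact ⟨mul_nonneg ih.1 h0, mul_le_one₀ ih.2 h0 h1⟩

theorem chi_period (a T : ℕ → ℝ) (s : ℝ) (n m : ℕ) (t : ℝ) :
    chi a T s n m (t + 1) = chi a T s n m t := by
  induction m with
  | zero => rfl
  | succ m ih =>
    show chi a T s n m (t + 1) * rk a T s n m (t + 1) = chi a T s n m t * rk a T s n m t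
    rw [ih, rk_period]

theorem chi_bad {a T : ℕ → ℝ} {s : ℝ} (hT : ∀ k, 16 ≤ T k) {n m k : ℕ} {t : ℝ} (hk : k < m)
    (h : |el a s n k t * el a s n (k + 1) t| < T k) :
    chi a T s n m t = 0 ∧ chi' a T s n m t = 0 := by
  have hTk : 0 < T k := by linarith [hT k]
  have h3 : |el a s n k t * el a s n (k + 1) t / T k| < 1 := by
    rw [abs_div, abs_of_pos hTk, div_lt_one hTk]
    exact h
  have h4 : rk a T s n k t = 0 := rho_zero h3
  have h5 : rk' a T s n k t = 0 := by
    unfold rk'
    rw [rho'_zero h3, zero_mul]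
  induction m with
  | zero => omega
  | succ m ih =>
    rcases Nat.lt_or_ge k m with h6 | h6
    · obtain ⟨h2, h3⟩ := ih h6
      constructor
      · show chi a T s n m t * rk a T s n m t = 0
        rw [h2, zero_mul]
      · show chi' a T s n m t * rk a T s n m t + chi a T s n m t * rk' a T s n m t = 0
        rw [h2, h3, zero_mul, zero_mul, add_zero]
    · have : m = k := by omega
      subst this
      constructor
      · show chi a T s n m t * rk a T s n m t = 0
        rw [h4, mul_zero]
      · show chi' a T s n m t * rk a T s n m t + chi a T s n m t * rk' a T s n m t = 0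
        rw [h4, h5, mul_zero, mul_zero, add_zero]

theorem not_good {a : ℕ → ℝ} {s : ℝ} {T : ℕ → ℝ} {n : ℕ} {t : ℝ} (h : ¬ Good a s T n t) :
    ∃ k, k < n ∧ |el a s n k t * el a s n (k + 1) t| < T k := by
  unfold Good at h
  push Not at h
  exact h

theorem chi_not_good {a T : ℕ → ℝ} {s : ℝ} (hT : ∀ k, 16 ≤ T k) {n : ℕ} {t : ℝ}
    (h : ¬ Good a s T n t) : chi a T s n n t = 0 ∧ chi' a T s n n t = 0 := by
  obtain ⟨k, hk, h1⟩ := not_good h
  exact chi_bad hT hk h1

theorem chi'_le {a T : ℕ → ℝ} {s : ℝ} (hT : ∀ k, 16 ≤ T k) (hTm : ∀ k, T k ≤ T (k + 1)) {q : ℝ}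
    (hq : 1 ≤ q) (hqT : ∀ k, q ^ 2 ≤ 9 / 16 * T k) {n : ℕ} {t : ℝ} (hg : Good a s T n t) :
    ∀ m, m ≤ n → |chi' a T s n m t| ≤
      64 * KK * π ^ 2 * (∑ k ∈ Finset.range m, ck a T s n q k t) * |D a s (n + 1) t| := by
  have hK := KK_one
  intro m
  induction m with
  | zero => intro _; simp [chi']
  | succ m ih =>
    intro hm
    have h0 : 0 ≤ rk a T s n m t := rho_nonneg _
    have h1 : rk a T s n m t ≤ 1 := rho_le_one _
    have h2 := chi_mem a T s n m t
    have h3 := rk'_le hT hTm hq hqT hg (k := m) (by omega)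
    show |chi' a T s n m t * rk a T s n m t + chi a T s n m t * rk' a T s n m t| ≤ _
    rw [Finset.sum_range_succ, mul_add, add_mul]
    refine (abs_add_le _ _).trans (add_le_add ?_ ?_)
    · rw [abs_mul, abs_of_nonneg h0]
      calc |chi' a T s n m t| * rk a T s n m t ≤ |chi' a T s n m t| * 1 :=
            mul_le_mul_of_nonneg_left h1 (abs_nonneg _)
        _ ≤ _ := by rw [mul_one]; exact ih (by omega)
    · rw [abs_mul, abs_of_nonneg h2.1]
      calc chi a T s n m t * |rk' a T s n m t| ≤ 1 * |rk' a T s n m t| :=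
            mul_le_mul_of_nonneg_right h2.2 (abs_nonneg _)
        _ ≤ _ := by rw [one_mul]; exact h3

theorem one_sub_chi (a T : ℕ → ℝ) (s : ℝ) (n m : ℕ) (t : ℝ) :
    1 - chi a T s n m t ≤ ∑ k ∈ Finset.range m, (1 - rk a T s n k t) := by
  induction m with
  | zero => simp [chi]
  | succ m ih =>
    rw [Finset.sum_range_succ]
    have h0 : 0 ≤ rk a T s n m t := rho_nonneg _
    have h1 : rk a T s n m t ≤ 1 := rho_le_one _
    have h2 := chi_mem a T s n m t
    show 1 - chi a T s n m t * rk a T s n m t ≤ _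
    nlinarith

/-- the complement of the cutoff at a time -/
theorem one_sub_rho {T z : ℝ} (hT : 0 < T) : 1 - rho (z / T) ≤ 3 * (T ^ 2 / (z ^ 2 + T ^ 2)) := by
  by_cases h : 2 ≤ (z / T) ^ 2
  · rw [rho_one h, sub_self]
    positivity
  · rw [not_le, div_pow, div_lt_iff₀ (by positivity)] at h
    have h1 := rho_nonneg (z / T)
    have h2 : 1 ≤ 3 * (T ^ 2 / (z ^ 2 + T ^ 2)) := by
      rw [← mul_div_assoc, le_div_iff₀ (by positivity)]
      linarith
    linarith

end Pool.Agent.U785.ST
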