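import Mathlib
import Pool.Agent.U785.ST.Cut

set_option autoImplicit false

/-!
# Integration by parts
-/

namespace Pool.Agent.U785.ST

open Real MeasureTheory
open Pool.Agent.TH705.SM (L L_cont L_period KK KK_one)

theorem hh_cont {b τ : ℝ} (hτ : 0 < τ) {E : Type*} [TopologicalSpace E] {x y : E → ℝ}
    (hx : Continuous x) (hy : Continuous y) : Continuous (fun p => hh b τ (x p) (y p)) := by
  unfold hh
  refine Continuous.div (by fun_prop) (by fun_prop) fun p => ?_
  positivity

theorem ck2_cont {a T : ℕ → ℝ} (hT : ∀ k, 16 ≤ T k) {q : ℝ} (hq : 1 ≤ q) (n k : ℕ) :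
    Continuous (fun p : ℝ × ℝ => ck a T p.1 n q k p.2) := by
  have hTk : 0 < T k := by linarith [hT k]
  have h1 := el2_cont a n k
  have h2 := el2_cont a n (k + 1)
  have h3 := hh_cont (b := a k) hTk h1 h2
  have h4 := hh_cont (b := a (k + 1)) hTk h2 h1
  unfold ck
  by_cases h : k + 1 < n
  · simp only [if_pos h]
    exact (h3.div_const _).add (h4.div_const _)
  · simp only [if_neg h]
    exact (h3.div_const _).add continuous_const

theorem ck_cont {a T : ℕ → ℝ} (hT : ∀ k, 16 ≤ T k) (s : ℝ) {q : ℝ} (hq : 1 ≤ q) (n k : ℕ) :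
    Continuous (ck a T s n q k) := by
  have h1 := ck2_cont (a := a) hT hq n k
  have h2 : Continuous (fun t : ℝ => (s, t)) := by fun_prop
  have h3 := h1.comp h2
  exact h3

/-- the weight -/
noncomputable def W (a T : ℕ → ℝ) (s : ℝ) (n : ℕ) (P : ℝ → ℝ) (t : ℝ) : ℝ :=
  chi a T s n n t * P t / D a s (n + 1) t

/-- its derivative -/
noncomputable def W' (a T : ℕ → ℝ) (s : ℝ) (n : ℕ) (P P' : ℝ → ℝ) (t : ℝ) : ℝ :=
  (chi' a T s n n t * P t + chi a T s n n t * P' t) / D a s (n + 1) t -
    chi a T s n n t * P t * B a s (n + 1) t / D a s (n + 1) t ^ 2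

theorem W_hasDeriv {a T : ℕ → ℝ} {s : ℝ} (hT : ∀ k, 16 ≤ T k) (n : ℕ) {P P' : ℝ → ℝ}
    (hP : ∀ t, HasDerivAt P (P' t) t) (t : ℝ) :
    HasDerivAt (W a T s n P) (W' a T s n P P' t) t := by
  by_cases hD : D a s (n + 1) t = 0
  · have hbad : ¬ Good a s T n t := fun h => D_ne hT h n le_rfl hD
    obtain ⟨k, hk, h1⟩ := not_good hbad
    have hc : Continuous (fun t => |el a s n k t * el a s n (k + 1) t|) :=
      ((el_cont a s n k).mul (el_cont a s n (k + 1))).abs
    have h2 : ∀ᶠ u in nhds t, |el a s n k u * el a s n (k + 1) u| < T k :=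
      hc.continuousAt.eventually_lt_const h1
    have h3 : W a T s n P =ᶠ[nhds t] fun _ => 0 := by
      filter_upwards [h2] with u hu
      unfold W
      rw [(chi_bad hT hk hu).1, zero_mul, zero_div]
    have h4 : W' a T s n P P' t = 0 := by
      unfold W'
      rw [hD]
      simp
    rw [h4]
    exact (hasDerivAt_const t 0).congr_of_eventuallyEq h3
  · have h1 := ((chi_hasDeriv a T s n n t).mul (hP t)).div (D_hasDeriv a s (n + 1) t) hD
    refine HasDerivAt.congr_deriv (f := W a T s n P) h1 ?_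
    unfold W'
    rw [Pi.mul_apply]
    field_simp

theorem W'_le {a T : ℕ → ℝ} {s : ℝ} (hT : ∀ k, 16 ≤ T k) (hTm : ∀ k, T k ≤ T (k + 1)) {q : ℝ}
    (hq : 1 ≤ q) (hqT : ∀ k, q ^ 2 ≤ 9 / 16 * T k) {n : ℕ} {t : ℝ} {P P' : ℝ → ℝ} {g : ℝ}
    (hP : |P t| ≤ 1) (hg0 : 0 ≤ g) (hP' : Good a s T n t → |P' t| ≤ g * |D a s (n + 1) t|) :
    |W' a T s n P P' t| ≤
      82 * KK * π ^ 2 * (∑ k ∈ Finset.range n, ck a T s n q k t) + g := by
  have hK := KK_one
  have hc0 : 0 ≤ ∑ k ∈ Finset.range n, ck a T s n q k t :=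
    Finset.sum_nonneg fun k _ => ck_nonneg hq k t
  by_cases hg : Good a s T n t
  · have hD := D_ne hT hg n le_rfl
    have hD0 : 0 < |D a s (n + 1) t| := abs_pos.2 hD
    have h3 := chi'_le hT hTm hq hqT hg n le_rfl
    have h4 := chi_mem a T s n n t
    have h5 := B_le hT hg
    have h6 := hP' hg
    set S := ∑ k ∈ Finset.range n, ck a T s n q k t with hS
    have h7 : |(chi' a T s n n t * P t + chi a T s n n t * P' t) / D a s (n + 1) t| ≤
        64 * KK * π ^ 2 * S + g := by
      rw [abs_div, div_le_iff₀ hD0, add_mul]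
      refine (abs_add_le _ _).trans (add_le_add ?_ ?_)
      · rw [abs_mul]
        calc |chi' a T s n n t| * |P t| ≤ |chi' a T s n n t| * 1 :=
              mul_le_mul_of_nonneg_left hP (abs_nonneg _)
          _ ≤ _ := by rw [mul_one]; exact h3
      · rw [abs_mul, abs_of_nonneg h4.1]
        calc chi a T s n n t * |P' t| ≤ 1 * |P' t| :=
              mul_le_mul_of_nonneg_right h4.2 (abs_nonneg _)
          _ ≤ _ := by rw [one_mul]; exact h6
    have h8 : |chi a T s n n t * P t * B a s (n + 1) t / D a s (n + 1) t ^ 2| ≤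
        18 * KK * π ^ 2 * S := by
      have e : chi a T s n n t * P t * B a s (n + 1) t / D a s (n + 1) t ^ 2 =
        chi a T s n n t * P t * (B a s (n + 1) t / D a s (n + 1) t ^ 2) := by ring
      rw [e, abs_mul, abs_mul, abs_of_nonneg h4.1]
      have h9 : chi a T s n n t * |P t| ≤ 1 := mul_le_one₀ h4.2 (abs_nonneg _) hP
      have h10 : ∑ j ∈ Finset.range n, et a s j t / |D a s (n + 1) t| ≤ 16 * π ^ 2 * S := by
        rw [hS, Finset.mul_sum]
        apply Finset.sum_le_sum
        intro k hk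
        rw [Finset.mem_range] at hk
        refine (et_le hT hq hqT hg hk).trans ?_
        exact mul_le_mul_of_nonneg_left (ck_ge hq k t) (by positivity)
      calc chi a T s n n t * |P t| * |B a s (n + 1) t / D a s (n + 1) t ^ 2| ≤
            1 * |B a s (n + 1) t / D a s (n + 1) t ^ 2| :=
            mul_le_mul_of_nonneg_right h9 (abs_nonneg _)
        _ ≤ 11 / 10 * (16 * π ^ 2 * S) := by
            rw [one_mul]
            exact h5.trans (mul_le_mul_of_nonneg_left h10 (by norm_num))
        _ ≤ 18 * KK * π ^ 2 * S := by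
            have : 0 ≤ π ^ 2 * S := by positivity
            nlinarith
    unfold W'
    refine (abs_sub _ _).trans ((add_le_add h7 h8).trans (le_of_eq ?_))
    ring
  · obtain ⟨h1, h2⟩ := chi_not_good hT hg
    unfold W'
    rw [h1, h2]
    simp only [zero_mul, add_zero, zero_div, sub_zero, abs_zero]
    positivity

/-- the last quotient -/
theorem D_last {a T : ℕ → ℝ} {s : ℝ} (hT : ∀ k, 16 ≤ T k) {n : ℕ} (hn : 1 ≤ n) {t : ℝ}
    (hg : Good a s T n t) : |D a s n t| ≤ 12 / 11 / T (n - 1) * |D a s (n + 1) t| := by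
  obtain ⟨m, rfl⟩ := Nat.exists_eq_add_of_le' hn
  have h1 := D_low hT hg (k := m) (by omega)
  have h2 := hg m (by omega)
  rw [el_lt a s (by omega : m < m + 1), el_ge a s (by omega : m + 1 ≤ m + 1), mul_one] at h2
  rw [Nat.add_sub_cancel]
  have hTm : 0 < T m := by linarith [hT m]
  rw [div_mul_eq_mul_div, le_div_iff₀ hTm]
  have h3 : T m * |D a s (m + 1) t| ≤
      |L (a m) (X a s (m + 1) t)| * |D a s (m + 1) t| :=
    mul_le_mul_of_nonneg_right h2 (abs_nonneg _)
  linarith

/-- **integration by parts** -/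
theorem ibp {a T : ℕ → ℝ} {s : ℝ} (hT : ∀ k, 16 ≤ T k) (hTm : ∀ k, T k ≤ T (k + 1)) {q : ℝ}
    (hq : 1 ≤ q) (hqT : ∀ k, q ^ 2 ≤ 9 / 16 * T k) {n : ℕ} (hn : 1 ≤ n) {P P' : ℝ → ℝ} {g : ℝ}
    (hP : ∀ t, HasDerivAt P (P' t) t) (hP'c : Continuous P') (hP1 : ∀ t, |P t| ≤ 1)
    (hPp : P 1 = P 0) (hg0 : 0 ≤ g)
    (hP' : ∀ t, Good a s T n t → |P' t| ≤ g * |D a s (n + 1) t|)
    {H h r : ℝ → ℝ} (hH : ∀ t, HasDerivAt H (h t * D a s (n + 1) t + r t * D a s n t) t)
    (hhc : Continuous h) (hrc : Continuous r) (hHp : H 1 = H 0) (hH1 : ∀ t, |H t| ≤ 1) {R : ℝ}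
    (hr1 : ∀ t, |r t| ≤ R) :
    |∫ t in (0:ℝ)..1, chi a T s n n t * P t * h t| ≤
      82 * KK * π ^ 2 * (∑ k ∈ Finset.range n, ∫ t in (0:ℝ)..1, ck a T s n q k t) + g +
        R * (12 / 11 / T (n - 1)) := by
  have hK := KK_one
  have hR : 0 ≤ R := (abs_nonneg _).trans (hr1 0)
  have hTn : 0 < T (n - 1) := by linarith [hT (n - 1)]
  set F : ℝ → ℝ := fun t => W a T s n P t * H t with hF
  set f : ℝ → ℝ := fun t => W' a T s n P P' t * H t + W a T s n P t * (r t * D a s n t) with hf
  set f2 : ℝ → ℝ := fun t => chi a T s n n t * P t * h t with hf2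
  have hPc : Continuous P := continuous_iff_continuousAt.2 fun t => (hP t).continuousAt
  have hHc : Continuous H := continuous_iff_continuousAt.2 fun t => (hH t).continuousAt
  have hFd : ∀ t, HasDerivAt F (f t + f2 t) t := by
    intro t
    have h1 := (W_hasDeriv (a := a) (s := s) hT n hP t).mul (hH t)
    refine HasDerivAt.congr_deriv (f := F) h1 ?_
    have e : W a T s n P t * D a s (n + 1) t = chi a T s n n t * P t := by
      unfold W
      by_cases hgd : Good a s T n t
      · exact div_mul_cancel₀ _ (D_ne hT hgd n le_rfl)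
      · rw [(chi_not_good hT hgd).1]
        simp
    rw [hf, hf2]
    simp only
    rw [← e]
    ring
  have hW'm : Measurable (W' a T s n P P') := by
    have c1 := (chi'_cont a T s n n).measurable
    have c2 := (chi_cont a T s n n).measurable
    have c3 := hPc.measurable
    have c4 := hP'c.measurable
    have c5 := (D_cont a s (n + 1)).measurable
    have c6 := (B_cont a s (n + 1)).measurable
    unfold W'
    exact (((c1.mul c3).add (c2.mul c4)).div c5).sub (((c2.mul c3).mul c6).div (c5.pow_const 2))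
  have hWm : Measurable (W a T s n P) := by
    have c2 := (chi_cont a T s n n).measurable
    have c3 := hPc.measurable
    have c5 := (D_cont a s (n + 1)).measurable
    unfold W
    exact (c2.mul c3).div c5
  have hfm : Measurable f :=
    (hW'm.mul hHc.measurable).add (hWm.mul (hrc.measurable.mul (D_cont a s n).measurable))
  have hf2c : Continuous f2 := ((chi_cont a T s n n).mul hPc).mul hhc
  set bd : ℝ → ℝ := fun t => 82 * KK * π ^ 2 * (∑ k ∈ Finset.range n, ck a T s n q k t) + g +
    R * (12 / 11 / T (n - 1)) with hbd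
  have hSc : Continuous (fun t => ∑ k ∈ Finset.range n, ck a T s n q k t) :=
    continuous_finset_sum _ fun k _ => ck_cont hT s hq n k
  have hbdc : Continuous bd := by
    rw [hbd]
    exact ((hSc.const_mul _).add continuous_const).add continuous_const
  have hfb : ∀ t, |f t| ≤ bd t := by
    intro t
    rw [hf]
    simp only
    refine (abs_add_le _ _).trans (add_le_add ?_ ?_)
    · rw [abs_mul]
      have h1 := W'_le (a := a) (s := s) hT hTm hq hqT (hP1 t) hg0 (hP' t)
      calc |W' a T s n P P' t| * |H t| ≤ |W' a T s n P P' t| * 1 :=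
            mul_le_mul_of_nonneg_left (hH1 _) (abs_nonneg _)
        _ ≤ _ := by rw [mul_one]; exact h1
    · by_cases hgd : Good a s T n t
      · have hD := D_ne hT hgd n le_rfl
        have hD0 : 0 < |D a s (n + 1) t| := abs_pos.2 hD
        have h4 := chi_mem a T s n n t
        have h5 := D_last hT hn hgd
        have e : W a T s n P t * (r t * D a s n t) =
          chi a T s n n t * P t * r t * (D a s n t / D a s (n + 1) t) := by
          unfold W
          ring
        rw [e, abs_mul, abs_mul, abs_mul, abs_of_nonneg h4.1]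
        have h6 : |D a s n t / D a s (n + 1) t| ≤ 12 / 11 / T (n - 1) := by
          rw [abs_div, div_le_iff₀ hD0]
          exact h5
        have h9 : chi a T s n n t * |P t| ≤ 1 := mul_le_one₀ h4.2 (abs_nonneg _) (hP1 t)
        have h10 : chi a T s n n t * |P t| * |r t| ≤ R := by
          calc _ ≤ 1 * |r t| := mul_le_mul_of_nonneg_right h9 (abs_nonneg _)
            _ ≤ R := by rw [one_mul]; exact hr1 t
        exact mul_le_mul h10 h6 (abs_nonneg _) hR
      · have : W a T s n P t = 0 := by
          unfold W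
          rw [(chi_not_good hT hgd).1, zero_mul, zero_div]
        rw [this, zero_mul, abs_zero]
        positivity
  have hfi : IntervalIntegrable f volume 0 1 :=
    (hbdc.intervalIntegrable 0 1).mono_fun hfm.aestronglyMeasurable
      (Filter.Eventually.of_forall fun t => by
        show ‖f t‖ ≤ ‖bd t‖
        rw [norm_eq_abs, norm_eq_abs]
        exact (hfb t).trans (le_abs_self _))
  have hf2i : IntervalIntegrable f2 volume 0 1 := hf2c.intervalIntegrable 0 1
  have hFTC := intervalIntegral.integral_eq_sub_of_hasDerivAt (fun t _ => hFd t)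
    (hfi.add hf2i)
  have hper : F 1 = F 0 := by
    rw [hF]
    simp only
    have e1 : W a T s n P 1 = W a T s n P 0 := by
      unfold W
      have h1 := chi_period a T s n n 0
      have h3 := D_period a s (n + 1) 0
      rw [zero_add] at h1 h3
      rw [h1, hPp, h3]
    rw [e1, hHp]
  rw [hper, sub_self, intervalIntegral.integral_add hfi hf2i] at hFTC
  have h2 : ∫ t in (0:ℝ)..1, f2 t = -∫ t in (0:ℝ)..1, f t := by linarith
  have h3 : |∫ t in (0:ℝ)..1, f2 t| ≤ ∫ t in (0:ℝ)..1, bd t := by
    rw [h2, abs_neg]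
    have h4 : ‖∫ t in (0:ℝ)..1, f t‖ ≤ |∫ t in (0:ℝ)..1, bd t| :=
      intervalIntegral.norm_integral_le_abs_of_norm_le
        (Filter.Eventually.of_forall fun t => hfb t) (hbdc.intervalIntegrable 0 1)
    rw [norm_eq_abs] at h4
    have h5 : 0 ≤ ∫ t in (0:ℝ)..1, bd t :=
      intervalIntegral.integral_nonneg zero_le_one fun t _ => (abs_nonneg _).trans (hfb t)
    rwa [abs_of_nonneg h5] at h4
  refine h3.trans (le_of_eq ?_)
  have i1 : IntervalIntegrable (fun t => 82 * KK * π ^ 2 *
      (∑ k ∈ Finset.range n, ck a T s n q k t)) volume 0 1 :=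
    (hSc.const_mul _).intervalIntegrable 0 1
  have i2 : ∀ c : ℝ, IntervalIntegrable (fun _ : ℝ => c) volume 0 1 := fun c =>
    continuous_const.intervalIntegrable 0 1
  rw [hbd]
  rw [intervalIntegral.integral_add (i1.add (i2 _)) (i2 _), intervalIntegral.integral_add i1 (i2 _),
    intervalIntegral.integral_const_mul, intervalIntegral.integral_finset_sum
      (fun k _ => (ck_cont hT s hq n k).intervalIntegrable 0 1)]
  simp

end Pool.Agent.U785.ST
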