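import Mathlib
import Pool.Agent.Y332.SM.Meas

set_option autoImplicit false

/-!
# Integrals of functions of the derivative of the one-dimensional map
-/

namespace Pool.Agent.U785.ST

open Real MeasureTheory
open Pool.Agent.TH705.SM (L L_cont L_period)

/-- the zero of `L b` in `(0, 1/2)` -/
noncomputable def x0 (b : ℝ) : ℝ := arccos (-1 / (π * b)) / (2 * π)

theorem c_abs {b : ℝ} (hb : 1 ≤ |b|) : |-1 / (π * b)| ≤ 1 / π := by
  have hpi := pi_pos
  rw [abs_div, abs_neg, abs_one, abs_mul, abs_of_pos hpi]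
  apply div_le_div_of_nonneg_left zero_le_one hpi
  nlinarith

theorem x0_mem (b : ℝ) : 0 ≤ x0 b ∧ x0 b ≤ 1 / 2 := by
  have hpi := pi_pos
  unfold x0
  constructor
  · exact div_nonneg (arccos_nonneg _) (by positivity)
  · rw [div_le_iff₀ (by positivity)]
    have := arccos_le_pi (-1 / (π * b))
    linarith

theorem L_fac {b : ℝ} (hb : 1 ≤ |b|) (x : ℝ) :
    L b x = -4 * π * b * (sin (π * (x + x0 b)) * sin (π * (x - x0 b))) := by
  have hpi := pi_pos
  have hb0 : b ≠ 0 := by
    rintro rfl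
    rw [abs_zero] at hb
    linarith
  have h1 := c_abs hb
  rw [abs_le] at h1
  have h2 : 1 / π ≤ 1 := by
    rw [div_le_one hpi]
    linarith [pi_gt_three]
  have h3 : cos (2 * π * x0 b) = -1 / (π * b) := by
    unfold x0
    have e : 2 * π * (arccos (-1 / (π * b)) / (2 * π)) = arccos (-1 / (π * b)) := by
      field_simp
    rw [e]
    exact cos_arccos (by linarith) (by linarith)
  have h4 : cos (2 * π * x) - cos (2 * π * x0 b) =
      -2 * sin ((2 * π * x + 2 * π * x0 b) / 2) * sin ((2 * π * x - 2 * π * x0 b) / 2) :=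
    cos_sub_cos _ _
  have e1 : (2 * π * x + 2 * π * x0 b) / 2 = π * (x + x0 b) := by ring
  have e2 : (2 * π * x - 2 * π * x0 b) / 2 = π * (x - x0 b) := by ring
  rw [e1, e2, h3] at h4
  unfold L
  have h5 : cos (2 * π * x) = -1 / (π * b) +
      -2 * sin (π * (x + x0 b)) * sin (π * (x - x0 b)) := by linarith
  rw [h5]
  field_simp
  ring

theorem sin_half {b : ℝ} (hb : 1 ≤ |b|) : 1 / 2 ≤ sin (π * x0 b) ∧ 1 / 2 ≤ cos (π * x0 b) := by
  have hpi := pi_pos
  have hpi3 := pi_gt_three
  have h1 := c_abs hb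
  rw [abs_le] at h1
  have h2 : 1 / π ≤ 1 / 3 := by
    apply div_le_div_of_nonneg_left zero_le_one (by norm_num) hpi3.le
  have h3 : cos (2 * (π * x0 b)) = -1 / (π * b) := by
    unfold x0
    have e : 2 * (π * (arccos (-1 / (π * b)) / (2 * π))) = arccos (-1 / (π * b)) := by
      field_simp
    rw [e]
    exact cos_arccos (by linarith) (by linarith)
  have hx := x0_mem b
  have hs : 0 ≤ sin (π * x0 b) := sin_nonneg_of_nonneg_of_le_pi (by nlinarith) (by nlinarith)
  have hc : 0 ≤ cos (π * x0 b) := cos_nonneg_of_neg_pi_div_two_le_of_le (by nlinarith) (by nlinarith)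
  have h4 := cos_two_mul (π * x0 b)
  have h5 := sin_sq_add_cos_sq (π * x0 b)
  constructor
  · by_contra hcon
    rw [not_le] at hcon
    nlinarith
  · by_contra hcon
    rw [not_le] at hcon
    nlinarith

theorem L_ge {b : ℝ} (hb : 1 ≤ |b|) {x : ℝ} (hx0 : 0 ≤ x) (hx1 : x ≤ 1 / 2) :
    4 * π * |b| * |x - x0 b| ≤ |L b x| := by
  have hpi := pi_pos
  have hm := x0_mem b
  obtain ⟨h1, h2⟩ := sin_half hb
  have hcx : 0 ≤ cos (π * x) := cos_nonneg_of_neg_pi_div_two_le_of_le (by nlinarith) (by nlinarith)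
  have hsx : 0 ≤ sin (π * x) := sin_nonneg_of_nonneg_of_le_pi (by nlinarith) (by nlinarith)
  have h3 : 1 / 2 ≤ sin (π * (x + x0 b)) := by
    have e : π * (x + x0 b) = π * x + π * x0 b := by ring
    rw [e, sin_add]
    have h4 := sin_sq_add_cos_sq (π * x)
    have h5 : 1 ≤ sin (π * x) + cos (π * x) := by
      by_contra hcon
      rw [not_le] at hcon
      nlinarith [mul_nonneg hsx hcx]
    nlinarith
  have h4 : 2 * |x - x0 b| ≤ |sin (π * (x - x0 b))| := by
    have h5 : |π * (x - x0 b)| ≤ π / 2 := by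
      rw [abs_mul, abs_of_pos hpi]
      have : |x - x0 b| ≤ 1 / 2 := by
        rw [abs_le]
        constructor <;> linarith
      nlinarith
    have h6 := mul_abs_le_abs_sin h5
    rw [abs_mul, abs_of_pos hpi] at h6
    have e : 2 / π * (π * |x - x0 b|) = 2 * |x - x0 b| := by
      field_simp
    rwa [e] at h6
  rw [L_fac hb, abs_mul, abs_mul, abs_mul, abs_mul, abs_neg, abs_of_pos (by norm_num : (0:ℝ) < 4),
    abs_of_pos hpi, abs_of_pos (by linarith : 0 < sin (π * (x + x0 b)))]
  apply mul_le_mul_of_nonneg_left _ (by positivity)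
  have h7 := abs_nonneg (sin (π * (x - x0 b)))
  nlinarith

theorem L_one_sub (b x : ℝ) : L b (1 - x) = L b x := by
  unfold L
  have e : 2 * π * (1 - x) = 2 * π - 2 * π * x := by ring
  rw [e, cos_two_pi_sub]

/-- **the comparison** -/
theorem int_L_le {b : ℝ} (hb : 1 ≤ |b|) {φ : ℝ → ℝ} (hφc : Continuous φ)
    (hφ : ∀ x y, 0 ≤ x → x ≤ y → φ y ≤ φ x) (h0 : ∀ y, 0 ≤ y → 0 ≤ φ y) :
    ∫ x in (0:ℝ)..1, φ |L b x| ≤ 4 * ∫ u in (0:ℝ)..(1 / 2), φ (4 * π * |b| * u) := by
  have hpi := pi_pos
  have hm := x0_mem b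
  have hc : Continuous (fun x => φ |L b x|) := hφc.comp (L_cont b).abs
  have hi : ∀ c d : ℝ, IntervalIntegrable (fun x => φ |L b x|) volume c d :=
    fun c d => hc.intervalIntegrable c d
  have h1 : ∫ x in (1 / 2 : ℝ)..1, φ |L b x| = ∫ x in (0:ℝ)..(1 / 2), φ |L b x| := by
    have h2 := intervalIntegral.integral_comp_sub_left (a := 0) (b := 1 / 2)
      (fun x => φ |L b x|) 1
    simp only [L_one_sub] at h2
    rw [h2]
    norm_num
  rw [← intervalIntegral.integral_add_adjacent_intervals (hi 0 (1 / 2)) (hi (1 / 2) 1), h1]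
  set κ : ℝ := 4 * π * |b| with hκ
  have hκ0 : 0 ≤ κ := by positivity
  have hc2 : Continuous (fun x => φ (κ * |x - x0 b|)) := by fun_prop
  have hc3 : Continuous (fun u => φ (κ * u)) := by fun_prop
  have h3 : ∫ x in (0:ℝ)..(1 / 2), φ |L b x| ≤ ∫ x in (0:ℝ)..(1 / 2), φ (κ * |x - x0 b|) := by
    apply intervalIntegral.integral_mono_on (by norm_num) (hi _ _) (hc2.intervalIntegrable _ _)
    intro x hx
    exact hφ _ _ (by positivity) (L_ge hb hx.1 hx.2)
  have h4 : ∫ x in (0:ℝ)..(x0 b), φ (κ * |x - x0 b|) = ∫ u in (0:ℝ)..(x0 b), φ (κ * u) := by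
    have h5 := intervalIntegral.integral_comp_sub_left (a := 0) (b := x0 b)
      (fun u => φ (κ * u)) (x0 b)
    rw [sub_zero, sub_self] at h5
    rw [← h5]
    apply intervalIntegral.integral_congr
    intro x hx
    rw [Set.uIcc_of_le hm.1] at hx
    simp only
    rw [abs_of_nonpos (by linarith [hx.2]), neg_sub]
  have h5 : ∫ x in (x0 b)..(1 / 2), φ (κ * |x - x0 b|) =
      ∫ u in (0:ℝ)..(1 / 2 - x0 b), φ (κ * u) := by
    have h6 := intervalIntegral.integral_comp_sub_right (a := x0 b) (b := 1 / 2)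
      (fun u => φ (κ * u)) (x0 b)
    rw [sub_self] at h6
    rw [← h6]
    apply intervalIntegral.integral_congr
    intro x hx
    rw [Set.uIcc_of_le hm.2] at hx
    simp only
    rw [abs_of_nonneg (by linarith [hx.1])]
  have hle : ∀ d : ℝ, 0 ≤ d → d ≤ 1 / 2 →
      ∫ u in (0:ℝ)..d, φ (κ * u) ≤ ∫ u in (0:ℝ)..(1 / 2), φ (κ * u) := by
    intro d hd0 hd
    rw [← intervalIntegral.integral_add_adjacent_intervals (hc3.intervalIntegrable 0 d)
      (hc3.intervalIntegrable d (1 / 2))]
    have : 0 ≤ ∫ u in d..(1 / 2), φ (κ * u) := by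
      apply intervalIntegral.integral_nonneg hd
      intro u hu
      exact h0 _ (mul_nonneg hκ0 (hd0.trans hu.1))
    linarith
  have h6 : ∫ x in (0:ℝ)..(1 / 2), φ (κ * |x - x0 b|) ≤
      2 * ∫ u in (0:ℝ)..(1 / 2), φ (κ * u) := by
    rw [← intervalIntegral.integral_add_adjacent_intervals (hc2.intervalIntegrable 0 (x0 b))
      (hc2.intervalIntegrable (x0 b) (1 / 2)), h4, h5]
    have h7 := hle (x0 b) hm.1 hm.2
    have h8 := hle (1 / 2 - x0 b) (by linarith) (by linarith)
    linarith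
  linarith

/-- the Cauchy integral -/
theorem int_cauchy {b : ℝ} (hb : 1 ≤ |b|) {r : ℝ} (hr : 0 < r) :
    ∫ x in (0:ℝ)..1, 1 / (L b x ^ 2 + r ^ 2) ≤ 1 / (2 * |b| * r) := by
  have hpi := pi_pos
  have hb0 : 0 < |b| := by linarith
  have hφc : Continuous (fun y : ℝ => 1 / (y ^ 2 + r ^ 2)) :=
    Continuous.div continuous_const (by fun_prop) fun y => by positivity
  have h1 := int_L_le hb hφc (fun x y hx hxy => by
    apply one_div_le_one_div_of_le (by positivity)
    have := pow_le_pow_left₀ hx hxy 2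
    linarith) (fun y _ => by positivity)
  simp only [sq_abs] at h1
  refine h1.trans ?_
  set κ : ℝ := 4 * π * |b| with hκ
  have hκ0 : 0 < κ := by positivity
  have h2 : ∫ u in (0:ℝ)..(1 / 2), 1 / ((κ * u) ^ 2 + r ^ 2) =
      1 / (κ * r) * arctan (κ * (1 / 2) / r) - 1 / (κ * r) * arctan (κ * 0 / r) := by
    apply intervalIntegral.integral_eq_sub_of_hasDerivAt
      (f := fun u => 1 / (κ * r) * arctan (κ * u / r))
    · intro u _
      have h3 := ((((hasDerivAt_id u).const_mul κ).div_const r).arctan).const_mul (1 / (κ * r))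
      refine HasDerivAt.congr_deriv h3 ?_
      simp only [id, mul_one]
      field_simp
      ring
    · apply Continuous.intervalIntegrable
      exact Continuous.div continuous_const (by fun_prop) fun y => by positivity
  rw [h2]
  have h3 := arctan_lt_pi_div_two (κ * (1 / 2) / r)
  have h4 : arctan (κ * 0 / r) = 0 := by simp
  rw [h4, mul_zero, sub_zero]
  calc 4 * (1 / (κ * r) * arctan (κ * (1 / 2) / r)) ≤ 4 * (1 / (κ * r) * (π / 2)) := by
        gcongr
    _ = _ := by
        rw [hκ]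
        field_simp

/-- the logarithmic integral -/
theorem int_log {b : ℝ} (hb : 1 ≤ |b|) {c : ℝ} (hc : 0 < c) :
    ∫ x in (0:ℝ)..1, 2 * c / (max |L b x| 0 + c) ≤
      2 * c / (π * |b|) * log (1 + 2 * π * |b| / c) := by
  have hpi := pi_pos
  have hb0 : 0 < |b| := by linarith
  have hφc : Continuous (fun y : ℝ => 2 * c / (max y 0 + c)) :=
    Continuous.div continuous_const (by fun_prop) fun y => by
      have := le_max_right y 0
      positivity
  have h1 := int_L_le hb hφc (fun x y hx hxy => by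
    apply div_le_div_of_nonneg_left (by positivity) (by positivity)
    have := max_le_max_right 0 hxy
    linarith) (fun y _ => by positivity)
  refine h1.trans ?_
  set κ : ℝ := 4 * π * |b| with hκ
  have hκ0 : 0 < κ := by positivity
  have h2 : ∫ u in (0:ℝ)..(1 / 2), 2 * c / (max (κ * u) 0 + c) =
      2 * c / κ * log (κ * (1 / 2) + c) - 2 * c / κ * log (κ * 0 + c) := by
    have e : ∫ u in (0:ℝ)..(1 / 2), 2 * c / (max (κ * u) 0 + c) =
        ∫ u in (0:ℝ)..(1 / 2), 2 * c / (κ * u + c) := by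
      apply intervalIntegral.integral_congr
      intro u hu
      rw [Set.uIcc_of_le (by norm_num)] at hu
      simp only
      rw [max_eq_left (mul_nonneg hκ0.le hu.1)]
    rw [e]
    apply intervalIntegral.integral_eq_sub_of_hasDerivAt
      (f := fun u => 2 * c / κ * log (κ * u + c))
    · intro u hu
      rw [Set.uIcc_of_le (by norm_num)] at hu
      have hne : κ * u + c ≠ 0 := by
        have := mul_nonneg hκ0.le hu.1
        positivity
      have h3 := (((((hasDerivAt_id u).const_mul κ).add_const c).log) hne).const_mul (2 * c / κ)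
      refine HasDerivAt.congr_deriv h3 ?_
      simp only [id, mul_one]
      field_simp
    · apply ContinuousOn.intervalIntegrable
      apply ContinuousOn.div continuousOn_const (by fun_prop)
      intro u hu
      rw [Set.uIcc_of_le (by norm_num)] at hu
      have := mul_nonneg hκ0.le hu.1
      positivity
  rw [h2, mul_zero, zero_add, ← mul_sub, ← log_div (by positivity) (by positivity)]
  have e : (κ * (1 / 2) + c) / c = 1 + 2 * π * |b| / c := by
    rw [hκ]
    field_simp
    ring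
  rw [e, hκ]
  apply le_of_eq
  field_simp

/-- the integral of `hh` over the variable factor -/
theorem int_hh {b : ℝ} (hb : 1 ≤ |b|) {τ : ℝ} (hτ : 0 < τ) (y : ℝ) :
    ∫ x in (0:ℝ)..1, |b| * |y| / ((L b x * y) ^ 2 + τ ^ 2) ≤ 1 / (2 * τ) := by
  by_cases hy : y = 0
  · rw [hy]
    simp only [abs_zero, mul_zero, zero_div, intervalIntegral.integral_zero]
    positivity
  · have hy0 : 0 < |y| := abs_pos.2 hy
    have hb0 : 0 < |b| := by linarith
    have h1 := int_cauchy hb (div_pos hτ hy0)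
    have e : (fun x => |b| * |y| / ((L b x * y) ^ 2 + τ ^ 2)) =
        fun x => |b| / |y| * (1 / (L b x ^ 2 + (τ / |y|) ^ 2)) := by
      funext x
      have hy2 : y ^ 2 = |y| ^ 2 := (sq_abs y).symm
      rw [mul_pow, hy2]
      have hp : 0 < L b x ^ 2 * |y| ^ 2 + τ ^ 2 := by positivity
      field_simp
    rw [e, intervalIntegral.integral_const_mul]
    calc |b| / |y| * ∫ x in (0:ℝ)..1, 1 / (L b x ^ 2 + (τ / |y|) ^ 2) ≤
          |b| / |y| * (1 / (2 * |b| * (τ / |y|))) := by gcongr
      _ = _ := by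
          field_simp

/-- one bad factor -/
theorem int_bad1 {b : ℝ} (hb : 1 ≤ |b|) {τ : ℝ} (hτ : 0 < τ) (y : ℝ) :
    ∫ x in (0:ℝ)..1, τ ^ 2 / ((L b x * y) ^ 2 + τ ^ 2) ≤
      2 * (τ / (2 * |b|)) / (max |y| 0 + τ / (2 * |b|)) := by
  have hb0 : 0 < |b| := by linarith
  have hc : Continuous (fun x => τ ^ 2 / ((L b x * y) ^ 2 + τ ^ 2)) := by
    have := L_cont b
    exact Continuous.div continuous_const (by fun_prop) fun x => by positivity
  rw [max_eq_left (abs_nonneg y)]
  have h1 : ∫ x in (0:ℝ)..1, τ ^ 2 / ((L b x * y) ^ 2 + τ ^ 2) ≤ 1 := by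
    have h2 : ∫ x in (0:ℝ)..1, τ ^ 2 / ((L b x * y) ^ 2 + τ ^ 2) ≤ ∫ x in (0:ℝ)..1, (1:ℝ) := by
      apply intervalIntegral.integral_mono_on zero_le_one (hc.intervalIntegrable _ _)
        (continuous_const.intervalIntegrable _ _)
      intro x _
      rw [div_le_one (by positivity)]
      have := sq_nonneg (L b x * y)
      linarith
    simpa using h2
  by_cases hy : y = 0
  · subst hy
    refine h1.trans ?_
    rw [abs_zero, zero_add, le_div_iff₀ (by positivity)]
    have : 0 < τ / (2 * |b|) := by positivity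
    linarith
  · have hy0 : 0 < |y| := abs_pos.2 hy
    have h3 := int_hh hb hτ y
    have e : (fun x => |b| * |y| / ((L b x * y) ^ 2 + τ ^ 2)) =
        fun x => |b| * |y| / τ ^ 2 * (τ ^ 2 / ((L b x * y) ^ 2 + τ ^ 2)) := by
      funext x
      have hp : 0 < (L b x * y) ^ 2 + τ ^ 2 := by positivity
      field_simp
    rw [e, intervalIntegral.integral_const_mul] at h3
    set I := ∫ x in (0:ℝ)..1, τ ^ 2 / ((L b x * y) ^ 2 + τ ^ 2)
    have h4 : I * |y| ≤ τ / (2 * |b|) := by
      have e2 : I * |y| = τ ^ 2 / |b| * (|b| * |y| / τ ^ 2 * I) := by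
        field_simp
      rw [e2]
      calc τ ^ 2 / |b| * (|b| * |y| / τ ^ 2 * I) ≤ τ ^ 2 / |b| * (1 / (2 * τ)) := by gcongr
        _ = _ := by
          field_simp
    have h5 : I * (τ / (2 * |b|)) ≤ τ / (2 * |b|) := by
      have : 0 < τ / (2 * |b|) := by positivity
      nlinarith
    rw [le_div_iff₀ (by positivity)]
    linarith

end Pool.Agent.U785.ST
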