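import Mathlib
import Pool.Agent.U785.ST.Ibp
import Pool.Agent.U785.ST.OneD

set_option autoImplicit false

/-!
# Expectations
-/

namespace Pool.Agent.U785.ST

open Real MeasureTheory
open Pool.Agent.TH705.SM (L L_cont L_period T2 S S_mp S_cont S_coe int_T2 integrable_cont)
open Pool.Agent.Y332.SM (Lc Lc_coe Lc_cont)

/-- the composition of the first `k` maps -/
noncomputable def Fs (a : ℕ → ℝ) : ℕ → T2 → T2
  | 0 => id
  | k + 1 => S (a k) ∘ Fs a k

theorem Fs_mp (a : ℕ → ℝ) (k : ℕ) : MeasurePreserving (Fs a k) volume volume := by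
  induction k with
  | zero => exact MeasurePreserving.id _
  | succ k ih => exact (S_mp (a k)).comp ih

theorem Fs_cont (a : ℕ → ℝ) (k : ℕ) : Continuous (Fs a k) := by
  induction k with
  | zero => exact continuous_id
  | succ k ih => exact (S_cont (a k)).comp ih

theorem Fs_coe (a : ℕ → ℝ) (s t : ℝ) (k : ℕ) :
    Fs a k ((t : UnitAddCircle), (s : UnitAddCircle)) =
      ((X a s (k + 1) t : UnitAddCircle), (X a s k t : UnitAddCircle)) := by
  induction k with
  | zero => rfl
  | succ k ih =>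
    show S (a k) (Fs a k _) = _
    rw [ih, S_coe]
    rfl

theorem int_Fs (a : ℕ → ℝ) (k : ℕ) {Φ : T2 → ℝ} (hΦ : Continuous Φ) :
    ∫ p, Φ (Fs a k p) = ∫ p, Φ p := by
  have h4 := (Fs_mp a k).map_eq
  calc ∫ p, Φ (Fs a k p) = ∫ p, Φ p ∂(Measure.map (Fs a k) volume) := by
        rw [integral_map (Fs_mp a k).measurable.aemeasurable hΦ.aestronglyMeasurable]
    _ = _ := by rw [h4]

/-- the orbit is distributed uniformly at each time -/
theorem inv (a : ℕ → ℝ) (k : ℕ) {Φ : T2 → ℝ} (hΦ : Continuous Φ) :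
    ∫ s in (0:ℝ)..1, ∫ t in (0:ℝ)..1,
      Φ ((X a s (k + 1) t : UnitAddCircle), (X a s k t : UnitAddCircle)) = ∫ p, Φ p := by
  have h1 := int_T2 _ (integrable_cont (hΦ.comp (Fs_cont a k)))
  have h2 : ∫ p, (Φ ∘ Fs a k) p = ∫ p, Φ p := int_Fs a k hΦ
  rw [← h2, h1]
  simp only [Function.comp_apply, Fs_coe]

theorem int_T2' (F : T2 → ℝ) (hF : Integrable F) :
    ∫ p, F p = ∫ t in (0:ℝ)..1, ∫ s in (0:ℝ)..1, F ((t : UnitAddCircle), (s : UnitAddCircle)) := by
  have h1 : ∫ p, F p = ∫ x : UnitAddCircle, ∫ y : UnitAddCircle, F (x, y) :=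
    integral_prod F hF
  rw [h1, ← UnitAddCircle.intervalIntegral_preimage 0]
  rw [zero_add]
  apply intervalIntegral.integral_congr
  intro s _
  simp only
  have h2 := UnitAddCircle.intervalIntegral_preimage 0 (fun y => F ((s : UnitAddCircle), y))
  rw [zero_add] at h2
  exact h2.symm

theorem coe_cont2 : Continuous (fun p : ℝ × ℝ => ((p.1 : UnitAddCircle), (p.2 : UnitAddCircle))) :=
  ((AddCircle.continuous_mk' 1).comp continuous_fst).prodMk
    ((AddCircle.continuous_mk' 1).comp continuous_snd)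

theorem param_cont {f : ℝ × ℝ → ℝ} (hf : Continuous f) :
    Continuous (fun s => ∫ t in (0:ℝ)..1, f (s, t)) :=
  intervalIntegral.continuous_parametric_intervalIntegral_of_continuous' (f := fun s t => f (s, t))
    hf 0 1

theorem int_T2_le {Φ : T2 → ℝ} (hΦ : Continuous Φ) {g : ℝ → ℝ} (hg : Continuous g)
    (h : ∀ s : ℝ, ∫ t in (0:ℝ)..1, Φ ((t : UnitAddCircle), (s : UnitAddCircle)) ≤ g s) :
    ∫ p, Φ p ≤ ∫ s in (0:ℝ)..1, g s := by
  rw [int_T2 Φ (integrable_cont hΦ)]
  apply intervalIntegral.integral_mono_on zero_le_one _ (hg.intervalIntegrable _ _)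
    fun s _ => h s
  apply Continuous.intervalIntegrable
  have h1 : Continuous (fun p : ℝ × ℝ => Φ ((p.2 : UnitAddCircle), (p.1 : UnitAddCircle))) :=
    hΦ.comp (coe_cont2.comp (by fun_prop : Continuous (fun p : ℝ × ℝ => (p.2, p.1))))
  exact param_cont h1

theorem int_T2_le' {Φ : T2 → ℝ} (hΦ : Continuous Φ) {g : ℝ → ℝ} (hg : Continuous g)
    (h : ∀ t : ℝ, ∫ s in (0:ℝ)..1, Φ ((t : UnitAddCircle), (s : UnitAddCircle)) ≤ g t) :
    ∫ p, Φ p ≤ ∫ t in (0:ℝ)..1, g t := by
  rw [int_T2' Φ (integrable_cont hΦ)]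
  apply intervalIntegral.integral_mono_on zero_le_one _ (hg.intervalIntegrable _ _)
    fun s _ => h s
  apply Continuous.intervalIntegrable
  have h1 : Continuous (fun p : ℝ × ℝ => Φ ((p.1 : UnitAddCircle), (p.2 : UnitAddCircle))) :=
    hΦ.comp coe_cont2
  exact param_cont h1

/-- `el` on the circle -/
noncomputable def elc (a : ℕ → ℝ) (n k : ℕ) : UnitAddCircle → ℝ :=
  if k < n then Lc (a k) else fun _ => 1

theorem elc_cont (a : ℕ → ℝ) (n k : ℕ) : Continuous (elc a n k) := by
  unfold elc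
  split_ifs
  · exact Lc_cont (a k)
  · exact continuous_const

theorem elc_coe (a : ℕ → ℝ) (s : ℝ) (n k : ℕ) (t : ℝ) :
    el a s n k t = elc a n k (X a s (k + 1) t : UnitAddCircle) := by
  unfold el elc
  split_ifs
  · rw [Lc_coe]
  · rfl

theorem exp_hh1 {a T : ℕ → ℝ} (ha : ∀ k, 1 ≤ |a k|) (hT : ∀ k, 16 ≤ T k) {n k : ℕ} (hk : k < n) :
    ∫ s in (0:ℝ)..1, ∫ t in (0:ℝ)..1, hh (a k) (T k) (el a s n k t) (el a s n (k + 1) t) ≤
      1 / (2 * T k) := by
  have hTk : 0 < T k := by linarith [hT k]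
  have hΦ : Continuous (fun p : T2 => hh (a k) (T k) (elc a n k p.2) (elc a n (k + 1) p.1)) :=
    hh_cont hTk ((elc_cont a n k).comp continuous_snd) ((elc_cont a n (k + 1)).comp continuous_fst)
  have h1 := inv a (k + 1) hΦ
  simp only [← elc_coe] at h1
  rw [h1]
  refine (int_T2_le' hΦ (g := fun _ => 1 / (2 * T k)) continuous_const ?_).trans
    (le_of_eq (by simp))
  intro t
  have h2 := int_hh (ha k) hTk (elc a n (k + 1) (t : UnitAddCircle))
  refine le_trans (le_of_eq ?_) h2
  apply intervalIntegral.integral_congr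
  intro s _
  simp only
  unfold hh
  have e : elc a n k (s : UnitAddCircle) = L (a k) s := by
    unfold elc
    rw [if_pos hk, Lc_coe]
  rw [e]

theorem exp_hh2 {a T : ℕ → ℝ} (ha : ∀ k, 1 ≤ |a k|) (hT : ∀ k, 16 ≤ T k) {n k : ℕ}
    (hk : k + 1 < n) :
    ∫ s in (0:ℝ)..1, ∫ t in (0:ℝ)..1,
      hh (a (k + 1)) (T k) (el a s n (k + 1) t) (el a s n k t) ≤ 1 / (2 * T k) := by
  have hTk : 0 < T k := by linarith [hT k]
  have hΦ : Continuous (fun p : T2 => hh (a (k + 1)) (T k) (elc a n (k + 1) p.1)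
      (elc a n k p.2)) :=
    hh_cont hTk ((elc_cont a n (k + 1)).comp continuous_fst) ((elc_cont a n k).comp continuous_snd)
  have h1 := inv a (k + 1) hΦ
  simp only [← elc_coe] at h1
  rw [h1]
  refine (int_T2_le hΦ (g := fun _ => 1 / (2 * T k)) continuous_const ?_).trans
    (le_of_eq (by simp))
  intro s
  have h2 := int_hh (ha (k + 1)) hTk (elc a n k (s : UnitAddCircle))
  refine le_trans (le_of_eq ?_) h2
  apply intervalIntegral.integral_congr
  intro t _
  simp only
  unfold hh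
  have e : elc a n (k + 1) (t : UnitAddCircle) = L (a (k + 1)) t := by
    unfold elc
    rw [if_pos hk, Lc_coe]
  rw [e]

theorem exp_ck {a T : ℕ → ℝ} (ha : ∀ k, 1 ≤ |a k|) (hT : ∀ k, 16 ≤ T k) {q : ℝ} (hq : 1 ≤ q)
    {n k : ℕ} (hk : k < n) :
    ∫ s in (0:ℝ)..1, ∫ t in (0:ℝ)..1, ck a T s n q k t ≤ 1 / (T k * q ^ (n - (k + 3))) := by
  have hTk : 0 < T k := by linarith [hT k]
  have h1 := exp_hh1 ha hT hk
  have hq1 : q ^ (n - (k + 3)) ≤ q ^ (n - (k + 2)) := pow_le_pow_right₀ hq (by omega)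
  have hq0 : 0 < q ^ (n - (k + 3)) := by positivity
  have c1 : Continuous (fun p : ℝ × ℝ => hh (a k) (T k) (el a p.1 n k p.2)
      (el a p.1 n (k + 1) p.2)) := hh_cont hTk (el2_cont a n k) (el2_cont a n (k + 1))
  have c2 : Continuous (fun p : ℝ × ℝ => hh (a (k + 1)) (T k) (el a p.1 n (k + 1) p.2)
      (el a p.1 n k p.2)) := hh_cont hTk (el2_cont a n (k + 1)) (el2_cont a n k)
  have cs : ∀ s : ℝ, Continuous (fun t : ℝ => ((s, t) : ℝ × ℝ)) := fun s => by fun_prop
  have i1 : ∀ s : ℝ, IntervalIntegrable (fun t => hh (a k) (T k) (el a s n k t)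
      (el a s n (k + 1) t)) volume 0 1 := fun s =>
    (hh_cont hTk (el_cont a s n k) (el_cont a s n (k + 1))).intervalIntegrable _ _
  have i2 : ∀ s : ℝ, IntervalIntegrable (fun t => hh (a (k + 1)) (T k) (el a s n (k + 1) t)
      (el a s n k t)) volume 0 1 := fun s =>
    (hh_cont hTk (el_cont a s n (k + 1)) (el_cont a s n k)).intervalIntegrable _ _
  have j1 : IntervalIntegrable (fun s => ∫ t in (0:ℝ)..1, hh (a k) (T k) (el a s n k t)
      (el a s n (k + 1) t)) volume 0 1 := (param_cont c1).intervalIntegrable _ _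
  have j2 : IntervalIntegrable (fun s => ∫ t in (0:ℝ)..1, hh (a (k + 1)) (T k)
      (el a s n (k + 1) t) (el a s n k t)) volume 0 1 := (param_cont c2).intervalIntegrable _ _
  have e0 : 1 / (T k * q ^ (n - (k + 3))) = 1 / (2 * T k) / q ^ (n - (k + 3)) +
      1 / (2 * T k) / q ^ (n - (k + 3)) := by
    field_simp
    ring
  have hA : (∫ s in (0:ℝ)..1, ∫ t in (0:ℝ)..1, hh (a k) (T k) (el a s n k t)
      (el a s n (k + 1) t)) / q ^ (n - (k + 2)) ≤ 1 / (2 * T k) / q ^ (n - (k + 3)) := by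
    calc _ ≤ 1 / (2 * T k) / q ^ (n - (k + 2)) := by gcongr
      _ ≤ _ := by gcongr
  unfold ck
  by_cases h : k + 1 < n
  · have h2 := exp_hh2 ha hT h
    simp only [if_pos h]
    have e1 : ∀ s : ℝ, ∫ t in (0:ℝ)..1, (hh (a k) (T k) (el a s n k t) (el a s n (k + 1) t) /
        q ^ (n - (k + 2)) + hh (a (k + 1)) (T k) (el a s n (k + 1) t) (el a s n k t) /
          q ^ (n - (k + 3))) = (∫ t in (0:ℝ)..1, hh (a k) (T k) (el a s n k t)
            (el a s n (k + 1) t)) / q ^ (n - (k + 2)) +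
          (∫ t in (0:ℝ)..1, hh (a (k + 1)) (T k) (el a s n (k + 1) t) (el a s n k t)) /
            q ^ (n - (k + 3)) := fun s => by
      rw [intervalIntegral.integral_add ((i1 s).div_const _) ((i2 s).div_const _),
        intervalIntegral.integral_div, intervalIntegral.integral_div]
    simp only [e1]
    rw [intervalIntegral.integral_add (j1.div_const _) (j2.div_const _),
      intervalIntegral.integral_div, intervalIntegral.integral_div, e0]
    refine add_le_add hA ?_
    gcongr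
  · simp only [if_neg h, add_zero]
    simp only [intervalIntegral.integral_div]
    rw [e0]
    have : 0 ≤ 1 / (2 * T k) / q ^ (n - (k + 3)) := by positivity
    linarith

/-- the measure of the bad set of a time -/
noncomputable def bz (a T : ℕ → ℝ) (k : ℕ) : ℝ :=
  T k / (π * |a k| * |a (k + 1)|) * log (1 + 4 * π * |a k| * |a (k + 1)| / T k)

theorem bz_nonneg {a T : ℕ → ℝ} (hT : ∀ k, 16 ≤ T k) (k : ℕ) : 0 ≤ bz a T k := by
  have hTk : 0 < T k := by linarith [hT k]
  have hpi := pi_pos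
  unfold bz
  have h1 : 0 ≤ 4 * π * |a k| * |a (k + 1)| / T k := by positivity
  have h2 : 0 ≤ log (1 + 4 * π * |a k| * |a (k + 1)| / T k) := log_nonneg (by linarith)
  positivity

theorem exp_rk_aux {a T : ℕ → ℝ} (ha : ∀ k, 1 ≤ |a k|) (hT : ∀ k, 16 ≤ T k) {n k : ℕ}
    (hk : k < n) :
    ∫ s in (0:ℝ)..1, ∫ t in (0:ℝ)..1, (1 - rk a T s n k t) ≤
      3 * ∫ u in (0:ℝ)..1, 2 * (T k / (2 * |a k|)) /
        (max |elc a n (k + 1) (u : UnitAddCircle)| 0 + T k / (2 * |a k|)) := by
  have hTk : 0 < T k := by linarith [hT k]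
  have hak : 0 < |a k| := by linarith [ha k]
  have c1 := rk2_cont a T n k
  have hΦ : Continuous (fun p : T2 => (T k) ^ 2 / ((elc a n k p.2 * elc a n (k + 1) p.1) ^ 2 +
      (T k) ^ 2)) := by
    have h1 := (elc_cont a n k).comp (continuous_snd (X := UnitAddCircle) (Y := UnitAddCircle))
    have h2 := (elc_cont a n (k + 1)).comp
      (continuous_fst (X := UnitAddCircle) (Y := UnitAddCircle))
    refine Continuous.div continuous_const (((h1.mul h2).pow 2).add continuous_const) fun p => ?_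
    have := sq_nonneg (elc a n k p.2 * elc a n (k + 1) p.1)
    positivity
  have h1 := inv a (k + 1) hΦ
  simp only [← elc_coe] at h1
  have c2 : Continuous (fun p : ℝ × ℝ => (T k) ^ 2 / ((el a p.1 n k p.2 *
      el a p.1 n (k + 1) p.2) ^ 2 + (T k) ^ 2)) := by
    have h1 := el2_cont a n k
    have h2 := el2_cont a n (k + 1)
    refine Continuous.div continuous_const (((h1.mul h2).pow 2).add continuous_const) fun p => ?_
    have := sq_nonneg (el a p.1 n k p.2 * el a p.1 n (k + 1) p.2)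
    positivity
  have cs : ∀ s : ℝ, Continuous (fun t : ℝ => ((s, t) : ℝ × ℝ)) := fun s => by fun_prop
  have h2 : ∫ s in (0:ℝ)..1, ∫ t in (0:ℝ)..1, (1 - rk a T s n k t) ≤
      ∫ s in (0:ℝ)..1, ∫ t in (0:ℝ)..1, 3 * ((T k) ^ 2 / ((el a s n k t *
        el a s n (k + 1) t) ^ 2 + (T k) ^ 2)) := by
    apply intervalIntegral.integral_mono_on zero_le_one
      ((param_cont (continuous_const.sub c1)).intervalIntegrable _ _)
      ((param_cont (continuous_const.mul c2)).intervalIntegrable _ _)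
    intro s _
    apply intervalIntegral.integral_mono_on zero_le_one
      (((continuous_const.sub c1).comp (cs s)).intervalIntegrable _ _)
      (((continuous_const.mul c2).comp (cs s)).intervalIntegrable _ _)
    intro t _
    exact one_sub_rho hTk
  refine h2.trans ?_
  simp only [intervalIntegral.integral_const_mul]
  rw [h1]
  apply mul_le_mul_of_nonneg_left _ (by norm_num)
  have hg : Continuous (fun u : ℝ => 2 * (T k / (2 * |a k|)) /
      (max |elc a n (k + 1) (u : UnitAddCircle)| 0 + T k / (2 * |a k|))) := by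
    have h1 : Continuous (fun u : ℝ => elc a n (k + 1) (u : UnitAddCircle)) :=
      (elc_cont a n (k + 1)).comp (AddCircle.continuous_mk' 1)
    refine Continuous.div continuous_const ((h1.abs.max continuous_const).add continuous_const)
      fun u => ?_
    have := le_max_right |elc a n (k + 1) (u : UnitAddCircle)| 0
    positivity
  refine int_T2_le' hΦ hg ?_
  intro u
  have h3 := int_bad1 (ha k) hTk (elc a n (k + 1) (u : UnitAddCircle))
  refine le_trans (le_of_eq ?_) h3
  apply intervalIntegral.integral_congr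
  intro s _
  simp only
  have e : elc a n k (s : UnitAddCircle) = L (a k) s := by
    unfold elc
    rw [if_pos hk, Lc_coe]
  rw [e]

theorem exp_rk {a T : ℕ → ℝ} (ha : ∀ k, 1 ≤ |a k|) (hT : ∀ k, 16 ≤ T k) {n k : ℕ}
    (hk : k + 1 < n) :
    ∫ s in (0:ℝ)..1, ∫ t in (0:ℝ)..1, (1 - rk a T s n k t) ≤ 3 * bz a T k := by
  have hTk : 0 < T k := by linarith [hT k]
  have hak : 0 < |a k| := by linarith [ha k]
  have hak' : 0 < |a (k + 1)| := by linarith [ha (k + 1)]
  refine (exp_rk_aux ha hT (by omega : k < n)).trans ?_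
  apply mul_le_mul_of_nonneg_left _ (by norm_num)
  have h1 := int_log (ha (k + 1)) (div_pos hTk (by positivity : 0 < 2 * |a k|))
  have e : ∀ u : ℝ, elc a n (k + 1) (u : UnitAddCircle) = L (a (k + 1)) u := fun u => by
    unfold elc
    rw [if_pos hk, Lc_coe]
  simp only [e]
  refine h1.trans (le_of_eq ?_)
  unfold bz
  have hpi := pi_pos
  have e2 : 2 * π * |a (k + 1)| / (T k / (2 * |a k|)) = 4 * π * |a k| * |a (k + 1)| / T k := by
    field_simp
    ring
  rw [e2]
  congr 1
  field_simp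

theorem exp_rk_last {a T : ℕ → ℝ} (ha : ∀ k, 1 ≤ |a k|) (hT : ∀ k, 16 ≤ T k) (k : ℕ) :
    ∫ s in (0:ℝ)..1, ∫ t in (0:ℝ)..1, (1 - rk a T s (k + 1) k t) ≤ 3 * (T k / |a k|) := by
  have hTk : 0 < T k := by linarith [hT k]
  have hak : 0 < |a k| := by linarith [ha k]
  refine (exp_rk_aux ha hT (by omega : k < k + 1)).trans ?_
  apply mul_le_mul_of_nonneg_left _ (by norm_num)
  have e : ∀ u : ℝ, elc a (k + 1) (k + 1) (u : UnitAddCircle) = 1 := fun u => by
    unfold elc
    rw [if_neg (by omega)]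
  simp only [e]
  rw [intervalIntegral.integral_const, sub_zero, one_smul, abs_one,
    max_eq_left zero_le_one]
  have h1 : 0 < T k / (2 * |a k|) := by positivity
  rw [div_le_iff₀ (by positivity)]
  have e2 : T k / |a k| = 2 * (T k / (2 * |a k|)) := by
    field_simp
  rw [e2]
  nlinarith

/-- the total measure of the bad set -/
noncomputable def Bz (a T : ℕ → ℝ) (n : ℕ) : ℝ :=
  3 * ((∑ k ∈ Finset.range (n - 1), bz a T k) + T (n - 1) / |a (n - 1)|)

theorem exp_chi {a T : ℕ → ℝ} (ha : ∀ k, 1 ≤ |a k|) (hT : ∀ k, 16 ≤ T k) {n : ℕ} (hn : 1 ≤ n) :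
    ∫ s in (0:ℝ)..1, ∫ t in (0:ℝ)..1, (1 - chi a T s n n t) ≤ Bz a T n := by
  have cs : ∀ s : ℝ, Continuous (fun t : ℝ => ((s, t) : ℝ × ℝ)) := fun s => by fun_prop
  have c1 := chi2_cont a T n n
  have c2 : Continuous (fun p : ℝ × ℝ => ∑ k ∈ Finset.range n, (1 - rk a T p.1 n k p.2)) :=
    continuous_finsetSum _ fun k _ => continuous_const.sub (rk2_cont a T n k)
  have h1 : ∫ s in (0:ℝ)..1, ∫ t in (0:ℝ)..1, (1 - chi a T s n n t) ≤
      ∫ s in (0:ℝ)..1, ∫ t in (0:ℝ)..1, ∑ k ∈ Finset.range n, (1 - rk a T s n k t) := by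
    apply intervalIntegral.integral_mono_on zero_le_one
      ((param_cont (continuous_const.sub c1)).intervalIntegrable _ _)
      ((param_cont c2).intervalIntegrable _ _)
    intro s _
    apply intervalIntegral.integral_mono_on zero_le_one
      (((continuous_const.sub c1).comp (cs s)).intervalIntegrable _ _)
      ((c2.comp (cs s)).intervalIntegrable _ _)
    intro t _
    exact one_sub_chi a T s n n t
  refine h1.trans ?_
  have e : ∫ s in (0:ℝ)..1, ∫ t in (0:ℝ)..1, ∑ k ∈ Finset.range n, (1 - rk a T s n k t) =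
      ∑ k ∈ Finset.range n, ∫ s in (0:ℝ)..1, ∫ t in (0:ℝ)..1, (1 - rk a T s n k t) := by
    rw [← intervalIntegral.integral_finsetSum]
    · apply intervalIntegral.integral_congr
      intro s _
      simp only
      rw [intervalIntegral.integral_finsetSum]
      intro k _
      exact (continuous_const.sub (rk_cont a T s n k)).intervalIntegrable _ _
    · intro k _
      exact (param_cont (continuous_const.sub (rk2_cont a T n k))).intervalIntegrable _ _
  rw [e]
  obtain ⟨m, rfl⟩ := Nat.exists_eq_add_of_le' hn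
  rw [Finset.sum_range_succ]
  unfold Bz
  rw [Nat.add_sub_cancel, mul_add, Finset.mul_sum]
  refine add_le_add ?_ (exp_rk_last ha hT m)
  apply Finset.sum_le_sum
  intro k hk
  rw [Finset.mem_range] at hk
  exact exp_rk ha hT (by omega)

end Pool.Agent.U785.ST
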