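import Mathlib

set_option autoImplicit false

/-!
# Observables and their primitives
-/

namespace Pool.Agent.U785.ST

open Real MeasureTheory Filter Topology

/-- a continuously differentiable observable on the torus, through its lift -/
structure Obs (f : ℝ × ℝ → ℝ) : Prop where
  smooth : ContDiff ℝ 1 f
  per1 : ∀ x y, f (x + 1, y) = f (x, y)
  per2 : ∀ x y, f (x, y + 1) = f (x, y)

/-- the first partial derivative -/
noncomputable def d1 (f : ℝ × ℝ → ℝ) (p : ℝ × ℝ) : ℝ := fderiv ℝ f p (1, 0)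

/-- the second partial derivative -/
noncomputable def d2 (f : ℝ × ℝ → ℝ) (p : ℝ × ℝ) : ℝ := fderiv ℝ f p (0, 1)

variable {f : ℝ × ℝ → ℝ}

theorem Obs.hasF (hf : Obs f) (p : ℝ × ℝ) : HasFDerivAt f (fderiv ℝ f p) p :=
  ((hf.smooth.differentiable one_ne_zero) p).hasFDerivAt

theorem Obs.hasDeriv1 (hf : Obs f) (x y : ℝ) :
    HasDerivAt (fun x => f (x, y)) (d1 f (x, y)) x := by
  have h1 : HasDerivAt (fun x : ℝ => ((x, y) : ℝ × ℝ)) ((1, 0) : ℝ × ℝ) x :=
    (hasDerivAt_id x).prodMk (hasDerivAt_const x y)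
  exact (hf.hasF (x, y)).comp_hasDerivAt x h1

theorem Obs.hasDeriv2 (hf : Obs f) (x y : ℝ) :
    HasDerivAt (fun y => f (x, y)) (d2 f (x, y)) y := by
  have h1 : HasDerivAt (fun y : ℝ => ((x, y) : ℝ × ℝ)) ((0, 1) : ℝ × ℝ) y :=
    (hasDerivAt_const y x).prodMk (hasDerivAt_id y)
  exact (hf.hasF (x, y)).comp_hasDerivAt y h1

theorem Obs.cont (hf : Obs f) : Continuous f := hf.smooth.continuous

theorem Obs.fd_cont (hf : Obs f) : Continuous (fderiv ℝ f) :=
  hf.smooth.continuous_fderiv one_ne_zero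

theorem Obs.d1_cont (hf : Obs f) : Continuous (d1 f) := hf.fd_cont.clm_apply continuous_const

theorem Obs.d2_cont (hf : Obs f) : Continuous (d2 f) := hf.fd_cont.clm_apply continuous_const

theorem hasDeriv_param {F F' : ℝ × ℝ → ℝ} (hF : Continuous F) (hF' : Continuous F')
    (h : ∀ w v, HasDerivAt (fun v => F (w, v)) (F' (w, v)) v) (c d v : ℝ) :
    HasDerivAt (fun v => ∫ w in c..d, F (w, v)) (∫ w in c..d, F' (w, v)) v := by
  have hK : IsCompact (Set.uIcc c d ×ˢ Metric.closedBall v 1) :=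
    isCompact_uIcc.prod (isCompact_closedBall v 1)
  obtain ⟨C, hC⟩ := hK.exists_bound_of_continuousOn hF'.continuousOn
  have cv : ∀ v : ℝ, Continuous (fun w : ℝ => ((w, v) : ℝ × ℝ)) := fun v => by fun_prop
  refine (intervalIntegral.hasDerivAt_integral_of_dominated_loc_of_deriv_le (bound := fun _ => C)
    (F := fun v w => F (w, v)) (F' := fun v w => F' (w, v))
    (s := Metric.closedBall v 1) (Metric.closedBall_mem_nhds v one_pos) ?_ ?_ ?_ ?_ ?_ ?_).2
  · exact Eventually.of_forall fun v => (hF.comp (cv v)).aestronglyMeasurable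
  · exact (hF.comp (cv v)).intervalIntegrable _ _
  · exact (hF'.comp (cv v)).aestronglyMeasurable
  · refine Eventually.of_forall fun w hw x hx => hC (w, x) ⟨Set.uIoc_subset_uIcc hw, hx⟩
  · exact continuous_const.intervalIntegrable _ _
  · exact Eventually.of_forall fun w _ x _ => h w x

/-- the mean over the first coordinate -/
noncomputable def mn (f : ℝ × ℝ → ℝ) (v : ℝ) : ℝ := ∫ w in (0:ℝ)..1, f (w, v)

theorem mn_cont (hf : Continuous f) : Continuous (mn f) := by
  unfold mn
  have h1 : Continuous (Function.uncurry (fun v w : ℝ => f (w, v))) :=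
    hf.comp (by fun_prop : Continuous (fun p : ℝ × ℝ => (p.2, p.1)))
  exact intervalIntegral.continuous_parametric_intervalIntegral_of_continuous' h1 0 1

/-- the primitive in the first coordinate of the part of mean zero -/
noncomputable def Pr (f : ℝ × ℝ → ℝ) (u v : ℝ) : ℝ := ∫ w in (0:ℝ)..u, (f (w, v) - mn f v)

theorem pr_int_cont (hf : Continuous f) (v : ℝ) : Continuous (fun w => f (w, v) - mn f v) := by
  fun_prop

theorem Pr_cont (hf : Continuous f) : Continuous (fun p : ℝ × ℝ => Pr f p.1 p.2) := by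
  unfold Pr
  have hm := mn_cont hf
  have h1 : Continuous (Function.uncurry (fun (p : ℝ × ℝ) (w : ℝ) => f (w, p.2) - mn f p.2)) := by
    unfold Function.uncurry
    exact (hf.comp (by fun_prop : Continuous (fun p : (ℝ × ℝ) × ℝ => (p.2, p.1.2)))).sub
      (hm.comp (by fun_prop : Continuous (fun p : (ℝ × ℝ) × ℝ => p.1.2)))
  exact intervalIntegral.continuous_parametric_intervalIntegral_of_continuous h1 continuous_fst

theorem Obs.mn_hasDeriv (hf : Obs f) (v : ℝ) : HasDerivAt (mn f) (mn (d2 f) v) v :=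
  hasDeriv_param hf.cont hf.d2_cont hf.hasDeriv2 0 1 v

theorem Pr_hasDeriv1 (hf : Continuous f) (u v : ℝ) :
    HasDerivAt (fun u => Pr f u v) (f (u, v) - mn f v) u :=
  intervalIntegral.integral_hasDerivAt_right
    ((pr_int_cont hf v).intervalIntegrable _ _)
    (pr_int_cont hf v).aestronglyMeasurable.stronglyMeasurableAtFilter
    (pr_int_cont hf v).continuousAt

theorem Obs.Pr_hasDeriv2 (hf : Obs f) (u v : ℝ) :
    HasDerivAt (fun v => Pr f u v) (Pr (d2 f) u v) v := by
  have hm := mn_cont hf.cont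
  have hm' := mn_cont hf.d2_cont
  exact hasDeriv_param (F := fun p => f p - mn f p.2) (F' := fun p => d2 f p - mn (d2 f) p.2)
    (hf.cont.sub (hm.comp continuous_snd)) (hf.d2_cont.sub (hm'.comp continuous_snd))
    (fun w v => (hf.hasDeriv2 w v).sub (hf.mn_hasDeriv v)) 0 u v

theorem Obs.chain (hf : Obs f) {U V : ℝ → ℝ} {U' V' t : ℝ} (hU : HasDerivAt U U' t)
    (hV : HasDerivAt V V' t) : HasDerivAt (fun t => Pr f (U t) (V t))
      ((f (U t, V t) - mn f (V t)) * U' + Pr (d2 f) (U t) (V t) * V') t := by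
  have hm := mn_cont hf.cont
  have h1 := hasStrictFDerivAt_uncurry_coprod (𝕜 := ℝ) (u := (U t, V t)) (f := Pr f)
    (f₁ := fun u v => ContinuousLinearMap.toSpanSingleton ℝ (f (u, v) - mn f v))
    (f₂ := fun u v => ContinuousLinearMap.toSpanSingleton ℝ (Pr (d2 f) u v))
    (Eventually.of_forall fun p => (Pr_hasDeriv1 hf.cont p.1 p.2).hasFDerivAt)
    (Eventually.of_forall fun p => (hf.Pr_hasDeriv2 p.1 p.2).hasFDerivAt) ?_ ?_
  · have h2 := h1.hasFDerivAt.comp_hasDerivAt t (hU.prodMk hV)
    refine HasDerivAt.congr_deriv h2 ?_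
    simp only [Function.HasUncurry.uncurry, id, ContinuousLinearMap.coprod_apply,
      ContinuousLinearMap.toSpanSingleton_apply, smul_eq_mul]
    ring
  · apply Continuous.continuousAt
    have h3 : Continuous (fun p : ℝ × ℝ => f p - mn f p.2) :=
      hf.cont.sub (hm.comp continuous_snd)
    exact (ContinuousLinearMap.toSpanSingletonCLE (𝕜 := ℝ) (E := ℝ)).continuous.comp h3
  · apply Continuous.continuousAt
    exact (ContinuousLinearMap.toSpanSingletonCLE (𝕜 := ℝ) (E := ℝ)).continuous.comp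
      (Pr_cont hf.d2_cont)

theorem mn_sub (hf : Continuous f) (v : ℝ) : ∫ w in (0:ℝ)..1, (f (w, v) - mn f v) = 0 := by
  rw [intervalIntegral.integral_sub]
  · simp [mn]
  · exact (hf.comp (by fun_prop : Continuous (fun w : ℝ => ((w, v) : ℝ × ℝ)))).intervalIntegrable _ _
  · exact continuous_const.intervalIntegrable _ _

theorem Pr_add_one (hf : Continuous f) (hp : ∀ x y, f (x + 1, y) = f (x, y)) (u v : ℝ) :
    Pr f (u + 1) v = Pr f u v := by
  unfold Pr
  have hc := pr_int_cont hf v
  rw [← intervalIntegral.integral_add_adjacent_intervals (hc.intervalIntegrable 0 1)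
    (hc.intervalIntegrable 1 (u + 1)), mn_sub hf v, zero_add]
  have h1 := intervalIntegral.integral_comp_add_right (a := 0) (b := u)
    (fun w => f (w, v) - mn f v) 1
  rw [zero_add] at h1
  rw [← h1]
  simp only [hp]

theorem Pr_bound (hf : Continuous f) (hp : ∀ x y, f (x + 1, y) = f (x, y)) {M : ℝ}
    (hM : ∀ p, |f p| ≤ M) (u v : ℝ) : |Pr f u v| ≤ M := by
  have hM0 : 0 ≤ M := (abs_nonneg _).trans (hM 0)
  have hper : Function.Periodic (fun u => Pr f u v) 1 := fun u => Pr_add_one hf hp u v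
  obtain ⟨u', hu', he⟩ := hper.exists_mem_Ico₀ one_pos u
  have he' : Pr f u v = Pr f u' v := he
  rw [he']
  have hc := pr_int_cont hf v
  have hmn : |mn f v| ≤ M := by
    unfold mn
    have := intervalIntegral.norm_integral_le_of_norm_le_const (a := 0) (b := 1) (C := M)
      (f := fun w => f (w, v)) (fun w _ => hM (w, v))
    simpa using this
  have hb : ∀ w, ‖f (w, v) - mn f v‖ ≤ 2 * M := fun w => by
    rw [norm_eq_abs]
    have := abs_sub (f (w, v)) (mn f v)
    have := hM (w, v)
    linarith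
  have h1 : |Pr f u' v| ≤ 2 * M * u' := by
    have := intervalIntegral.norm_integral_le_of_norm_le_const (a := 0) (b := u') (C := 2 * M)
      (f := fun w => f (w, v) - mn f v) (fun w _ => hb w)
    rwa [sub_zero, abs_of_nonneg hu'.1] at this
  have h2 : |Pr f u' v| ≤ 2 * M * (1 - u') := by
    have h3 := intervalIntegral.integral_add_adjacent_intervals (μ := volume)
      (hc.intervalIntegrable 0 u') (hc.intervalIntegrable u' 1)
    rw [mn_sub hf v] at h3
    have h4 : Pr f u' v = -∫ w in u'..1, (f (w, v) - mn f v) := by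
      unfold Pr
      linarith
    rw [h4, abs_neg]
    have := intervalIntegral.norm_integral_le_of_norm_le_const (a := u') (b := 1) (C := 2 * M)
      (f := fun w => f (w, v) - mn f v) (fun w _ => hb w)
    rwa [abs_of_nonneg (by linarith [hu'.2])] at this
  linarith

theorem Pr_add_nat (hf : Continuous f) (hp : ∀ x y, f (x + 1, y) = f (x, y)) (u v : ℝ) (k : ℕ) :
    Pr f (u + k) v = Pr f u v := by
  induction k with
  | zero => simp
  | succ k ih =>
    push_cast
    rw [← add_assoc, Pr_add_one hf hp, ih]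

theorem per_nat (hp : ∀ x y, f (x, y + 1) = f (x, y)) (u v : ℝ) (k : ℕ) :
    f (u, v + k) = f (u, v) := by
  induction k with
  | zero => simp
  | succ k ih =>
    push_cast
    rw [← add_assoc, hp, ih]

theorem Pr_add_nat2 (hp : ∀ x y, f (x, y + 1) = f (x, y)) (u v : ℝ) (k : ℕ) :
    Pr f u (v + k) = Pr f u v := by
  unfold Pr mn
  simp only [per_nat hp]

theorem Obs.d2_per1 (hf : Obs f) (x y : ℝ) : d2 f (x + 1, y) = d2 f (x, y) := by
  have h1 := hf.hasDeriv2 (x + 1) y
  simp only [hf.per1] at h1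
  exact h1.unique (hf.hasDeriv2 x y)

theorem Obs.d1_per1 (hf : Obs f) (x y : ℝ) : d1 f (x + 1, y) = d1 f (x, y) := by
  have h1 : HasDerivAt (fun x => f (x + 1, y)) (d1 f (x + 1, y)) x :=
    (hf.hasDeriv1 (x + 1) y).comp_add_const x 1
  simp only [hf.per1] at h1
  exact h1.unique (hf.hasDeriv1 x y)

end Pool.Agent.U785.ST
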