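import Mathlib
import Pool.Agent.U785.ST.Inv
import Pool.Agent.U785.ST.Obs

set_option autoImplicit false

/-!
# Decorrelation: the main estimate
-/

namespace Pool.Agent.U785.ST

open Real MeasureTheory
open Pool.Agent.TH705.SM (L L_cont L_period T2 S S_mp S_cont S_coe int_T2 integrable_cont KK KK_one)

/-- the initial derivative against the last one -/
theorem D_first {a T : ℕ → ℝ} {s : ℝ} (hT : ∀ k, 16 ≤ T k) {q : ℝ} (hq : 1 ≤ q)
    (hqT : ∀ k, q ^ 2 ≤ 9 / 16 * T k) {n : ℕ} {t : ℝ} (hg : Good a s T n t) :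
    q ^ n ≤ |D a s (n + 1) t| := by
  have h1 := D_w hT hg n 0 (by omega)
  have h2 := w_low hq hqT hg n 0 (by omega)
  rw [Nat.sub_zero] at h2
  have e : |D a s (0 + 1) t| = 1 := by
    show |(1:ℝ)| = 1
    exact abs_one
  rw [e, one_mul] at h1
  exact h2.trans h1

theorem core_s {a T : ℕ → ℝ} (s : ℝ) (hT : ∀ k, 16 ≤ T k) (hTm : ∀ k, T k ≤ T (k + 1)) {q : ℝ}
    (hq : 1 ≤ q) (hqT : ∀ k, q ^ 2 ≤ 9 / 16 * T k) {n : ℕ} (hn : 1 ≤ n) {φ f : ℝ × ℝ → ℝ}
    (hφ : Obs φ) (hf : Obs f) (hφ1 : ∀ p, |φ p| ≤ 1) {K : ℝ} (hφK : ∀ p, |d1 φ p| ≤ K)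
    (hf1 : ∀ p, |f p| ≤ 1) {M : ℝ} (hfM : ∀ p, |d2 f p| ≤ M) :
    |∫ t in (0:ℝ)..1, chi a T s n n t * φ (t, s) *
      (f (X a s (n + 1) t, X a s n t) - mn f (X a s n t))| ≤
      82 * KK * π ^ 2 * (∑ k ∈ Finset.range n, ∫ t in (0:ℝ)..1, ck a T s n q k t) + K / q ^ n +
        M * (12 / 11 / T (n - 1)) := by
  have hK : 0 ≤ K := (abs_nonneg _).trans (hφK 0)
  have hXc := Xt_cont a s (n + 1)
  have hXc' := Xt_cont a s n
  have hm := mn_cont hf.cont
  have hp0 : ∀ k, X a s k 1 = X a s k 0 + k := fun k => by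
    have := X_period a s k 0
    rwa [zero_add] at this
  refine ibp (s := s) hT hTm hq hqT hn (P := fun t => φ (t, s)) (P' := fun t => d1 φ (t, s))
    (H := fun t => Pr f (X a s (n + 1) t) (X a s n t))
    (h := fun t => f (X a s (n + 1) t, X a s n t) - mn f (X a s n t))
    (r := fun t => Pr (d2 f) (X a s (n + 1) t) (X a s n t))
    (fun t => hφ.hasDeriv1 t s) ?_ (fun t => hφ1 _) ?_ (by positivity) ?_ ?_ ?_ ?_ ?_ ?_ ?_
  · exact hφ.d1_cont.comp (by fun_prop)
  · have := hφ.per1 0 s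
    rw [zero_add] at this
    exact this
  · intro t hg
    have h1 := D_first hT hq hqT hg
    have hq0 : 0 < q ^ n := by positivity
    calc |d1 φ (t, s)| ≤ K := hφK _
      _ = K / q ^ n * q ^ n := by field_simp
      _ ≤ K / q ^ n * |D a s (n + 1) t| := by gcongr
  · intro t
    exact hf.chain (X_hasDeriv a s (n + 1) t) (X_hasDeriv a s n t)
  · exact (hf.cont.comp (hXc.prodMk hXc')).sub (hm.comp hXc')
  · exact (Pr_cont hf.d2_cont).comp (hXc.prodMk hXc')
  · simp only [hp0]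
    rw [Pr_add_nat hf.cont hf.per1, Pr_add_nat2 hf.per2]
  · exact fun t => Pr_bound hf.cont hf.per1 hf1 _ _
  · exact fun t => Pr_bound hf.d2_cont hf.d2_per1 hfM _ _

/-- the sum of the inverse thresholds -/
noncomputable def Sz (T : ℕ → ℝ) (q : ℝ) (n : ℕ) : ℝ :=
  ∑ k ∈ Finset.range n, 1 / (T k * q ^ (n - (k + 3)))

/-- the error -/
noncomputable def Err (a T : ℕ → ℝ) (q K M : ℝ) (n : ℕ) : ℝ :=
  2 * Bz a T n + 82 * KK * π ^ 2 * Sz T q n + K / q ^ n + M * (12 / 11 / T (n - 1))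

theorem core {a T : ℕ → ℝ} (ha : ∀ k, 1 ≤ |a k|) (hT : ∀ k, 16 ≤ T k)
    (hTm : ∀ k, T k ≤ T (k + 1)) {q : ℝ}
    (hq : 1 ≤ q) (hqT : ∀ k, q ^ 2 ≤ 9 / 16 * T k) {n : ℕ} (hn : 1 ≤ n) {φ f : ℝ × ℝ → ℝ}
    (hφ : Obs φ) (hf : Obs f) (hφ1 : ∀ p, |φ p| ≤ 1) {K : ℝ} (hφK : ∀ p, |d1 φ p| ≤ K)
    (hf1 : ∀ p, |f p| ≤ 1) {M : ℝ} (hfM : ∀ p, |d2 f p| ≤ M) :
    |∫ s in (0:ℝ)..1, ∫ t in (0:ℝ)..1, φ (t, s) *
      (f (X a s (n + 1) t, X a s n t) - mn f (X a s n t))| ≤ Err a T q K M n := by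
  have hKK := KK_one
  have cX := X_cont a (n + 1)
  have cX' := X_cont a n
  have hm := mn_cont hf.cont
  have cφ : Continuous (fun p : ℝ × ℝ => φ (p.2, p.1)) := hφ.cont.comp (by fun_prop)
  have ch : Continuous (fun p : ℝ × ℝ => f (X a p.1 (n + 1) p.2, X a p.1 n p.2) -
      mn f (X a p.1 n p.2)) := (hf.cont.comp (cX.prodMk cX')).sub (hm.comp cX')
  have cc := chi2_cont a T n n
  have c1 : Continuous (fun p : ℝ × ℝ => φ (p.2, p.1) *
      (f (X a p.1 (n + 1) p.2, X a p.1 n p.2) - mn f (X a p.1 n p.2))) := cφ.mul ch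
  have c2 : Continuous (fun p : ℝ × ℝ => chi a T p.1 n n p.2 * φ (p.2, p.1) *
      (f (X a p.1 (n + 1) p.2, X a p.1 n p.2) - mn f (X a p.1 n p.2))) := (cc.mul cφ).mul ch
  have c3 : Continuous (fun p : ℝ × ℝ => 2 * (1 - chi a T p.1 n n p.2)) :=
    continuous_const.mul (continuous_const.sub cc)
  have cs : ∀ s : ℝ, Continuous (fun t : ℝ => ((s, t) : ℝ × ℝ)) := fun s => by fun_prop
  have hmn : ∀ v, |mn f v| ≤ 1 := fun v => by
    unfold mn
    have := intervalIntegral.norm_integral_le_of_norm_le_const (a := 0) (b := 1) (C := 1)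
      (f := fun w => f (w, v)) (fun w _ => hf1 (w, v))
    simpa using this
  set c : ℝ := 82 * KK * π ^ 2 with hc
  have hc0 : 0 ≤ c := by positivity
  have c4 : ∀ k, Continuous (fun p : ℝ × ℝ => ck a T p.1 n q k p.2) := fun k =>
    ck2_cont hT hq n k
  -- the difference at fixed `s`
  have hs : ∀ s : ℝ, |∫ t in (0:ℝ)..1, φ (t, s) *
      (f (X a s (n + 1) t, X a s n t) - mn f (X a s n t))| ≤
      (∫ t in (0:ℝ)..1, 2 * (1 - chi a T s n n t)) +
        (c * (∑ k ∈ Finset.range n, ∫ t in (0:ℝ)..1, ck a T s n q k t) + K / q ^ n +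
        M * (12 / 11 / T (n - 1))) := by
    intro s
    have h1 := core_s s hT hTm hq hqT hn hφ hf hφ1 hφK hf1 hfM (a := a)
    have i1 : IntervalIntegrable (fun t => φ (t, s) *
      (f (X a s (n + 1) t, X a s n t) - mn f (X a s n t))) volume 0 1 :=
      (c1.comp (cs s)).intervalIntegrable _ _
    have i2 : IntervalIntegrable (fun t => chi a T s n n t * φ (t, s) *
      (f (X a s (n + 1) t, X a s n t) - mn f (X a s n t))) volume 0 1 :=
      (c2.comp (cs s)).intervalIntegrable _ _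
    have h2 : ∫ t in (0:ℝ)..1, φ (t, s) *
        (f (X a s (n + 1) t, X a s n t) - mn f (X a s n t)) =
        (∫ t in (0:ℝ)..1, (φ (t, s) * (f (X a s (n + 1) t, X a s n t) - mn f (X a s n t)) -
          chi a T s n n t * φ (t, s) *
            (f (X a s (n + 1) t, X a s n t) - mn f (X a s n t)))) +
        ∫ t in (0:ℝ)..1, chi a T s n n t * φ (t, s) *
          (f (X a s (n + 1) t, X a s n t) - mn f (X a s n t)) := by
      rw [intervalIntegral.integral_sub i1 i2]
      ring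
    rw [h2]
    refine (abs_add_le _ _).trans (add_le_add ?_ h1)
    have h3 : ‖∫ t in (0:ℝ)..1, (φ (t, s) * (f (X a s (n + 1) t, X a s n t) - mn f (X a s n t)) -
          chi a T s n n t * φ (t, s) *
            (f (X a s (n + 1) t, X a s n t) - mn f (X a s n t)))‖ ≤
        |∫ t in (0:ℝ)..1, 2 * (1 - chi a T s n n t)| := by
      apply intervalIntegral.norm_integral_le_abs_of_norm_le
      · refine Filter.Eventually.of_forall fun t => ?_
        have h4 := chi_mem a T s n n t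
        have h5 : |f (X a s (n + 1) t, X a s n t) - mn f (X a s n t)| ≤ 2 := by
          have := abs_sub (f (X a s (n + 1) t, X a s n t)) (mn f (X a s n t))
          have := hf1 (X a s (n + 1) t, X a s n t)
          have := hmn (X a s n t)
          linarith
        rw [norm_eq_abs]
        have e : φ (t, s) * (f (X a s (n + 1) t, X a s n t) - mn f (X a s n t)) -
          chi a T s n n t * φ (t, s) *
            (f (X a s (n + 1) t, X a s n t) - mn f (X a s n t)) =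
            (1 - chi a T s n n t) * (φ (t, s) *
            (f (X a s (n + 1) t, X a s n t) - mn f (X a s n t))) := by ring
        rw [e, abs_mul, abs_of_nonneg (by linarith : 0 ≤ 1 - chi a T s n n t), abs_mul]
        have h6 := hφ1 (t, s)
        have h7 : |φ (t, s)| * |f (X a s (n + 1) t, X a s n t) - mn f (X a s n t)| ≤ 1 * 2 :=
          mul_le_mul h6 h5 (abs_nonneg _) zero_le_one
        calc _ ≤ (1 - chi a T s n n t) * (1 * 2) :=
              mul_le_mul_of_nonneg_left h7 (by linarith)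
          _ = _ := by ring
      · exact (c3.comp (cs s)).intervalIntegrable _ _
    rw [norm_eq_abs] at h3
    have h5 : 0 ≤ ∫ t in (0:ℝ)..1, 2 * (1 - chi a T s n n t) :=
      intervalIntegral.integral_nonneg zero_le_one fun t _ => by
        have := chi_mem a T s n n t
        linarith
    rwa [abs_of_nonneg h5] at h3
  -- integration over `s`
  have cI : ∀ k, Continuous (fun s => ∫ t in (0:ℝ)..1, ck a T s n q k t) := fun k =>
    param_cont (c4 k)
  have cS : Continuous (fun s => ∑ k ∈ Finset.range n, ∫ t in (0:ℝ)..1, ck a T s n q k t) :=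
    continuous_finsetSum _ fun k _ => cI k
  have cJ : Continuous (fun s => ∫ t in (0:ℝ)..1, 2 * (1 - chi a T s n n t)) := param_cont c3
  have h6 : |∫ s in (0:ℝ)..1, ∫ t in (0:ℝ)..1, φ (t, s) *
      (f (X a s (n + 1) t, X a s n t) - mn f (X a s n t))| ≤ ∫ s in (0:ℝ)..1,
      ((∫ t in (0:ℝ)..1, 2 * (1 - chi a T s n n t)) +
        (c * (∑ k ∈ Finset.range n, ∫ t in (0:ℝ)..1, ck a T s n q k t) + K / q ^ n +
        M * (12 / 11 / T (n - 1)))) := by
    have cR : Continuous (fun s => (∫ t in (0:ℝ)..1, 2 * (1 - chi a T s n n t)) +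
        (c * (∑ k ∈ Finset.range n, ∫ t in (0:ℝ)..1, ck a T s n q k t) + K / q ^ n +
        M * (12 / 11 / T (n - 1)))) :=
      cJ.add (((cS.const_mul _).add continuous_const).add continuous_const)
    have h7 := intervalIntegral.norm_integral_le_abs_of_norm_le (μ := volume)
      (f := fun s => ∫ t in (0:ℝ)..1, φ (t, s) *
      (f (X a s (n + 1) t, X a s n t) - mn f (X a s n t))) (a := 0) (b := 1)
      (Filter.Eventually.of_forall fun s => hs s) (cR.intervalIntegrable 0 1)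
    rw [norm_eq_abs] at h7
    refine h7.trans (le_of_eq (abs_of_nonneg ?_))
    exact intervalIntegral.integral_nonneg zero_le_one fun s _ => (abs_nonneg _).trans (hs s)
  refine h6.trans ?_
  have icst : ∀ r : ℝ, IntervalIntegrable (fun _ : ℝ => r) volume 0 1 := fun r =>
    continuous_const.intervalIntegrable 0 1
  have iS := (cS.const_mul c).intervalIntegrable 0 1 (μ := volume)
  rw [intervalIntegral.integral_add (cJ.intervalIntegrable _ _) ((iS.add (icst _)).add (icst _)),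
    intervalIntegral.integral_add (iS.add (icst _)) (icst _),
    intervalIntegral.integral_add iS (icst _), intervalIntegral.integral_const_mul,
    intervalIntegral.integral_finsetSum (fun k _ => (cI k).intervalIntegrable _ _)]
  simp only [intervalIntegral.integral_const_mul]
  have h8 := exp_chi ha hT hn
  have h9 : ∑ k ∈ Finset.range n, ∫ s in (0:ℝ)..1, ∫ t in (0:ℝ)..1, ck a T s n q k t ≤
      Sz T q n := by
    unfold Sz
    apply Finset.sum_le_sum
    intro k hk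
    rw [Finset.mem_range] at hk
    exact exp_ck ha hT hq hk
  have h10 := mul_le_mul_of_nonneg_left h9 hc0
  simp only [intervalIntegral.integral_const, sub_zero, one_smul]
  unfold Err
  linarith

theorem dbl_add {f g : ℝ × ℝ → ℝ} (hf : Continuous f) (hg : Continuous g) :
    ∫ s in (0:ℝ)..1, ∫ t in (0:ℝ)..1, (f (s, t) + g (s, t)) =
      (∫ s in (0:ℝ)..1, ∫ t in (0:ℝ)..1, f (s, t)) +
        ∫ s in (0:ℝ)..1, ∫ t in (0:ℝ)..1, g (s, t) := by
  rw [← intervalIntegral.integral_add ((param_cont hf).intervalIntegrable _ _)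
    ((param_cont hg).intervalIntegrable _ _)]
  apply intervalIntegral.integral_congr
  intro s _
  have cs : Continuous (fun t : ℝ => ((s, t) : ℝ × ℝ)) := by fun_prop
  exact intervalIntegral.integral_add ((hf.comp cs).intervalIntegrable _ _)
    ((hg.comp cs).intervalIntegrable _ _)

/-- **decorrelation** -/
theorem decor {a T : ℕ → ℝ} (ha : ∀ k, 1 ≤ |a k|) (hT : ∀ k, 16 ≤ T k)
    (hTm : ∀ k, T k ≤ T (k + 1)) {q : ℝ}
    (hq : 1 ≤ q) (hqT : ∀ k, q ^ 2 ≤ 9 / 16 * T k) {n : ℕ} (hn : 1 ≤ n) {φ f : ℝ × ℝ → ℝ}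
    (hφ : Obs φ) (hf : Obs f) (hφ1 : ∀ p, |φ p| ≤ 1) {K : ℝ} (hφK : ∀ p, |d1 φ p| ≤ K)
    (hf1 : ∀ p, |f p| ≤ 1) {M : ℝ} (hfM : ∀ p, |d2 f p| ≤ M) :
    |(∫ s in (0:ℝ)..1, ∫ t in (0:ℝ)..1, φ (t, s) * f (X a s (n + 2) t, X a s (n + 1) t)) -
      (∫ s in (0:ℝ)..1, ∫ t in (0:ℝ)..1, φ (t, s)) *
        (∫ s in (0:ℝ)..1, ∫ t in (0:ℝ)..1, f (t, s))| ≤
      Err a T q K M (n + 1) + Err a T q K 0 n := by
  set g : ℝ × ℝ → ℝ := fun p => mn f p.1 with hg
  have hgO : Obs g := by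
    refine ⟨?_, ?_, ?_⟩
    · have h1 : ContDiff ℝ 1 (mn f) := by
        rw [contDiff_one_iff_deriv]
        refine ⟨fun v => (hf.mn_hasDeriv v).differentiableAt, ?_⟩
        have e : deriv (mn f) = mn (d2 f) := funext fun v => (hf.mn_hasDeriv v).deriv
        rw [e]
        exact mn_cont hf.d2_cont
      exact h1.comp contDiff_fst
    · intro x y
      show mn f (x + 1) = mn f x
      unfold mn
      simp only [hf.per2]
    · intro x y
      rfl
  have hg1 : ∀ p, |g p| ≤ 1 := fun p => by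
    show |mn f p.1| ≤ 1
    unfold mn
    have := intervalIntegral.norm_integral_le_of_norm_le_const (a := 0) (b := 1) (C := 1)
      (f := fun w => f (w, p.1)) (fun w _ => hf1 (w, p.1))
    simpa using this
  have hgd : ∀ p, |d2 g p| ≤ 0 := by
    rintro ⟨x, y⟩
    have h1 := hgO.hasDeriv2 x y
    have h2 : HasDerivAt (fun y => g (x, y)) 0 y := hasDerivAt_const y (mn f x)
    rw [h1.unique h2, abs_zero]
  have h1 := core ha hT hTm hq hqT (show 1 ≤ n + 1 by omega) hφ hf hφ1 hφK hf1 hfM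
  have h2 := core ha hT hTm hq hqT hn hφ hgO hφ1 hφK hg1 hgd
  -- the mean of `g`
  set m0 : ℝ := ∫ s in (0:ℝ)..1, ∫ t in (0:ℝ)..1, f (t, s) with hm0
  have hmg : ∀ v, mn g v = m0 := fun v => rfl
  have hgX : ∀ s t, g (X a s (n + 1) t, X a s n t) = mn f (X a s (n + 1) t) := fun s t => rfl
  simp only [hmg, hgX] at h2
  have cs : ∀ s : ℝ, Continuous (fun t : ℝ => ((s, t) : ℝ × ℝ)) := fun s => by fun_prop
  have cφ : Continuous (fun p : ℝ × ℝ => φ (p.2, p.1)) := hφ.cont.comp (by fun_prop)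
  have cf : Continuous (fun p : ℝ × ℝ => f (X a p.1 (n + 2) p.2, X a p.1 (n + 1) p.2)) :=
    hf.cont.comp ((X_cont a (n + 2)).prodMk (X_cont a (n + 1)))
  have cm : Continuous (fun p : ℝ × ℝ => mn f (X a p.1 (n + 1) p.2)) :=
    (mn_cont hf.cont).comp (X_cont a (n + 1))
  have k1 : Continuous (fun p : ℝ × ℝ => φ (p.2, p.1) *
      (f (X a p.1 (n + 2) p.2, X a p.1 (n + 1) p.2) - mn f (X a p.1 (n + 1) p.2))) :=
    cφ.mul (cf.sub cm)
  have k2 : Continuous (fun p : ℝ × ℝ => φ (p.2, p.1) * (mn f (X a p.1 (n + 1) p.2) - m0)) :=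
    cφ.mul (cm.sub continuous_const)
  have k3 : Continuous (fun p : ℝ × ℝ => φ (p.2, p.1) * m0) := cφ.mul continuous_const
  have e : ∫ s in (0:ℝ)..1, ∫ t in (0:ℝ)..1, φ (t, s) * f (X a s (n + 2) t, X a s (n + 1) t) =
      (∫ s in (0:ℝ)..1, ∫ t in (0:ℝ)..1, φ (t, s) *
        (f (X a s (n + 2) t, X a s (n + 1) t) - mn f (X a s (n + 1) t))) +
      (∫ s in (0:ℝ)..1, ∫ t in (0:ℝ)..1, φ (t, s) * (mn f (X a s (n + 1) t) - m0)) +
      (∫ s in (0:ℝ)..1, ∫ t in (0:ℝ)..1, φ (t, s)) * m0 := by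
    have e1 := dbl_add k1 k2
    have k12 : Continuous (fun p : ℝ × ℝ => φ (p.2, p.1) *
        (f (X a p.1 (n + 2) p.2, X a p.1 (n + 1) p.2) - mn f (X a p.1 (n + 1) p.2)) +
        φ (p.2, p.1) * (mn f (X a p.1 (n + 1) p.2) - m0)) := k1.add k2
    have e2 := dbl_add k12 k3
    have e3 : ∫ s in (0:ℝ)..1, ∫ t in (0:ℝ)..1, φ (t, s) * m0 =
        (∫ s in (0:ℝ)..1, ∫ t in (0:ℝ)..1, φ (t, s)) * m0 := by
      simp only [intervalIntegral.integral_mul_const]
    rw [← e3]
    simp only at e1 e2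
    rw [← e1, ← e2]
    apply intervalIntegral.integral_congr
    intro s _
    apply intervalIntegral.integral_congr
    intro t _
    simp only
    ring
  rw [e, add_sub_cancel_right]
  exact (abs_add_le _ _).trans (add_le_add h1 h2)

end Pool.Agent.U785.ST
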