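import Mathlib
import Pool.Agent.U785.ST.Core

set_option autoImplicit false

/-!
# Decorrelation for a fixed parameter, up to times `|a| ^ (2 - ε)`
-/

namespace Pool.Agent.U785.ST

open Real MeasureTheory
open Pool.Agent.TH705.SM (L L_cont L_period T2 S S_mp S_cont S_coe int_T2 integrable_cont KK KK_one)

/-- a continuously differentiable observable on the torus with bounds -/
structure TObs (f : T2 → ℝ) (K : ℝ) : Prop where
  smooth : ContDiff ℝ 1 (fun p : ℝ × ℝ => f ((p.1 : UnitAddCircle), (p.2 : UnitAddCircle)))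
  bound : ∀ p, |f p| ≤ 1
  der : ∀ p : ℝ × ℝ,
    ‖fderiv ℝ (fun p : ℝ × ℝ => f ((p.1 : UnitAddCircle), (p.2 : UnitAddCircle))) p‖ ≤ K

/-- the lift -/
def lft (f : T2 → ℝ) (p : ℝ × ℝ) : ℝ := f ((p.1 : UnitAddCircle), (p.2 : UnitAddCircle))

theorem TObs.nonneg {f : T2 → ℝ} {K : ℝ} (h : TObs f K) : 0 ≤ K :=
  (norm_nonneg _).trans (h.der 0)

theorem TObs.obs {f : T2 → ℝ} {K : ℝ} (h : TObs f K) : Obs (lft f) := by
  refine ⟨h.smooth, fun x y => ?_, fun x y => ?_⟩
  · show f (((x + 1 : ℝ) : UnitAddCircle), _) = _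
    rw [AddCircle.coe_add, AddCircle.coe_period, add_zero]
    rfl
  · show f (_, ((y + 1 : ℝ) : UnitAddCircle)) = _
    rw [AddCircle.coe_add, AddCircle.coe_period, add_zero]
    rfl

theorem TObs.d1_le {f : T2 → ℝ} {K : ℝ} (h : TObs f K) (p : ℝ × ℝ) : |d1 (lft f) p| ≤ K := by
  have h1 := (fderiv ℝ (lft f) p).le_opNorm (1, 0)
  have h2 : ‖((1, 0) : ℝ × ℝ)‖ = 1 := by simp [Prod.norm_def]
  rw [h2, mul_one] at h1
  exact h1.trans (h.der p)

theorem TObs.d2_le {f : T2 → ℝ} {K : ℝ} (h : TObs f K) (p : ℝ × ℝ) : |d2 (lft f) p| ≤ K := by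
  have h1 := (fderiv ℝ (lft f) p).le_opNorm (0, 1)
  have h2 : ‖((0, 1) : ℝ × ℝ)‖ = 1 := by simp [Prod.norm_def]
  rw [h2, mul_one] at h1
  exact h1.trans (h.der p)

theorem TObs.cont {f : T2 → ℝ} {K : ℝ} (h : TObs f K) : Continuous f := by
  have h1 : Continuous (lft f) := h.smooth.continuous
  have hq : IsOpenQuotientMap (fun p : ℝ × ℝ => ((p.1 : UnitAddCircle), (p.2 : UnitAddCircle))) :=
    IsOpenQuotientMap.prodMap (QuotientAddGroup.isOpenQuotientMap_mk)
      (QuotientAddGroup.isOpenQuotientMap_mk)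
  exact hq.isQuotientMap.continuous_iff.2 h1

/-- decorrelation on the torus -/
theorem decorT {a T : ℕ → ℝ} (ha : ∀ k, 1 ≤ |a k|) (hT : ∀ k, 16 ≤ T k)
    (hTm : ∀ k, T k ≤ T (k + 1)) {q : ℝ}
    (hq : 1 ≤ q) (hqT : ∀ k, q ^ 2 ≤ 9 / 16 * T k) {n : ℕ} (hn : 1 ≤ n) {φ f : T2 → ℝ} {K M : ℝ}
    (hφ : TObs φ K) (hf : TObs f M) :
    |(∫ p, φ p * f (Fs a (n + 1) p)) - (∫ p, φ p) * (∫ p, f p)| ≤
      Err a T q K M (n + 1) + Err a T q K 0 n := by
  have h1 := decor ha hT hTm hq hqT hn hφ.obs hf.obs (fun p => hφ.bound _) hφ.d1_le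
    (fun p => hf.bound _) hf.d2_le
  have hφc := hφ.cont
  have hfc := hf.cont
  have e1 : ∫ p, φ p * f (Fs a (n + 1) p) =
      ∫ s in (0:ℝ)..1, ∫ t in (0:ℝ)..1, lft φ (t, s) * lft f (X a s (n + 2) t, X a s (n + 1) t) := by
    have c : Continuous (fun p => φ p * f (Fs a (n + 1) p)) :=
      hφc.mul (hfc.comp (Fs_cont a (n + 1)))
    rw [int_T2 _ (integrable_cont c)]
    simp only [Fs_coe]
    rfl
  have e2 : ∫ p, φ p = ∫ s in (0:ℝ)..1, ∫ t in (0:ℝ)..1, lft φ (t, s) :=
    int_T2 _ (integrable_cont hφc)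
  have e3 : ∫ p, f p = ∫ s in (0:ℝ)..1, ∫ t in (0:ℝ)..1, lft f (t, s) :=
    int_T2 _ (integrable_cont hfc)
  rw [e1, e2, e3]
  exact h1

theorem Sz_le {T : ℕ → ℝ} {τ : ℝ} (hτ : 0 < τ) (hT : ∀ k, τ ≤ T k) {q : ℝ} (hq : 3 ≤ q) (n : ℕ) :
    Sz T q n ≤ 4 / τ := by
  have key : ∀ n : ℕ, ∑ k ∈ Finset.range n, (1 / 3 : ℝ) ^ (n - (k + 3)) ≤ 4 := by
    intro n
    rcases Nat.lt_or_ge n 3 with h | h
    · interval_cases n <;> norm_num [Finset.sum_range_succ]
    · obtain ⟨m, rfl⟩ := Nat.exists_eq_add_of_le' h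
      rw [Finset.sum_range_succ, Finset.sum_range_succ, Finset.sum_range_succ]
      have e1 : m + 3 - (m + 3) = 0 := by omega
      have e2 : m + 3 - (m + 1 + 3) = 0 := by omega
      have e3 : m + 3 - (m + 2 + 3) = 0 := by omega
      rw [e1, e2, e3]
      have h1 : ∑ k ∈ Finset.range m, (1 / 3 : ℝ) ^ (m + 3 - (k + 3)) =
          ∑ k ∈ Finset.range m, (1 / 3 : ℝ) ^ (m - k) := by
        apply Finset.sum_congr rfl
        intro k _
        congr 1
        omega
      rw [h1]
      have h2 : ∑ k ∈ Finset.range m, (1 / 3 : ℝ) ^ (m - k) ≤ 1 / 2 := by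
        have h3 := Finset.sum_range_reflect (fun k => (1 / 3 : ℝ) ^ (k + 1)) m
        have h4 : ∑ k ∈ Finset.range m, (1 / 3 : ℝ) ^ (m - k) =
            ∑ k ∈ Finset.range m, (1 / 3 : ℝ) ^ (m - 1 - k + 1) := by
          apply Finset.sum_congr rfl
          intro k hk
          rw [Finset.mem_range] at hk
          congr 1
          omega
        rw [h4, h3]
        simp only [pow_succ]
        rw [← Finset.sum_mul, geom_sum_eq (by norm_num)]
        have : (0:ℝ) ≤ (1 / 3) ^ m := by positivity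
        have e5 : ((1 / 3 : ℝ) ^ m - 1) / (1 / 3 - 1) * (1 / 3) = (1 - (1 / 3) ^ m) / 2 := by
          norm_num
          ring
        rw [e5]
        linarith
      norm_num
      linarith
  unfold Sz
  calc _ ≤ ∑ k ∈ Finset.range n, 1 / τ * (1 / 3 : ℝ) ^ (n - (k + 3)) := by
        apply Finset.sum_le_sum
        intro k _
        have h1 : τ * 3 ^ (n - (k + 3)) ≤ T k * q ^ (n - (k + 3)) := by
          have h2 := hT k
          have h3 : (3:ℝ) ^ (n - (k + 3)) ≤ q ^ (n - (k + 3)) :=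
            pow_le_pow_left₀ (by norm_num) hq _
          have h4 : (0:ℝ) < 3 ^ (n - (k + 3)) := by positivity
          exact mul_le_mul h2 h3 h4.le (by linarith)
        calc 1 / (T k * q ^ (n - (k + 3))) ≤ 1 / (τ * 3 ^ (n - (k + 3))) :=
              one_div_le_one_div_of_le (by positivity) h1
          _ = _ := by
              rw [one_div_pow]
              field_simp
    _ = 1 / τ * ∑ k ∈ Finset.range n, (1 / 3 : ℝ) ^ (n - (k + 3)) := by rw [Finset.mul_sum]
    _ ≤ 1 / τ * 4 := by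
        apply mul_le_mul_of_nonneg_left (key n)
        positivity
    _ = _ := by ring

/-- the composition for a constant sequence -/
theorem Fs_const (a : ℝ) (n : ℕ) : Fs (fun _ => a) n = (S a)^[n] := by
  induction n with
  | zero => rfl
  | succ n ih =>
    show S a ∘ Fs (fun _ => a) n = _
    rw [ih, Function.iterate_succ']

/-- the basic error -/
noncomputable def dl (a : ℝ) (n : ℕ) : ℝ := 1 / √|a| + √n / |a|

/-- the basic error with the logarithm -/
noncomputable def rt (a : ℝ) (n : ℕ) : ℝ := (1 + log |a|) * (1 / √|a| + √n / |a|)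

/-- the constant -/
noncomputable def C0 : ℝ := 100 + 656 * KK * π ^ 2

theorem bz_const {A τ : ℝ} (hA : 1 ≤ A) (hτ : 16 ≤ τ) {x y : ℝ} (hx : A ≤ |x|) (hy : A ≤ |y|) :
    τ / (π * |x| * |y|) * log (1 + 4 * π * |x| * |y| / τ) ≤ τ / A ^ 2 * (1 + log A) := by
  have hpi := pi_pos
  have hpi3 := pi_gt_three
  have hpi4 := pi_lt_four
  have hx0 : 0 < |x| := by linarith
  have hy0 : 0 < |y| := by linarith
  have hxy : A ^ 2 ≤ |x| * |y| := by nlinarith
  set r : ℝ := |x| * |y| / A ^ 2 with hr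
  have hA0 : 0 < A ^ 2 := by positivity
  have hr1 : 1 ≤ r := by
    rw [hr, le_div_iff₀ hA0]
    linarith
  have hlA : 0 ≤ log A := log_nonneg hA
  have e1 : |x| * |y| = r * A ^ 2 := by
    rw [hr]
    field_simp
  have e2 : τ / (π * |x| * |y|) = τ / A ^ 2 * (1 / (π * r)) := by
    rw [mul_assoc π, e1]
    field_simp
  rw [e2, mul_assoc]
  apply mul_le_mul_of_nonneg_left _ (by positivity)
  have h1 : log (1 + 4 * π * |x| * |y| / τ) ≤ r + 2 * log A := by
    have h2 : 1 + 4 * π * |x| * |y| / τ ≤ 2 * (r * A ^ 2) := by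
      rw [mul_assoc (4 * π), e1]
      have h3 : 4 * π * (r * A ^ 2) / τ ≤ r * A ^ 2 := by
        rw [div_le_iff₀ (by linarith)]
        have : 0 ≤ r * A ^ 2 := by positivity
        nlinarith
      have h4 : 1 ≤ r * A ^ 2 := one_le_mul_of_one_le_of_one_le hr1 (one_le_pow₀ hA)
      linarith
    have h5 : 0 < 1 + 4 * π * |x| * |y| / τ := by positivity
    calc log (1 + 4 * π * |x| * |y| / τ) ≤ log (2 * (r * A ^ 2)) := log_le_log h5 h2
      _ = log (2 * r) + 2 * log A := by
          rw [← mul_assoc, log_mul (by positivity) (by positivity), log_pow]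
          norm_num
      _ ≤ r + 2 * log A := by
          have h6 : log (2 * r) ≤ r := by
            have h7 := add_one_le_exp (r - 1)
            have h8 : log (2 * r) ≤ log (exp r) := by
              apply log_le_log (by positivity)
              have h9 : exp r = exp (r - 1) * exp 1 := by rw [← exp_add]; ring_nf
              rw [h9]
              have h10 := add_one_le_exp (1:ℝ)
              nlinarith
            rwa [log_exp] at h8
          linarith
  rw [div_mul_eq_mul_div, one_mul, div_le_iff₀ (by positivity)]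
  have h2 : 0 ≤ (1 + log A) * r * (π - 3) :=
    mul_nonneg (mul_nonneg (by linarith) (by linarith)) (by linarith)
  have h3 : 0 ≤ log A * (r - 1) := mul_nonneg hlA (by linarith)
  nlinarith

theorem Err_le {a T : ℕ → ℝ} {A τ : ℝ} (hA : 1 ≤ A) (ha : ∀ k, A ≤ |a k|) (hτ : 16 ≤ τ)
    (hT : ∀ k, T k = τ) {K M : ℝ} (hM : 0 ≤ M) {n N : ℕ} (hn : n ≤ N + 1) :
    Err a T (3 / 4 * √τ) K M n ≤
      6 * (N * (τ / A ^ 2 * (1 + log A)) + τ / A) + 328 * KK * π ^ 2 / τ + K / (3 / 4 * √τ) ^ n +
        2 * M / τ := by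
  have hK := KK_one
  have hτ0 : 0 < τ := by linarith
  have hsq : 4 ≤ √τ := by
    apply Real.le_sqrt_of_sq_le
    linarith
  have h1 : Bz a T n ≤ 3 * (N * (τ / A ^ 2 * (1 + log A)) + τ / A) := by
    unfold Bz
    apply mul_le_mul_of_nonneg_left _ (by norm_num)
    refine add_le_add ?_ ?_
    · calc ∑ k ∈ Finset.range (n - 1), bz a T k ≤
            ∑ k ∈ Finset.range (n - 1), τ / A ^ 2 * (1 + log A) := by
            apply Finset.sum_le_sum
            intro k _
            unfold bz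
            rw [hT k]
            exact bz_const hA hτ (ha k) (ha (k + 1))
        _ = ((n - 1 : ℕ) : ℝ) * (τ / A ^ 2 * (1 + log A)) := by
            rw [Finset.sum_const, Finset.card_range, nsmul_eq_mul]
        _ ≤ _ := by
            have h2 : ((n - 1 : ℕ) : ℝ) ≤ N := by
              exact_mod_cast (by omega : n - 1 ≤ N)
            have h3 : 0 ≤ log A := log_nonneg hA
            apply mul_le_mul_of_nonneg_right h2
            positivity
    · rw [hT]
      apply div_le_div_of_nonneg_left hτ0.le (by linarith) (ha _)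
  have h2 : Sz T (3 / 4 * √τ) n ≤ 4 / τ :=
    Sz_le hτ0 (fun k => (hT k).ge) (by linarith) n
  unfold Err
  rw [hT]
  have h3 : 82 * KK * π ^ 2 * Sz T (3 / 4 * √τ) n ≤ 328 * KK * π ^ 2 / τ := by
    calc _ ≤ 82 * KK * π ^ 2 * (4 / τ) := mul_le_mul_of_nonneg_left h2 (by positivity)
      _ = _ := by ring
  have h4 : M * (12 / 11 / τ) ≤ 2 * M / τ := by
    rw [← mul_div_assoc]
    apply div_le_div_of_nonneg_right _ hτ0.le
    linarith
  linarith

/-- **decorrelation up to times `|a| ^ (2 - ε)`** -/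
theorem fixed {A : ℝ} (hA : 1 ≤ A) {a : ℕ → ℝ} (ha : ∀ k, A ≤ |a k|) {n : ℕ} (hn : 1 ≤ n)
    {φ f : T2 → ℝ} {K M : ℝ} (hφ : TObs φ K) (hf : TObs f M) :
    |(∫ p, φ p * f (Fs a (n + 1) p)) - (∫ p, φ p) * (∫ p, f p)| ≤
      C0 * (1 + M) * ((1 + log A) * (1 / √A + √n / A)) +
        2 * K * (4 / 3 * √(1 / √A + √n / A)) ^ n := by
  have hK := KK_one
  have hpi := pi_pos
  have hA0 : 0 < A := by linarith
  have hsA : 0 < √A := Real.sqrt_pos.2 hA0
  have hn0 : (1:ℝ) ≤ n := by exact_mod_cast hn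
  have hsn : 1 ≤ √n := Real.one_le_sqrt.2 hn0
  have hlA : 0 ≤ log A := log_nonneg hA
  have hK0 := hφ.nonneg
  have hM0 := hf.nonneg
  set δ : ℝ := 1 / √A + √n / A with hδ
  have hδ0 : 0 < δ := by positivity
  have hC0 : 100 ≤ C0 := by
    unfold C0
    have : 0 ≤ 656 * KK * π ^ 2 := by positivity
    linarith
  by_cases hcase : δ ≤ 1 / 16
  · have h1 : 1 / √A ≤ 1 / 16 := by
      have : 0 ≤ √n / A := by positivity
      linarith
    have h2 : √n / A ≤ 1 / 16 := by
      have : 0 ≤ 1 / √A := by positivity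
      linarith
    have h3 : 16 ≤ √A := by
      rw [div_le_div_iff₀ hsA (by norm_num)] at h1
      linarith
    have h4 : 16 ≤ A / √n := by
      rw [div_le_div_iff₀ hA0 (by norm_num)] at h2
      rw [le_div_iff₀ (by linarith)]
      linarith
    set τ : ℝ := min (√A) (A / √n) with hτdef
    have hτ : 16 ≤ τ := le_min h3 h4
    have hτ0 : 0 < τ := by linarith
    have hAs : √A * √A = A := Real.mul_self_sqrt hA0.le
    have h5 : 1 / τ ≤ δ := by
      rcases min_choice (√A) (A / √n) with h | h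
      · rw [hτdef, h, hδ]
        have : 0 ≤ √n / A := by positivity
        linarith
      · rw [hτdef, h, hδ, one_div_div]
        have : 0 ≤ 1 / √A := by positivity
        linarith
    have h6 : τ / A ≤ δ := by
      have h7 : τ / A ≤ √A / A := div_le_div_of_nonneg_right (min_le_left _ _) hA0.le
      have h8 : √A / A = 1 / √A := by
        rw [div_eq_div_iff hA0.ne' hsA.ne', hAs, one_mul]
      have : 0 ≤ √n / A := by positivity
      rw [h8] at h7
      linarith
    have h7 : n * (τ / A ^ 2 * (1 + log A)) ≤ (1 + log A) * δ := by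
      have h8 : n * (τ / A ^ 2) ≤ √n / A := by
        have h9 : τ ≤ A / √n := min_le_right _ _
        have h10 : (n:ℝ) = √n * √n := (Real.mul_self_sqrt (by linarith)).symm
        calc n * (τ / A ^ 2) ≤ n * (A / √n / A ^ 2) := by gcongr
          _ = √n / A := by
              rw [h10]
              rw [Real.sqrt_mul_self (Real.sqrt_nonneg _)]
              field_simp
      calc n * (τ / A ^ 2 * (1 + log A)) = (1 + log A) * (n * (τ / A ^ 2)) := by ring
        _ ≤ (1 + log A) * δ := by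
            apply mul_le_mul_of_nonneg_left _ (by linarith)
            have : 0 ≤ 1 / √A := by positivity
            linarith
    have hsq : 4 ≤ √τ := by
      apply Real.le_sqrt_of_sq_le
      linarith
    have hqq : (3 / 4 * √τ) ^ 2 = 9 / 16 * τ := by
      rw [mul_pow, Real.sq_sqrt hτ0.le]
      norm_num
    have h8 := decorT (a := a) (T := fun _ => τ) (fun k => hA.trans (ha k)) (fun _ => hτ)
      (fun _ => le_rfl) (q := 3 / 4 * √τ) (by linarith) (fun _ => hqq.le) hn hφ hf
    have h9 := Err_le hA ha hτ (T := fun _ => τ) (fun _ => rfl) (K := K) hM0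
      (le_refl (n + 1)) (N := n)
    have h10 := Err_le hA ha hτ (T := fun _ => τ) (fun _ => rfl) (K := K) le_rfl
      (by omega : n ≤ n + 1) (N := n) (M := 0)
    refine h8.trans ((add_le_add h9 h10).trans ?_)
    -- the powers
    have hq : 1 / (3 / 4 * √τ) ≤ 4 / 3 * √δ := by
      have h11 : 1 / √τ ≤ √δ := by
        have e : 1 / √τ = √(1 / τ) := by rw [Real.sqrt_div zero_le_one, Real.sqrt_one]
        rw [e]
        exact Real.sqrt_le_sqrt h5
      calc 1 / (3 / 4 * √τ) = 4 / 3 * (1 / √τ) := by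
            field_simp
        _ ≤ _ := mul_le_mul_of_nonneg_left h11 (by norm_num)
    have hp : K / (3 / 4 * √τ) ^ n ≤ K * (4 / 3 * √δ) ^ n := by
      rw [div_eq_mul_one_div, ← one_div_pow]
      apply mul_le_mul_of_nonneg_left _ hK0
      apply pow_le_pow_left₀ (by positivity) hq
    have hp1 : K / (3 / 4 * √τ) ^ (n + 1) ≤ K / (3 / 4 * √τ) ^ n := by
      apply div_le_div_of_nonneg_left hK0 (by positivity)
      apply pow_le_pow_right₀ (by linarith) (by omega)
    have h11 : 328 * KK * π ^ 2 / τ ≤ 328 * KK * π ^ 2 * δ := by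
      calc 328 * KK * π ^ 2 / τ = 328 * KK * π ^ 2 * (1 / τ) := by ring
        _ ≤ _ := mul_le_mul_of_nonneg_left h5 (by positivity)
    have h12 : 2 * M / τ ≤ 2 * M * δ := by
      calc 2 * M / τ = 2 * M * (1 / τ) := by ring
        _ ≤ _ := mul_le_mul_of_nonneg_left h5 (by positivity)
    have h13 : 2 * 0 / τ = 0 := by simp
    rw [h13]
    set Λ := (1 + log A) * δ with hΛ
    have hΛδ : δ ≤ Λ := by
      rw [hΛ]
      nlinarith
    have hKδ : 328 * KK * π ^ 2 * δ ≤ 328 * KK * π ^ 2 * Λ :=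
      mul_le_mul_of_nonneg_left hΛδ (by positivity)
    have hMδ : 2 * M * δ ≤ 2 * M * Λ := mul_le_mul_of_nonneg_left hΛδ (by positivity)
    have hΛ0 : 0 ≤ Λ := by linarith
    have hfin : 24 * Λ + 656 * KK * π ^ 2 * Λ + 2 * M * Λ ≤ C0 * (1 + M) * Λ := by
      unfold C0
      have : 0 ≤ KK * π ^ 2 * M * Λ := by positivity
      have : 0 ≤ M * Λ := by positivity
      nlinarith
    linarith
  · rw [not_le] at hcase
    have hφc := hφ.cont
    have hfc := hf.cont
    have h1 : |∫ p, φ p * f (Fs a (n + 1) p)| ≤ 1 := by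
      have := norm_integral_le_of_norm_le_const (μ := (volume : Measure T2))
        (f := fun p => φ p * f (Fs a (n + 1) p)) (C := 1) (Filter.Eventually.of_forall fun p => by
          rw [norm_eq_abs, abs_mul]
          exact mul_le_one₀ (hφ.bound _) (abs_nonneg _) (hf.bound _))
      simpa using this
    have h2 : |∫ p, φ p| ≤ 1 := by
      have := norm_integral_le_of_norm_le_const (μ := (volume : Measure T2))
        (f := φ) (C := 1) (Filter.Eventually.of_forall fun p => hφ.bound p)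
      simpa using this
    have h3 : |∫ p, f p| ≤ 1 := by
      have := norm_integral_le_of_norm_le_const (μ := (volume : Measure T2))
        (f := f) (C := 1) (Filter.Eventually.of_forall fun p => hf.bound p)
      simpa using this
    have h4 : |(∫ p, φ p * f (Fs a (n + 1) p)) - (∫ p, φ p) * (∫ p, f p)| ≤ 2 := by
      refine (abs_sub _ _).trans ?_
      rw [abs_mul]
      have := mul_le_one₀ h2 (abs_nonneg _) h3
      linarith
    refine h4.trans ?_
    have h5 : 0 ≤ 2 * K * (4 / 3 * √δ) ^ n := by positivity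
    have h6 : 2 ≤ C0 * (1 + M) * ((1 + log A) * δ) := by
      have h7 : 100 * 1 ≤ C0 * (1 + M) := mul_le_mul hC0 (by linarith) zero_le_one (by linarith)
      have h8 : 1 / 16 ≤ (1 + log A) * δ := by nlinarith
      nlinarith
    linarith

end Pool.Agent.U785.ST
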