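import Mathlib
import Pool.Agent.U785.ST.Fixed

set_option autoImplicit false

/-!
# Time averages
-/

namespace Pool.Agent.U785.ST

open Real MeasureTheory
open Pool.Agent.TH705.SM (L L_cont L_period T2 S S_mp S_cont S_coe int_T2 integrable_cont KK KK_one)

/-- the cocycle relation -/
theorem Fs_add (a : ℕ → ℝ) (i m : ℕ) (p : T2) :
    Fs a (i + m) p = Fs (fun k => a (i + k)) m (Fs a i p) := by
  induction m with
  | zero => rfl
  | succ m ih =>
    show S (a (i + m)) (Fs a (i + m) p) = S (a (i + m)) (Fs (fun k => a (i + k)) m (Fs a i p))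
    rw [ih]

theorem abs_int_le {g : T2 → ℝ} {c : ℝ} (h : ∀ p, |g p| ≤ c) : |∫ p, g p| ≤ c := by
  have := norm_integral_le_of_norm_le_const (μ := (volume : Measure T2))
    (f := g) (C := c) (Filter.Eventually.of_forall fun p => h p)
  simpa using this

/-- the covariance at two times -/
theorem cov_eq (a : ℕ → ℝ) {f : T2 → ℝ} (hf : Continuous f) (i m : ℕ) :
    ∫ p, f (Fs a i p) * f (Fs a (i + m) p) =
      ∫ p, f p * f (Fs (fun k => a (i + k)) m p) := by
  have h := int_Fs a i (Φ := fun p => f p * f (Fs (fun k => a (i + k)) m p))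
    (hf.mul (hf.comp (Fs_cont _ m)))
  rw [← h]
  simp only [Fs_add]

/-- the bound of the covariances -/
noncomputable def Rr (A M : ℝ) (N : ℕ) : ℝ :=
  (C0 + 4) * (1 + M) * ((1 + log A) * (1 / √A + √N / A))

theorem Rr_nonneg {A M : ℝ} (hA : 1 ≤ A) (hM : 0 ≤ M) (N : ℕ) : 0 ≤ Rr A M N := by
  have hK := KK_one
  have := log_nonneg hA
  unfold Rr C0
  positivity

theorem cov_le {A : ℝ} (hA : 1 ≤ A) {a : ℕ → ℝ} (ha : ∀ k, A ≤ |a k|) {f : T2 → ℝ} {M : ℝ}
    (hf : TObs f M) {i m N : ℕ} (hm : 3 ≤ m) (hmN : m ≤ N) :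
    |(∫ p, f (Fs a i p) * f (Fs a (i + m) p)) - (∫ p, f p) ^ 2| ≤ Rr A M N := by
  have hK := KK_one
  have hM := hf.nonneg
  have hl := log_nonneg hA
  have hA0 : 0 < A := by linarith
  have hpi := pi_pos
  have hC0 : 100 ≤ C0 := by
    unfold C0
    have : 0 ≤ 656 * KK * π ^ 2 := by positivity
    linarith
  rw [cov_eq a hf.cont]
  obtain ⟨n, rfl⟩ := Nat.exists_eq_add_of_le' hm
  set δ : ℝ := 1 / √A + √N / A with hδ
  have hδ0 : 0 < δ := by positivity
  by_cases hcase : 4 / 3 * √δ ≤ 1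
  · have h1 := fixed hA (a := fun k => a (i + k)) (fun k => ha _) (n := n + 2) (by omega) hf hf
    have e : n + 3 = n + 2 + 1 := by omega
    rw [sq, e]
    refine h1.trans ?_
    have h2 : 1 / √A + √((n + 2 : ℕ) : ℝ) / A ≤ δ := by
      rw [hδ]
      have : √((n + 2 : ℕ) : ℝ) ≤ √N := by
        apply Real.sqrt_le_sqrt
        exact_mod_cast (by omega : n + 2 ≤ N)
      gcongr
    set δ' := 1 / √A + √((n + 2 : ℕ) : ℝ) / A with hδ'
    have hδ'0 : 0 < δ' := by positivity
    have h3 : (4 / 3 * √δ') ^ (n + 2) ≤ 2 * δ := by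
      have h4 : 4 / 3 * √δ' ≤ 4 / 3 * √δ :=
        mul_le_mul_of_nonneg_left (Real.sqrt_le_sqrt h2) (by norm_num)
      calc (4 / 3 * √δ') ^ (n + 2) ≤ (4 / 3 * √δ) ^ (n + 2) :=
            pow_le_pow_left₀ (by positivity) h4 _
        _ ≤ (4 / 3 * √δ) ^ 2 := pow_le_pow_of_le_one (by positivity) hcase (by omega)
        _ = 16 / 9 * δ := by
            rw [mul_pow, Real.sq_sqrt hδ0.le]
            norm_num
        _ ≤ 2 * δ := by linarith
    unfold Rr
    rw [← hδ]
    have h5 : δ ≤ (1 + log A) * δ := by nlinarith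
    calc C0 * (1 + M) * ((1 + log A) * δ') + 2 * M * (4 / 3 * √δ') ^ (n + 2) ≤
          C0 * (1 + M) * ((1 + log A) * δ) + 2 * M * (2 * δ) := by gcongr
      _ ≤ C0 * (1 + M) * ((1 + log A) * δ) + 4 * (1 + M) * ((1 + log A) * δ) := by
          have : 2 * M * (2 * δ) ≤ 4 * (1 + M) * ((1 + log A) * δ) := by
            calc 2 * M * (2 * δ) = 4 * M * δ := by ring
              _ ≤ 4 * (1 + M) * ((1 + log A) * δ) := by
                  apply mul_le_mul _ h5 hδ0.le (by positivity)
                  linarith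
          linarith
      _ = _ := by ring
  · rw [not_le] at hcase
    have h1 : |∫ p, f p * f (Fs (fun k => a (i + k)) (n + 3) p)| ≤ 1 := abs_int_le fun p => by
      rw [abs_mul]
      exact mul_le_one₀ (hf.bound _) (abs_nonneg _) (hf.bound _)
    have h2 : |∫ p, f p| ≤ 1 := abs_int_le hf.bound
    have h3 : (∫ p, f p) ^ 2 ≤ 1 := by
      rw [← sq_abs]
      exact pow_le_one₀ (abs_nonneg _) h2
    have h4 : |(∫ p, f p * f (Fs (fun k => a (i + k)) (n + 3) p)) - (∫ p, f p) ^ 2| ≤ 2 := by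
      refine (abs_sub _ _).trans ?_
      rw [abs_of_nonneg (sq_nonneg (∫ p, f p))]
      linarith
    refine h4.trans ?_
    have h5 : 1 / 2 ≤ δ := by
      have h6 : (4 / 3 * √δ) ^ 2 = 16 / 9 * δ := by
        rw [mul_pow, Real.sq_sqrt hδ0.le]
        norm_num
      have h7 : 1 < (4 / 3 * √δ) ^ 2 := one_lt_pow₀ hcase two_ne_zero
      linarith
    unfold Rr
    rw [← hδ]
    have h6 : 100 * 1 ≤ (C0 + 4) * (1 + M) :=
      mul_le_mul (by linarith) (by linarith) zero_le_one (by linarith)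
    have h7 : 1 / 2 ≤ (1 + log A) * δ := by nlinarith
    nlinarith

/-- covariances in any order -/
theorem cov_le' {A : ℝ} (hA : 1 ≤ A) {a : ℕ → ℝ} (ha : ∀ k, A ≤ |a k|) {f : T2 → ℝ} {M : ℝ}
    (hf : TObs f M) {i j N : ℕ} (hi : i < N) (hj : j < N) :
    (∫ p, f (Fs a i p) * f (Fs a j p)) - (∫ p, f p) ^ 2 ≤
      Rr A M N + if i ≤ j + 2 ∧ j ≤ i + 2 then 1 else 0 := by
  have hR := Rr_nonneg hA hf.nonneg N
  split_ifs with h
  · have h1 : |∫ p, f (Fs a i p) * f (Fs a j p)| ≤ 1 := abs_int_le fun p => by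
      rw [abs_mul]
      exact mul_le_one₀ (hf.bound _) (abs_nonneg _) (hf.bound _)
    have h2 := le_abs_self (∫ p, f (Fs a i p) * f (Fs a j p))
    have h3 := sq_nonneg (∫ p, f p)
    linarith
  · rw [add_zero]
    rcases le_total i j with h1 | h1
    · obtain ⟨m, rfl⟩ := Nat.exists_eq_add_of_le h1
      exact (le_abs_self _).trans (cov_le hA ha hf (i := i) (m := m) (by omega) (by omega))
    · obtain ⟨m, rfl⟩ := Nat.exists_eq_add_of_le h1
      have h2 := cov_le hA ha hf (i := j) (m := m) (N := N) (by omega) (by omega)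
      have e : ∫ p, f (Fs a (j + m) p) * f (Fs a j p) = ∫ p, f (Fs a j p) * f (Fs a (j + m) p) := by
        congr 1
        funext p
        ring
      rw [e]
      exact (le_abs_self _).trans h2

/-- **time averages in the mean** -/
theorem avg {A : ℝ} (hA : 1 ≤ A) {a : ℕ → ℝ} (ha : ∀ k, A ≤ |a k|) {f : T2 → ℝ} {M : ℝ}
    (hf : TObs f M) {N : ℕ} (hN : 1 ≤ N) :
    ∫ p, ((∑ i ∈ Finset.range N, f (Fs a i p)) / N - ∫ q, f q) ^ 2 ≤ Rr A M N + 5 / N := by
  have hN0 : (0:ℝ) < N := by exact_mod_cast hN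
  have hc : ∀ i, Continuous (fun p => f (Fs a i p)) := fun i => hf.cont.comp (Fs_cont a i)
  set m : ℝ := ∫ q, f q with hm
  have e1 : ∀ p, ((∑ i ∈ Finset.range N, f (Fs a i p)) / N - m) ^ 2 =
      (1 / (N:ℝ) ^ 2) * (∑ i ∈ Finset.range N, ∑ j ∈ Finset.range N, f (Fs a i p) * f (Fs a j p)) -
        2 * m / N * (∑ i ∈ Finset.range N, f (Fs a i p)) + m ^ 2 := by
    intro p
    have : (∑ i ∈ Finset.range N, ∑ j ∈ Finset.range N, f (Fs a i p) * f (Fs a j p)) =
        (∑ i ∈ Finset.range N, f (Fs a i p)) ^ 2 := by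
      rw [sq, Finset.sum_mul_sum]
    rw [this]
    field_simp
    ring
  have i1 : ∀ i j, Integrable (fun p => f (Fs a i p) * f (Fs a j p)) := fun i j =>
    integrable_cont ((hc i).mul (hc j))
  have i2 : Integrable (fun p => ∑ i ∈ Finset.range N, ∑ j ∈ Finset.range N,
      f (Fs a i p) * f (Fs a j p)) :=
    integrable_finsetSum _ fun i _ => integrable_finsetSum _ fun j _ => i1 i j
  have i3 : Integrable (fun p => ∑ i ∈ Finset.range N, f (Fs a i p)) :=
    integrable_finsetSum _ fun i _ => integrable_cont (hc i)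
  have i4 : Integrable (fun p => (1 / (N:ℝ) ^ 2) * (∑ i ∈ Finset.range N,
      ∑ j ∈ Finset.range N, f (Fs a i p) * f (Fs a j p)) -
        2 * m / N * (∑ i ∈ Finset.range N, f (Fs a i p))) :=
    (i2.const_mul _).sub (i3.const_mul _)
  simp only [e1]
  rw [integral_add i4 (integrable_const _),
    integral_sub (i2.const_mul _) (i3.const_mul _), integral_const_mul, integral_const_mul,
    integral_finsetSum _ (fun i _ => integrable_finsetSum _ fun j _ => i1 i j),
    integral_finsetSum _ (fun i _ => integrable_cont (hc i))]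
  have e2 : ∀ i, ∫ p, f (Fs a i p) = m := fun i => int_Fs a i hf.cont
  simp only [e2]
  have e3 : ∑ i ∈ Finset.range N, ∫ p, ∑ j ∈ Finset.range N, f (Fs a i p) * f (Fs a j p) =
      ∑ i ∈ Finset.range N, ∑ j ∈ Finset.range N, ∫ p, f (Fs a i p) * f (Fs a j p) :=
    Finset.sum_congr rfl fun i _ => integral_finsetSum _ fun j _ => i1 i j
  rw [e3]
  have h1 : ∑ i ∈ Finset.range N, ∑ j ∈ Finset.range N, ((∫ p, f (Fs a i p) * f (Fs a j p)) -
      m ^ 2) ≤ ∑ i ∈ Finset.range N, (N * Rr A M N + 5) := by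
    apply Finset.sum_le_sum
    intro i hi
    rw [Finset.mem_range] at hi
    calc _ ≤ ∑ j ∈ Finset.range N, (Rr A M N + if i ≤ j + 2 ∧ j ≤ i + 2 then 1 else 0) := by
          apply Finset.sum_le_sum
          intro j hj
          rw [Finset.mem_range] at hj
          exact cov_le' hA ha hf hi hj
      _ = N * Rr A M N + (((Finset.range N).filter (fun j => i ≤ j + 2 ∧ j ≤ i + 2)).card : ℝ) := by
          rw [Finset.sum_add_distrib, Finset.sum_const, Finset.card_range, nsmul_eq_mul,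
            Finset.sum_ite, Finset.sum_const_zero, add_zero, Finset.sum_const, nsmul_eq_mul,
            mul_one]
      _ ≤ N * Rr A M N + 5 := by
          have h2 : ((Finset.range N).filter (fun j => i ≤ j + 2 ∧ j ≤ i + 2)).card ≤ 5 := by
            calc _ ≤ (Finset.Icc (i - 2) (i + 2)).card := by
                  apply Finset.card_le_card
                  intro j hj
                  rw [Finset.mem_filter] at hj
                  rw [Finset.mem_Icc]
                  omega
              _ ≤ 5 := by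
                  rw [Nat.card_Icc]
                  omega
          have h3 : (((Finset.range N).filter (fun j => i ≤ j + 2 ∧ j ≤ i + 2)).card : ℝ) ≤ 5 := by
            exact_mod_cast h2
          linarith
  rw [Finset.sum_const, Finset.card_range, nsmul_eq_mul] at h1
  have h4 : ∑ i ∈ Finset.range N, ∑ j ∈ Finset.range N, ((∫ p, f (Fs a i p) * f (Fs a j p)) -
      m ^ 2) = (∑ i ∈ Finset.range N, ∑ j ∈ Finset.range N, ∫ p, f (Fs a i p) * f (Fs a j p)) -
        (N:ℝ) ^ 2 * m ^ 2 := by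
    simp only [Finset.sum_sub_distrib, Finset.sum_const, Finset.card_range, nsmul_eq_mul]
    ring
  rw [h4] at h1
  simp only [Finset.sum_const, Finset.card_range, nsmul_eq_mul, integral_const, probReal_univ,
    one_smul]
  set Sg := ∑ i ∈ Finset.range N, ∑ j ∈ Finset.range N, ∫ p, f (Fs a i p) * f (Fs a j p)
  have h5 : 1 / (N:ℝ) ^ 2 * Sg - 2 * m / N * (N * m) + m ^ 2 =
      (Sg - (N:ℝ) ^ 2 * m ^ 2) / (N:ℝ) ^ 2 := by
    field_simp
    ring
  have h6 : (N * (N * Rr A M N + 5)) / (N:ℝ) ^ 2 = Rr A M N + 5 / N := by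
    field_simp
  rw [← hm] at *
  have h7 : 1 / (N:ℝ) ^ 2 * Sg - 2 * m / N * (N * m) + m ^ 2 ≤ Rr A M N + 5 / N := by
    rw [h5, ← h6]
    exact div_le_div_of_nonneg_right h1 (by positivity)
  simpa using h7

end Pool.Agent.U785.ST
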