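import Mathlib
import Pool.Agent.U785.ST.Fixed

set_option autoImplicit false

/-!
# Approximation by continuously differentiable observables
-/

namespace Pool.Agent.U785.ST

open Real MeasureTheory
open Pool.Agent.TH705.SM (T2 integrable_cont)

/-- the algebra of the continuously differentiable functions on the torus -/
def CA : Subalgebra ℝ C(T2, ℝ) where
  carrier := {f | ContDiff ℝ 1 (lft f)}
  mul_mem' := by
    intro f g hf hg
    rw [Set.mem_ofPred_eq] at *
    exact ContDiff.mul hf hg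
  add_mem' := by
    intro f g hf hg
    rw [Set.mem_ofPred_eq] at *
    exact ContDiff.add hf hg
  algebraMap_mem' := by
    intro r
    rw [Set.mem_ofPred_eq]
    exact contDiff_const

theorem mem_CA {f : C(T2, ℝ)} : f ∈ CA ↔ ContDiff ℝ 1 (lft f) := by
  show f ∈ {f : C(T2, ℝ) | ContDiff ℝ 1 (lft f)} ↔ _
  rw [Set.mem_ofPred_eq]

theorem four_re : ContDiff ℝ 1 (fun x : ℝ => (fourier 1 (x : UnitAddCircle) : ℂ).re) := by
  have e : (fun x : ℝ => (fourier 1 (x : UnitAddCircle) : ℂ).re) =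
      fun x => cos (2 * π * x) := by
    funext x
    rw [fourier_coe_apply]
    have : 2 * (π:ℂ) * Complex.I * ((1:ℤ) : ℂ) * (x:ℂ) / ((1:ℝ) : ℂ) =
        ((2 * π * x : ℝ) : ℂ) * Complex.I := by
      push_cast
      ring
    rw [this, Complex.exp_ofReal_mul_I_re]
  rw [e]
  fun_prop

theorem four_im : ContDiff ℝ 1 (fun x : ℝ => (fourier 1 (x : UnitAddCircle) : ℂ).im) := by
  have e : (fun x : ℝ => (fourier 1 (x : UnitAddCircle) : ℂ).im) =
      fun x => sin (2 * π * x) := by
    funext x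
    rw [fourier_coe_apply]
    have : 2 * (π:ℂ) * Complex.I * ((1:ℤ) : ℂ) * (x:ℂ) / ((1:ℝ) : ℂ) =
        ((2 * π * x : ℝ) : ℂ) * Complex.I := by
      push_cast
      ring
    rw [this, Complex.exp_ofReal_mul_I_im]
  rw [e]
  fun_prop

/-- the real part of the character -/
noncomputable def cR : C(UnitAddCircle, ℝ) :=
  ⟨fun x => (fourier 1 x : ℂ).re, Complex.continuous_re.comp (fourier 1).continuous⟩

/-- the imaginary part of the character -/
noncomputable def cI : C(UnitAddCircle, ℝ) :=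
  ⟨fun x => (fourier 1 x : ℂ).im, Complex.continuous_im.comp (fourier 1).continuous⟩

theorem CA_sep : CA.SeparatesPoints := by
  intro x y hxy
  have key : ∀ u v : UnitAddCircle, u ≠ v → cR u ≠ cR v ∨ cI u ≠ cI v := by
    intro u v huv
    by_contra hcon
    push Not at hcon
    apply huv
    apply AddCircle.injective_toCircle one_ne_zero
    have h1 : (fourier 1 u : ℂ) = fourier 1 v := Complex.ext hcon.1 hcon.2
    rw [fourier_one, fourier_one] at h1
    exact Subtype.ext h1
  have hne : x.1 ≠ y.1 ∨ x.2 ≠ y.2 := by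
    by_contra hcon
    push Not at hcon
    exact hxy (Prod.ext hcon.1 hcon.2)
  rcases hne with h | h
  · rcases key _ _ h with h1 | h1
    · refine ⟨_, ⟨cR.comp ContinuousMap.fst, mem_CA.2 ?_, rfl⟩, h1⟩
      exact four_re.comp contDiff_fst
    · refine ⟨_, ⟨cI.comp ContinuousMap.fst, mem_CA.2 ?_, rfl⟩, h1⟩
      exact four_im.comp contDiff_fst
  · rcases key _ _ h with h1 | h1
    · refine ⟨_, ⟨cR.comp ContinuousMap.snd, mem_CA.2 ?_, rfl⟩, h1⟩
      exact four_re.comp contDiff_snd
    · refine ⟨_, ⟨cI.comp ContinuousMap.snd, mem_CA.2 ?_, rfl⟩, h1⟩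
      exact four_im.comp contDiff_snd

/-- the derivative of a lift is bounded -/
theorem lft_bdd {f : T2 → ℝ} (hf : ContDiff ℝ 1 (lft f)) : ∃ K : ℝ, ∀ p, ‖fderiv ℝ (lft f) p‖ ≤ K := by
  have hc : Continuous (fderiv ℝ (lft f)) := hf.continuous_fderiv one_ne_zero
  obtain ⟨K, hK⟩ := (isCompact_Icc (a := (0:ℝ)) (b := 1)).prod
    (isCompact_Icc (a := (0:ℝ)) (b := 1)) |>.exists_bound_of_continuousOn hc.continuousOn
  refine ⟨K, fun p => ?_⟩
  -- periodicity
  have hper : ∀ (m n : ℤ) (p : ℝ × ℝ), fderiv ℝ (lft f) (p + ((m:ℝ), (n:ℝ))) =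
      fderiv ℝ (lft f) p := by
    intro m n p
    have h1 : (fun q => lft f (q + ((m:ℝ), (n:ℝ)))) = lft f := by
      funext q
      unfold lft
      have e1 : ((q + ((m:ℝ), (n:ℝ))).1 : UnitAddCircle) = (q.1 : UnitAddCircle) := by
        show ((q.1 + (m:ℝ) : ℝ) : UnitAddCircle) = _
        rw [AddCircle.coe_add]
        have : ((m:ℝ) : UnitAddCircle) = 0 := by
          rw [AddCircle.coe_eq_zero_iff]
          exact ⟨m, by simp⟩
        rw [this, add_zero]
      have e2 : ((q + ((m:ℝ), (n:ℝ))).2 : UnitAddCircle) = (q.2 : UnitAddCircle) := by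
        show ((q.2 + (n:ℝ) : ℝ) : UnitAddCircle) = _
        rw [AddCircle.coe_add]
        have : ((n:ℝ) : UnitAddCircle) = 0 := by
          rw [AddCircle.coe_eq_zero_iff]
          exact ⟨n, by simp⟩
        rw [this, add_zero]
      rw [e1, e2]
    have h2 := fderiv_comp_add_right (𝕜 := ℝ) (f := lft f) (x := p) ((m:ℝ), (n:ℝ))
    rw [h1] at h2
    exact h2.symm
  have h3 : p = (Int.fract p.1, Int.fract p.2) + ((⌊p.1⌋ : ℝ), (⌊p.2⌋ : ℝ)) := by
    ext
    · exact (Int.fract_add_floor p.1).symm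
    · exact (Int.fract_add_floor p.2).symm
  rw [h3, hper]
  apply hK
  exact ⟨⟨Int.fract_nonneg _, (Int.fract_lt_one _).le⟩, ⟨Int.fract_nonneg _,
    (Int.fract_lt_one _).le⟩⟩

/-- uniform approximation of continuous functions -/
theorem approx_cont {g : T2 → ℝ} (hg : Continuous g) (hg1 : ∀ p, |g p| ≤ 1) {ε : ℝ} (hε : 0 < ε) :
    ∃ (K : ℝ) (φ : T2 → ℝ), TObs φ K ∧ ∀ p, |g p - φ p| ≤ ε := by
  obtain ⟨h, hh⟩ := ContinuousMap.exists_mem_subalgebra_near_continuousMap_of_separatesPoints CA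
    CA_sep ⟨g, hg⟩ (ε / 2) (by positivity)
  have h1 : ∀ p, |(h : C(T2, ℝ)) p - g p| ≤ ε / 2 := by
    intro p
    have h2 := (h.1 - (⟨g, hg⟩ : C(T2, ℝ))).norm_coe_le_norm p
    exact h2.trans hh.le
  set c : ℝ := 1 / (1 + ε / 2) with hc
  have hc0 : 0 < c := by positivity
  set φ : T2 → ℝ := fun p => c * (h : C(T2, ℝ)) p with hφ
  have hsm : ContDiff ℝ 1 (lft φ) := by
    have h2 : ContDiff ℝ 1 (lft (h : C(T2, ℝ))) := mem_CA.1 h.2
    exact contDiff_const.mul h2
  obtain ⟨K, hK⟩ := lft_bdd hsm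
  have h3 : ∀ p, |(h : C(T2, ℝ)) p| ≤ 1 + ε / 2 := by
    intro p
    have e : (h : C(T2, ℝ)) p = ((h : C(T2, ℝ)) p - g p) + g p := by ring
    rw [e]
    refine (abs_add_le _ _).trans ?_
    have := h1 p
    have := hg1 p
    linarith
  refine ⟨K, φ, ⟨hsm, fun p => ?_, hK⟩, fun p => ?_⟩
  · rw [hφ]
    simp only
    rw [abs_mul, abs_of_pos hc0]
    calc c * |(h : C(T2, ℝ)) p| ≤ c * (1 + ε / 2) := mul_le_mul_of_nonneg_left (h3 p) hc0.le
      _ = 1 := by
          rw [hc]
          field_simp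
  · have e : g p - φ p = (g p - (h : C(T2, ℝ)) p) + (1 - c) * (h : C(T2, ℝ)) p := by
      rw [hφ]
      ring
    have h4 : 0 ≤ 1 - c := by
      rw [hc, sub_nonneg, div_le_one (by positivity)]
      linarith
    rw [e]
    refine (abs_add_le _ _).trans ?_
    rw [abs_mul, abs_of_nonneg h4, abs_sub_comm]
    have h5 : (1 - c) * |(h : C(T2, ℝ)) p| ≤ (1 - c) * (1 + ε / 2) :=
      mul_le_mul_of_nonneg_left (h3 p) h4
    have h6 : (1 - c) * (1 + ε / 2) = ε / 2 := by
      rw [hc]
      field_simp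
      ring
    have := h1 p
    linarith

/-- approximation in the mean of measurable functions -/
theorem approx {g : T2 → ℝ} (hg : Measurable g) (hg1 : ∀ p, |g p| ≤ 1) {ε : ℝ} (hε : 0 < ε) :
    ∃ (K : ℝ) (φ : T2 → ℝ), TObs φ K ∧ ∫ p, |g p - φ p| ≤ ε := by
  have hgi : Integrable g := Integrable.of_bound hg.aestronglyMeasurable 1
    (Filter.Eventually.of_forall hg1)
  obtain ⟨u, hu, hui⟩ := hgi.exists_boundedContinuous_integral_sub_le (ε := ε / 2) (by positivity)
  -- clip
  set v : T2 → ℝ := fun p => max (-1) (min 1 (u p)) with hv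
  have hvc : Continuous v := by fun_prop
  have hv1 : ∀ p, |v p| ≤ 1 := fun p => by
    rw [abs_le]
    exact ⟨le_max_left _ _, max_le (by norm_num) (min_le_left _ _)⟩
  have hgv : ∀ p, |g p - v p| ≤ |g p - u p| := by
    intro p
    have h1 := hg1 p
    rw [abs_le] at h1
    rw [hv]
    simp only
    rcases le_total (u p) 1 with h2 | h2
    · rw [min_eq_right h2]
      rcases le_total (-1) (u p) with h3 | h3
      · rw [max_eq_right h3]
      · rw [max_eq_left h3]
        rw [abs_of_nonneg (by linarith), abs_of_nonneg (by linarith)]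
        linarith
    · rw [min_eq_left h2, max_eq_right (by norm_num)]
      rw [abs_of_nonpos (by linarith), abs_of_nonpos (by linarith)]
      linarith
  obtain ⟨K, φ, hφ, hφe⟩ := approx_cont hvc hv1 (ε := ε / 2) (by positivity)
  refine ⟨K, φ, hφ, ?_⟩
  have i1 : Integrable (fun p => |g p - u p|) := (hgi.sub hui).abs
  have i2 : Integrable (fun p => |g p - φ p|) := (hgi.sub (integrable_cont hφ.cont)).abs
  calc ∫ p, |g p - φ p| ≤ ∫ p, (|g p - u p| + ε / 2) := by
        apply integral_mono i2 (i1.add (integrable_const _))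
        intro p
        simp only
        calc |g p - φ p| = |(g p - v p) + (v p - φ p)| := by ring_nf
          _ ≤ |g p - v p| + |v p - φ p| := abs_add_le _ _
          _ ≤ _ := add_le_add (hgv p) (hφe p)
    _ = (∫ p, |g p - u p|) + ε / 2 := by
        rw [integral_add i1 (integrable_const _)]
        simp
    _ ≤ ε := by
        have h1 : ∫ p, |g p - u p| ≤ ε / 2 := by
          simpa [norm_eq_abs] using hu
        linarith

end Pool.Agent.U785.ST
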