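import Mathlib
import Pool.Agent.U785.ST.Fixed

set_option autoImplicit false

/-!
# Growth of the derivative up to times `|a| ^ (2 - ε)`
-/

namespace Pool.Agent.U785.ST

open Real MeasureTheory
open Pool.Agent.TH705.SM (L L_cont L_period T2 S S_mp S_cont S_coe int_T2 integrable_cont KK KK_one)
open Pool.Agent.Y332.SM (Lc Lc_coe Lc_cont)

/-- a lower bound of the factor on the good set -/
noncomputable def lo (a : ℕ → ℝ) (k : ℕ) : ℝ := 16 / (2 + 2 * π * |a (k + 1)|)

theorem lo_pos (a : ℕ → ℝ) (k : ℕ) : 0 < lo a k := by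
  unfold lo
  have := pi_pos
  positivity

theorem L_abs_le (b x : ℝ) : |L b x| ≤ 2 + 2 * π * |b| := by
  have hpi := pi_pos
  unfold L
  refine (abs_add_le _ _).trans ?_
  rw [abs_of_pos (by norm_num : (0:ℝ) < 2), abs_mul, abs_mul, abs_of_pos (by positivity : 0 < 2 * π)]
  have h1 := abs_cos_le_one (2 * π * x)
  have h2 : 2 * π * |b| * |cos (2 * π * x)| ≤ 2 * π * |b| * 1 :=
    mul_le_mul_of_nonneg_left h1 (by positivity)
  linarith

theorem lo_le {a : ℕ → ℝ} {s : ℝ} {n : ℕ} {t : ℝ} (hg : Good a s (fun _ => 16) n t) {k : ℕ}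
    (hk : k < n) : lo a k ≤ |el a s n k t| := by
  have hpi := pi_pos
  have h1 := hg k hk
  have h2 : |el a s n (k + 1) t| ≤ 2 + 2 * π * |a (k + 1)| := by
    unfold el
    split_ifs
    · exact L_abs_le _ _
    · rw [abs_one]
      have : 0 ≤ 2 * π * |a (k + 1)| := by positivity
      linarith
  rw [abs_mul] at h1
  unfold lo
  rw [div_le_iff₀ (by positivity)]
  have h3 := mul_le_mul_of_nonneg_left h2 (abs_nonneg (el a s n k t))
  linarith

/-- the function of the factor -/
noncomputable def sq (a : ℕ → ℝ) (k : ℕ) (y : ℝ) : ℝ := √(8 / 3 * |a k| / (max y 0 + lo a k))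

theorem sq_cont (a : ℕ → ℝ) (k : ℕ) : Continuous (sq a k) := by
  unfold sq
  have h := lo_pos a k
  refine Real.continuous_sqrt.comp (Continuous.div continuous_const (by fun_prop) fun y => ?_)
  have := le_max_right y 0
  positivity

theorem sq_int {a : ℕ → ℝ} {k : ℕ} (ha : 1 ≤ |a k|) :
    ∫ x in (0:ℝ)..1, sq a k |L (a k) x| ≤ 3 := by
  have hpi := pi_pos
  have hpi3 := pi_gt_three
  have hb : 0 < |a k| := by linarith
  have hc := lo_pos a k
  have h1 := int_L_le ha (sq_cont a k) (fun x y hx hxy => by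
    unfold sq
    apply Real.sqrt_le_sqrt
    apply div_le_div_of_nonneg_left (by positivity) (by positivity)
    have := max_le_max_right 0 hxy
    linarith) (fun y _ => Real.sqrt_nonneg _)
  refine h1.trans ?_
  set κ : ℝ := 4 * π * |a k| with hκ
  have hκ0 : 0 < κ := by positivity
  set c := lo a k
  set m : ℝ := 8 / 3 * |a k| with hm
  have hm0 : 0 < m := by positivity
  have h2 : ∫ u in (0:ℝ)..(1 / 2), sq a k (κ * u) =
      √m * (2 / κ) * √(κ * (1 / 2) + c) - √m * (2 / κ) * √(κ * 0 + c) := by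
    have e : ∫ u in (0:ℝ)..(1 / 2), sq a k (κ * u) =
        ∫ u in (0:ℝ)..(1 / 2), √m * (1 / √(κ * u + c)) := by
      apply intervalIntegral.integral_congr
      intro u hu
      rw [Set.uIcc_of_le (by norm_num)] at hu
      simp only
      unfold sq
      rw [max_eq_left (mul_nonneg hκ0.le hu.1), Real.sqrt_div hm0.le]
      ring
    rw [e]
    have hne : ∀ u ∈ Set.uIcc (0:ℝ) (1 / 2), 0 < κ * u + c := by
      intro u hu
      rw [Set.uIcc_of_le (by norm_num)] at hu
      have := mul_nonneg hκ0.le hu.1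
      positivity
    apply intervalIntegral.integral_eq_sub_of_hasDerivAt
      (f := fun u => √m * (2 / κ) * √(κ * u + c))
    · intro u hu
      have h3 := (((((hasDerivAt_id u).const_mul κ).add_const c).sqrt) (hne u hu).ne').const_mul
        (√m * (2 / κ))
      refine HasDerivAt.congr_deriv h3 ?_
      simp only [id, mul_one]
      have : √(κ * u + c) ≠ 0 := (Real.sqrt_pos.2 (hne u hu)).ne'
      field_simp
    · apply ContinuousOn.intervalIntegrable
      apply ContinuousOn.mul continuousOn_const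
      apply ContinuousOn.div continuousOn_const
      · fun_prop
      · intro u hu
        exact (Real.sqrt_pos.2 (hne u hu)).ne'
  rw [h2, mul_zero, zero_add]
  have h3 : √(κ * (1 / 2) + c) ≤ √(κ * (1 / 2)) + √c := by
    rw [Real.sqrt_le_iff]
    refine ⟨by positivity, ?_⟩
    have e1 := Real.sq_sqrt (show 0 ≤ κ * (1 / 2) by positivity)
    have e2 := Real.sq_sqrt hc.le
    have e3 : 0 ≤ √(κ * (1 / 2)) * √c := by positivity
    nlinarith
  have h4 : √m * (2 / κ) * √(κ * (1 / 2) + c) - √m * (2 / κ) * √c ≤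
      √m * (2 / κ) * √(κ * (1 / 2)) := by
    have : 0 ≤ √m * (2 / κ) := by positivity
    nlinarith
  have h5 : √m * (2 / κ) * √(κ * (1 / 2)) ≤ 3 / 4 := by
    have e1 : √m * (2 / κ) * √(κ * (1 / 2)) = √(m * (2 / κ)) := by
      have e2 : (2 / κ) * √(κ * (1 / 2)) = √(2 / κ) := by
        have e3 : κ * (1 / 2) = 1 / (2 / κ) := by field_simp
        rw [e3, Real.sqrt_div zero_le_one, Real.sqrt_one]
        have e4 := Real.mul_self_sqrt (show 0 ≤ 2 / κ by positivity)
        have e5 : 0 < √(2 / κ) := Real.sqrt_pos.2 (by positivity)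
        field_simp
        rw [Real.sq_sqrt (by positivity)]
        field_simp
      rw [mul_assoc, e2, ← Real.sqrt_mul hm0.le]
    rw [e1, Real.sqrt_le_left (by norm_num)]
    rw [hm, hκ]
    have e6 : 8 / 3 * |a k| * (2 / (4 * π * |a k|)) = 4 / (3 * π) := by
      field_simp
      norm_num
    rw [e6, div_le_iff₀ (by positivity)]
    nlinarith
  linarith

theorem sq_exp {a : ℕ → ℝ} {n k : ℕ} (ha : 1 ≤ |a k|) (hk : k < n) :
    ∫ s in (0:ℝ)..1, ∫ t in (0:ℝ)..1, sq a k |el a s n k t| ≤ 3 := by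
  have hΦ : Continuous (fun p : T2 => sq a k |elc a n k p.2|) :=
    (sq_cont a k).comp ((elc_cont a n k).comp continuous_snd).abs
  have h1 := inv a (k + 1) hΦ
  simp only [← elc_coe] at h1
  rw [h1]
  refine (int_T2_le' hΦ (g := fun _ => 3) continuous_const ?_).trans (le_of_eq (by simp))
  intro t
  have h2 := sq_int (a := a) ha
  refine le_trans (le_of_eq ?_) h2
  apply intervalIntegral.integral_congr
  intro s _
  simp only
  have e : elc a n k (s : UnitAddCircle) = L (a k) s := by
    unfold elc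
    rw [if_pos hk, Lc_coe]
  rw [e]

/-- the unit square -/
def Qu : Set (ℝ × ℝ) := Set.Ioc 0 1 ×ˢ Set.Ioc 0 1

theorem markov2 {h : ℝ × ℝ → ℝ} (hc : Continuous h) (h0 : ∀ p, 0 ≤ h p) {E : Set (ℝ × ℝ)}
    (hE : E ⊆ Qu) (hE1 : ∀ p ∈ E, 1 ≤ h p) :
    volume E ≤ ENNReal.ofReal (∫ s in (0:ℝ)..1, ∫ t in (0:ℝ)..1, h (t, s)) := by
  have hQm : MeasurableSet Qu := measurableSet_Ioc.prod measurableSet_Ioc
  have hsub : Qu ⊆ Set.Icc (0:ℝ) 1 ×ˢ Set.Icc (0:ℝ) 1 :=
    Set.prod_mono Set.Ioc_subset_Icc_self Set.Ioc_subset_Icc_self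
  have hint : IntegrableOn h Qu volume := by
    apply IntegrableOn.mono_set _ hsub
    exact hc.continuousOn.integrableOn_compact (isCompact_Icc.prod isCompact_Icc)
  have h1 : volume E ≤ ENNReal.ofReal (∫ p in Qu, h p) := by
    rw [ofReal_integral_eq_lintegral_ofReal hint (Filter.Eventually.of_forall h0)]
    have h2 : volume E = volume.restrict Qu E := by
      rw [Measure.restrict_eq_self _ hE]
    rw [h2]
    calc volume.restrict Qu E ≤ volume.restrict Qu {p | 1 ≤ ENNReal.ofReal (h p)} := by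
          apply measure_mono
          intro p hp
          show 1 ≤ ENNReal.ofReal (h p)
          rw [ENNReal.one_le_ofReal]
          exact hE1 p hp
      _ ≤ _ := by
          have h3 := mul_meas_ge_le_lintegral (μ := volume.restrict Qu)
            (hc.measurable.ennreal_ofReal) 1
          rwa [one_mul] at h3
  refine h1.trans (le_of_eq ?_)
  congr 1
  have e : (volume : Measure (ℝ × ℝ)).restrict Qu =
      ((volume : Measure ℝ).restrict (Set.Ioc 0 1)).prod
        ((volume : Measure ℝ).restrict (Set.Ioc 0 1)) := by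
    rw [Measure.prod_restrict]
    rfl
  rw [e]
  rw [integral_prod_symm]
  · rw [intervalIntegral.integral_of_le zero_le_one]
    apply integral_congr_ae
    refine Filter.Eventually.of_forall fun s => ?_
    simp only
    rw [intervalIntegral.integral_of_le zero_le_one]
  · have h4 : Integrable h (volume.restrict Qu) := hint
    rwa [e] at h4

theorem amgm {n : ℕ} (hn : 1 ≤ n) {z : ℕ → ℝ} (hz : ∀ k, 0 ≤ z k) {Λ : ℝ} (hΛ : 0 ≤ Λ)
    (h : Λ ^ n ≤ ∏ k ∈ Finset.range n, z k) : Λ ≤ (∑ k ∈ Finset.range n, z k) / n := by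
  have hn0 : (0:ℝ) < n := by exact_mod_cast hn
  have h1 := Real.geom_mean_le_arith_mean_weighted (Finset.range n) (fun _ => 1 / (n:ℝ)) z
    (fun _ _ => by positivity) (by
      rw [Finset.sum_const, Finset.card_range, nsmul_eq_mul]
      field_simp) (fun k _ => hz k)
  rw [← Finset.mul_sum] at h1
  have h2 : ∏ k ∈ Finset.range n, z k ^ (1 / (n:ℝ)) =
      (∏ k ∈ Finset.range n, z k) ^ (1 / (n:ℝ)) :=
    Real.finsetProd_rpow _ _ (fun k _ => hz k) _
  rw [h2] at h1
  have h3 : Λ = (Λ ^ n) ^ (1 / (n:ℝ)) := by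
    rw [← Real.rpow_natCast, ← Real.rpow_mul hΛ]
    rw [mul_one_div_cancel hn0.ne', Real.rpow_one]
  rw [h3]
  refine (Real.rpow_le_rpow (by positivity) h (by positivity)).trans (h1.trans (le_of_eq ?_))
  ring

theorem dbl_add' {f g : ℝ × ℝ → ℝ} (hf : Continuous f) (hg : Continuous g) :
    ∫ s in (0:ℝ)..1, ∫ t in (0:ℝ)..1, (f (s, t) + g (s, t)) =
      (∫ s in (0:ℝ)..1, ∫ t in (0:ℝ)..1, f (s, t)) +
        ∫ s in (0:ℝ)..1, ∫ t in (0:ℝ)..1, g (s, t) := dbl_add hf hg

/-- **growth of the derivative** -/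
theorem grow {A : ℝ} (hA : 1 ≤ A) {a : ℕ → ℝ} (ha : ∀ k, A ≤ |a k|) {n : ℕ} (hn : 1 ≤ n)
    {δ : ℝ} (hδ0 : 0 ≤ δ) (hδ1 : δ ≤ 1) :
    volume {p : ℝ × ℝ | p ∈ Qu ∧
      |D a p.2 (n + 1) p.1| < (∏ k ∈ Finset.range n, |a k|) * (A ^ (-δ)) ^ n} ≤
      ENNReal.ofReal (48 * (n * (1 + log A) / A ^ 2) + 51 * A ^ (-δ / 2)) := by
  have hA0 : 0 < A := by linarith
  have hn0 : (0:ℝ) < n := by exact_mod_cast hn
  have hlA := log_nonneg hA
  have hT : ∀ k, (16:ℝ) ≤ (fun _ : ℕ => (16:ℝ)) k := fun _ => le_rfl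
  set T : ℕ → ℝ := fun _ => 16 with hTd
  set Λ : ℝ := A ^ (-δ / 2) with hΛ
  have hΛ0 : 0 < Λ := by positivity
  set h : ℝ × ℝ → ℝ := fun p => (1 - chi a T p.2 n n p.1) +
    Λ * ((∑ k ∈ Finset.range n, sq a k |el a p.2 n k p.1|) / n) with hh
  have csw : Continuous (fun p : ℝ × ℝ => ((p.2, p.1) : ℝ × ℝ)) := by fun_prop
  have c1 : Continuous (fun p : ℝ × ℝ => 1 - chi a T p.2 n n p.1) :=
    continuous_const.sub ((chi2_cont a T n n).comp csw)
  have c2 : ∀ k, Continuous (fun p : ℝ × ℝ => sq a k |el a p.2 n k p.1|) := fun k =>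
    (sq_cont a k).comp ((el2_cont a n k).comp csw).abs
  have c3 : Continuous (fun p : ℝ × ℝ =>
      Λ * ((∑ k ∈ Finset.range n, sq a k |el a p.2 n k p.1|) / n)) :=
    continuous_const.mul ((continuous_finsetSum _ fun k _ => c2 k).div_const _)
  have hsq0 : ∀ k y, 0 ≤ sq a k y := fun k y => Real.sqrt_nonneg _
  have h2 := markov2 (h := h) (c1.add c3) (fun p => by
    have h3 := chi_mem a T p.2 n n p.1
    have h4 : 0 ≤ ∑ k ∈ Finset.range n, sq a k |el a p.2 n k p.1| :=
      Finset.sum_nonneg fun k _ => hsq0 _ _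
    have h5 : 0 ≤ Λ * ((∑ k ∈ Finset.range n, sq a k |el a p.2 n k p.1|) / n) := by positivity
    show 0 ≤ (1 - chi a T p.2 n n p.1) + _
    linarith)
    (E := {p : ℝ × ℝ | p ∈ Qu ∧
      |D a p.2 (n + 1) p.1| < (∏ k ∈ Finset.range n, |a k|) * (A ^ (-δ)) ^ n})
    (fun p hp => hp.1) ?_
  · refine h2.trans (ENNReal.ofReal_le_ofReal ?_)
    -- the expectation
    have e1 : ∫ s in (0:ℝ)..1, ∫ t in (0:ℝ)..1, h (t, s) =
        (∫ s in (0:ℝ)..1, ∫ t in (0:ℝ)..1, (1 - chi a T s n n t)) +
        ∫ s in (0:ℝ)..1, ∫ t in (0:ℝ)..1,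
          Λ * ((∑ k ∈ Finset.range n, sq a k |el a s n k t|) / n) := by
      have c1' : Continuous (fun p : ℝ × ℝ => 1 - chi a T p.1 n n p.2) :=
        continuous_const.sub (chi2_cont a T n n)
      have c3' := c3.comp csw
      exact dbl_add' c1' c3'
    rw [e1]
    have h3 := exp_chi (a := a) (T := T) (fun k => hA.trans (ha k)) hT hn
    have h4 : Bz a T n ≤ 48 * (n * (1 + log A) / A ^ 2) + 48 * Λ := by
      unfold Bz
      have h5 : ∑ k ∈ Finset.range (n - 1), bz a T k ≤ n * (16 / A ^ 2 * (1 + log A)) := by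
        calc ∑ k ∈ Finset.range (n - 1), bz a T k ≤
              ∑ k ∈ Finset.range (n - 1), 16 / A ^ 2 * (1 + log A) := by
              apply Finset.sum_le_sum
              intro k _
              unfold bz
              exact bz_const hA (le_refl (16:ℝ)) (ha k) (ha (k + 1))
          _ = ((n - 1 : ℕ) : ℝ) * (16 / A ^ 2 * (1 + log A)) := by
              rw [Finset.sum_const, Finset.card_range, nsmul_eq_mul]
          _ ≤ _ := by
              have h2 : ((n - 1 : ℕ) : ℝ) ≤ n := by exact_mod_cast (by omega : n - 1 ≤ n)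
              apply mul_le_mul_of_nonneg_right h2
              positivity
      have h6 : T (n - 1) / |a (n - 1)| ≤ 16 * Λ := by
        have h7 : (16:ℝ) / |a (n - 1)| ≤ 16 / A :=
          div_le_div_of_nonneg_left (by norm_num) hA0 (ha _)
        have h8 : 1 / A ≤ Λ := by
          rw [hΛ, one_div, ← Real.rpow_neg_one]
          apply Real.rpow_le_rpow_of_exponent_le hA
          linarith
        have e : (16:ℝ) / A = 16 * (1 / A) := by ring
        show (16:ℝ) / |a (n - 1)| ≤ _
        linarith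
      have e : 3 * (n * (16 / A ^ 2 * (1 + log A))) = 48 * (n * (1 + log A) / A ^ 2) := by ring
      linarith
    have h5 : ∫ s in (0:ℝ)..1, ∫ t in (0:ℝ)..1,
        Λ * ((∑ k ∈ Finset.range n, sq a k |el a s n k t|) / n) ≤ 3 * Λ := by
      simp only [intervalIntegral.integral_const_mul, intervalIntegral.integral_div]
      have c4 : ∀ k, Continuous (fun p : ℝ × ℝ => sq a k |el a p.1 n k p.2|) := fun k =>
        (sq_cont a k).comp (el2_cont a n k).abs
      have e2 : ∫ s in (0:ℝ)..1, ∫ t in (0:ℝ)..1, ∑ k ∈ Finset.range n, sq a k |el a s n k t| =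
          ∑ k ∈ Finset.range n, ∫ s in (0:ℝ)..1, ∫ t in (0:ℝ)..1, sq a k |el a s n k t| := by
        rw [← intervalIntegral.integral_finsetSum]
        · apply intervalIntegral.integral_congr
          intro s _
          simp only
          rw [intervalIntegral.integral_finsetSum]
          intro k _
          exact ((sq_cont a k).comp (el_cont a s n k).abs).intervalIntegrable _ _
        · intro k _
          exact (param_cont (c4 k)).intervalIntegrable _ _
      rw [e2]
      have h6 : ∑ k ∈ Finset.range n, ∫ s in (0:ℝ)..1, ∫ t in (0:ℝ)..1, sq a k |el a s n k t| ≤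
          n * 3 := by
        calc _ ≤ ∑ k ∈ Finset.range n, (3:ℝ) := by
              apply Finset.sum_le_sum
              intro k hk
              rw [Finset.mem_range] at hk
              exact sq_exp (hA.trans (ha k)) hk
          _ = _ := by rw [Finset.sum_const, Finset.card_range, nsmul_eq_mul]
      have h7 : (∑ k ∈ Finset.range n, ∫ s in (0:ℝ)..1, ∫ t in (0:ℝ)..1,
          sq a k |el a s n k t|) / n ≤ 3 := by
        rw [div_le_iff₀ hn0]
        linarith
      calc _ ≤ Λ * 3 := mul_le_mul_of_nonneg_left h7 hΛ0.le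
        _ = _ := by ring
    linarith
  · rintro p ⟨_, hp⟩
    have h3 := chi_mem a T p.2 n n p.1
    have h4 : 0 ≤ ∑ k ∈ Finset.range n, sq a k |el a p.2 n k p.1| :=
      Finset.sum_nonneg fun k _ => hsq0 _ _
    have h5 : 0 ≤ Λ * ((∑ k ∈ Finset.range n, sq a k |el a p.2 n k p.1|) / n) := by positivity
    show 1 ≤ (1 - chi a T p.2 n n p.1) + _
    by_cases hg : Good a p.2 T n p.1
    · have h6 : Λ⁻¹ ≤ (∑ k ∈ Finset.range n, sq a k |el a p.2 n k p.1|) / n := by
        apply amgm hn (fun k => hsq0 _ _) (by positivity)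
        have h7 := D_w hT hg n 0 (by omega)
        have e3 : |D a p.2 (0 + 1) p.1| = 1 := by
          show |(1:ℝ)| = 1
          exact abs_one
        rw [e3, one_mul] at h7
        have h8 := h7.trans_lt hp
        unfold w at h8
        rw [Nat.Ico_zero_eq_range] at h8
        -- each factor
        have h9 : ∀ k ∈ Finset.range n, |a k| / (3 / 4 * |L (a k) (X a p.2 (k + 1) p.1)|) ≤
            sq a k |el a p.2 n k p.1| ^ 2 := by
          intro k hk
          rw [Finset.mem_range] at hk
          have h10 := lo_le hg hk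
          have h11 := lo_pos a k
          unfold sq
          rw [Real.sq_sqrt (by positivity), max_eq_left (abs_nonneg _)]
          rw [el_lt a p.2 hk] at h10 ⊢
          have h12 : 0 < |L (a k) (X a p.2 (k + 1) p.1)| := h11.trans_le h10
          rw [div_le_div_iff₀ (by positivity) (by positivity)]
          have := abs_nonneg (a k)
          nlinarith
        have hpos : ∀ k ∈ Finset.range n, 0 < 3 / 4 * |L (a k) (X a p.2 (k + 1) p.1)| := by
          intro k hk
          rw [Finset.mem_range] at hk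
          have h10 := lo_le hg hk
          rw [el_lt a p.2 hk] at h10
          have := lo_pos a k
          linarith
        have h10 : ∏ k ∈ Finset.range n, (|a k| / (3 / 4 * |L (a k) (X a p.2 (k + 1) p.1)|)) ≤
            (∏ k ∈ Finset.range n, sq a k |el a p.2 n k p.1|) ^ 2 := by
          rw [← Finset.prod_pow]
          apply Finset.prod_le_prod
          · intro k hk
            have := hpos k hk
            positivity
          · exact h9
        rw [Finset.prod_div_distrib] at h10
        have hP : 0 < ∏ k ∈ Finset.range n, (3 / 4 * |L (a k) (X a p.2 (k + 1) p.1)|) :=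
          Finset.prod_pos hpos
        have hPa : 0 < ∏ k ∈ Finset.range n, |a k| :=
          Finset.prod_pos fun k _ => by linarith [ha k]
        have h11 : (Λ⁻¹ ^ n) ^ 2 ≤ (∏ k ∈ Finset.range n, sq a k |el a p.2 n k p.1|) ^ 2 := by
          refine le_trans ?_ h10
          rw [le_div_iff₀ hP]
          have e4 : (Λ⁻¹ ^ n) ^ 2 = ((A ^ (-δ)) ^ n)⁻¹ := by
            rw [← inv_pow, ← pow_mul, mul_comm n 2, pow_mul]
            congr 1
            rw [inv_pow, hΛ, ← Real.rpow_natCast, ← Real.rpow_mul hA0.le]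
            congr 2
            push_cast
            ring
          rw [e4]
          have h12 : 0 < (A ^ (-δ)) ^ n := by positivity
          rw [inv_mul_le_iff₀ h12]
          linarith
        exact (pow_le_pow_iff_left₀ (by positivity)
          (Finset.prod_nonneg fun k _ => hsq0 _ _) two_ne_zero).1 h11
      have h7 : 1 ≤ Λ * ((∑ k ∈ Finset.range n, sq a k |el a p.2 n k p.1|) / n) := by
        calc 1 = Λ * Λ⁻¹ := (mul_inv_cancel₀ hΛ0.ne').symm
          _ ≤ _ := mul_le_mul_of_nonneg_left h6 hΛ0.le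
      linarith
    · rw [(chi_not_good hT hg).1]
      linarith

end Pool.Agent.U785.ST
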