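import Mathlib
import Pool.Agent.U785.ST.Avg
import Pool.Agent.U785.ST.Grow
import Pool.Agent.U785.ST.Dense

set_option autoImplicit false

/-!
# Invariant sets, mixing along sequences, the derivative of the plane map
-/

namespace Pool.Agent.U785.ST

open Real MeasureTheory Filter Topology
open Pool.Agent.TH705.SM (L L_cont L_period T2 S S_mp S_cont S_coe int_T2 integrable_cont KK KK_one)

/-- the plane map -/
noncomputable def Pm (a : ℝ) (p : ℝ × ℝ) : ℝ × ℝ := (2 * p.1 - p.2 + a * sin (2 * π * p.1), p.1)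

theorem Pm_iter (a s t : ℝ) (k : ℕ) :
    (Pm a)^[k] (t, s) = (X (fun _ => a) s (k + 1) t, X (fun _ => a) s k t) := by
  induction k with
  | zero => rfl
  | succ k ih =>
    rw [Function.iterate_succ_apply', ih]
    rfl

theorem Pm_diff (a : ℝ) : Differentiable ℝ (Pm a) := by
  unfold Pm
  fun_prop

theorem Pm_norm (a : ℝ) (n : ℕ) (p : ℝ × ℝ) :
    |D (fun _ => a) p.2 (n + 1) p.1| ≤ ‖fderiv ℝ ((Pm a)^[n]) p‖ := by
  have h1 : HasFDerivAt ((Pm a)^[n]) (fderiv ℝ ((Pm a)^[n]) p) p :=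
    ((Pm_diff a).iterate n p).hasFDerivAt
  have h2 : HasDerivAt (fun t : ℝ => ((t, p.2) : ℝ × ℝ)) ((1, 0) : ℝ × ℝ) p.1 :=
    (hasDerivAt_id p.1).prodMk (hasDerivAt_const p.1 p.2)
  have h3 := h1.comp_hasDerivAt p.1 h2
  have h4 : ((Pm a)^[n] ∘ fun t : ℝ => ((t, p.2) : ℝ × ℝ)) =
      fun t => (X (fun _ => a) p.2 (n + 1) t, X (fun _ => a) p.2 n t) := by
    funext t
    exact Pm_iter a p.2 t n
  rw [h4] at h3
  have h5 : HasDerivAt (fun t => (X (fun _ => a) p.2 (n + 1) t, X (fun _ => a) p.2 n t))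
      (D (fun _ => a) p.2 (n + 1) p.1, D (fun _ => a) p.2 n p.1) p.1 :=
    (X_hasDeriv _ p.2 (n + 1) p.1).prodMk (X_hasDeriv _ p.2 n p.1)
  have h6 := h3.unique h5
  have h7 := (fderiv ℝ ((Pm a)^[n]) p).le_opNorm (1, 0)
  have h8 : ‖((1, 0) : ℝ × ℝ)‖ = 1 := by simp [Prod.norm_def]
  rw [h8, mul_one, h6] at h7
  refine le_trans ?_ h7
  rw [Prod.norm_def]
  exact le_max_left _ _

/-- invariant sets are equidistributed with respect to observables -/
theorem inv_avg {A : ℝ} (hA : 1 ≤ A) {a : ℝ} (ha : A ≤ |a|) {f : T2 → ℝ} {M : ℝ}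
    (hf : TObs f M) {B : Set T2} (hB : MeasurableSet B) (hSB : S a ⁻¹' B = B) {N : ℕ}
    (hN : 1 ≤ N) :
    |(∫ p in B, f p) - volume.real B * ∫ p, f p| ≤ √(Rr A M N + 5 / N) := by
  have hN0 : (0:ℝ) < N := by exact_mod_cast hN
  set m : ℝ := ∫ p, f p with hm
  have h1 := avg hA (a := fun _ => a) (fun _ => ha) hf hN
  simp only [Fs_const] at h1
  set h : T2 → ℝ := fun p => (∑ i ∈ Finset.range N, f ((S a)^[i] p)) / N - m with hh
  have hc : ∀ i, Continuous (fun p => f ((S a)^[i] p)) := fun i =>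
    hf.cont.comp ((S_cont a).iterate i)
  have hhc : Continuous h :=
    ((continuous_finsetSum _ fun i _ => hc i).div_const _).sub continuous_const
  -- invariance
  have hpre : ∀ i, (S a)^[i] ⁻¹' B = B := by
    intro i
    induction i with
    | zero => rfl
    | succ i ih => rw [Function.iterate_succ', Set.preimage_comp, hSB, ih]
  have h2 : ∀ i, ∫ p in B, f ((S a)^[i] p) = ∫ p in B, f p := by
    intro i
    have h3 : MeasurePreserving ((S a)^[i]) volume volume := (S_mp a).iterate i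
    have h4 : AEStronglyMeasurable (B.indicator f) (Measure.map ((S a)^[i]) volume) :=
      (hf.cont.measurable.indicator hB).aestronglyMeasurable
    have h5 := integral_map (μ := volume) h3.measurable.aemeasurable h4
    rw [h3.map_eq, integral_indicator hB] at h5
    rw [h5, ← integral_indicator hB]
    congr 1
    funext p
    have h6 : p ∈ B ↔ (S a)^[i] p ∈ B := by
      conv_lhs => rw [← hpre i]
      rfl
    by_cases hp : p ∈ B
    · rw [Set.indicator_of_mem hp, Set.indicator_of_mem (h6.1 hp)]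
    · rw [Set.indicator_of_notMem hp, Set.indicator_of_notMem (fun h => hp (h6.2 h))]
  have h3 : ∫ p in B, h p = (∫ p in B, f p) - volume.real B * m := by
    rw [hh]
    have i1 : ∀ i, Integrable (fun p => f ((S a)^[i] p)) (volume.restrict B) := fun i =>
      (integrable_cont (hc i)).restrict
    have i2 : Integrable (fun p => (∑ i ∈ Finset.range N, f ((S a)^[i] p)) / N)
        (volume.restrict B) :=
      (integrable_finsetSum _ fun i _ => i1 i).div_const _
    rw [integral_sub i2 (integrable_const _), integral_div,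
      integral_finsetSum _ (fun i _ => i1 i), setIntegral_const, smul_eq_mul]
    simp only [h2]
    rw [Finset.sum_const, Finset.card_range, nsmul_eq_mul]
    field_simp
  rw [← h3]
  have h4 : |∫ p in B, h p| ≤ ∫ p, |h p| := by
    have h5 : ‖∫ p in B, h p‖ ≤ ∫ p in B, ‖h p‖ := norm_integral_le_integral_norm _
    refine h5.trans ?_
    exact setIntegral_le_integral (integrable_cont hhc.norm)
      (Eventually.of_forall fun p => norm_nonneg _)
  refine h4.trans ?_
  apply Real.le_sqrt_of_sq_le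
  refine le_trans ?_ h1
  -- Jensen
  set c : ℝ := ∫ p, |h p| with hcd
  have i3 : Integrable (fun p => h p ^ 2) := integrable_cont (hhc.pow 2)
  have i4 : Integrable (fun p => |h p|) := integrable_cont hhc.abs
  have h5 : 0 ≤ ∫ p, (|h p| - c) ^ 2 := integral_nonneg fun p => sq_nonneg _
  have h6 : ∫ p, (|h p| - c) ^ 2 = (∫ p, h p ^ 2) - c ^ 2 := by
    have e : ∀ p, (|h p| - c) ^ 2 = h p ^ 2 - 2 * c * |h p| + c ^ 2 := by
      intro p
      rw [← sq_abs (h p)]
      ring
    simp only [e]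
    have i5 : Integrable (fun p => h p ^ 2 - 2 * c * |h p|) := i3.sub (i4.const_mul _)
    rw [integral_add i5 (integrable_const _), integral_sub i3 (i4.const_mul _),
      integral_const_mul, ← hcd]
    simp
    ring
  linarith

/-- bounded measurable functions instead of observables -/
theorem meas_dec {g1 g2 : T2 → ℝ} (hg1 : Measurable g1) (hb1 : ∀ p, |g1 p| ≤ 1)
    (hg2 : Measurable g2) (hb2 : ∀ p, |g2 p| ≤ 1) {φ1 φ2 : T2 → ℝ} {K1 K2 : ℝ}
    (h1 : TObs φ1 K1) (h2 : TObs φ2 K2) {ε : ℝ} (he1 : ∫ p, |g1 p - φ1 p| ≤ ε)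
    (he2 : ∫ p, |g2 p - φ2 p| ≤ ε) {F : T2 → T2} (hF : MeasurePreserving F volume volume)
    {r : ℝ} (hr : |(∫ p, φ1 p * φ2 (F p)) - (∫ p, φ1 p) * ∫ p, φ2 p| ≤ r) :
    |(∫ p, g1 p * g2 (F p)) - (∫ p, g1 p) * ∫ p, g2 p| ≤ r + 4 * ε := by
  have ig1 : Integrable g1 := Integrable.of_bound hg1.aestronglyMeasurable 1
    (Eventually.of_forall hb1)
  have ig2 : Integrable g2 := Integrable.of_bound hg2.aestronglyMeasurable 1
    (Eventually.of_forall hb2)
  have c1 := h1.cont
  have c2 := h2.cont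
  have iφ1 := integrable_cont c1
  have iφ2 := integrable_cont c2
  have im : ∀ {u v : T2 → ℝ}, Measurable u → Measurable v → (∀ p, |u p| ≤ 1) → (∀ p, |v p| ≤ 1) →
      Integrable (fun p => u p * v (F p)) := by
    intro u v hu hv hu1 hv1
    refine Integrable.of_bound (hu.mul (hv.comp hF.measurable)).aestronglyMeasurable 1
      (Eventually.of_forall fun p => ?_)
    rw [norm_eq_abs, abs_mul]
    exact mul_le_one₀ (hu1 _) (abs_nonneg _) (hv1 _)
  have a1 : |(∫ p, g1 p * g2 (F p)) - ∫ p, φ1 p * φ2 (F p)| ≤ 2 * ε := by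
    have e1 : (∫ p, g1 p * g2 (F p)) - ∫ p, φ1 p * φ2 (F p) =
        ∫ p, (g1 p * g2 (F p) - φ1 p * φ2 (F p)) :=
      (integral_sub (im hg1 hg2 hb1 hb2) (im c1.measurable c2.measurable h1.bound h2.bound)).symm
    rw [e1]
    have i1 : Integrable (fun p => |g1 p - φ1 p|) := (ig1.sub iφ1).abs
    have i2' : Integrable (fun p => |g2 p - φ2 p|) := (ig2.sub iφ2).abs
    have i2 : Integrable (fun p => |g2 (F p) - φ2 (F p)|) := hF.integrable_comp_of_integrable i2'
    have e2 : ∫ p, |g2 (F p) - φ2 (F p)| = ∫ p, |g2 p - φ2 p| := by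
      have h4 : AEStronglyMeasurable (fun p => |g2 p - φ2 p|) (Measure.map F volume) := by
        rw [hF.map_eq]
        exact i2'.aestronglyMeasurable
      have h5 := integral_map (μ := volume) hF.measurable.aemeasurable h4
      rw [hF.map_eq] at h5
      exact h5.symm
    calc |∫ p, (g1 p * g2 (F p) - φ1 p * φ2 (F p))| ≤
          ∫ p, |g1 p * g2 (F p) - φ1 p * φ2 (F p)| := abs_integral_le_integral_abs
      _ ≤ ∫ p, (|g1 p - φ1 p| + |g2 (F p) - φ2 (F p)|) := by
          apply integral_mono ((im hg1 hg2 hb1 hb2).sub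
            (im c1.measurable c2.measurable h1.bound h2.bound)).abs (i1.add i2)
          intro p
          show |g1 p * g2 (F p) - φ1 p * φ2 (F p)| ≤ |g1 p - φ1 p| + |g2 (F p) - φ2 (F p)|
          have e : g1 p * g2 (F p) - φ1 p * φ2 (F p) =
              (g1 p - φ1 p) * g2 (F p) + φ1 p * (g2 (F p) - φ2 (F p)) := by ring
          rw [e]
          refine (abs_add_le _ _).trans (add_le_add ?_ ?_)
          · rw [abs_mul]
            exact mul_le_of_le_one_right (abs_nonneg _) (hb2 _)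
          · rw [abs_mul]
            exact mul_le_of_le_one_left (abs_nonneg _) (h1.bound _)
      _ ≤ 2 * ε := by
          rw [integral_add i1 i2, e2]
          linarith
  have a2 : |(∫ p, g1 p) - ∫ p, φ1 p| ≤ ε := by
    rw [← integral_sub ig1 iφ1]
    exact abs_integral_le_integral_abs.trans he1
  have a3 : |(∫ p, g2 p) - ∫ p, φ2 p| ≤ ε := by
    rw [← integral_sub ig2 iφ2]
    exact abs_integral_le_integral_abs.trans he2
  have b1 : |∫ p, φ1 p| ≤ 1 := abs_int_le h1.bound
  have b2 : |∫ p, g2 p| ≤ 1 := abs_int_le hb2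
  have a4 : |(∫ p, φ1 p) * (∫ p, φ2 p) - (∫ p, g1 p) * ∫ p, g2 p| ≤ 2 * ε := by
    have e : (∫ p, φ1 p) * (∫ p, φ2 p) - (∫ p, g1 p) * ∫ p, g2 p =
        -((∫ p, φ1 p) * ((∫ p, g2 p) - ∫ p, φ2 p) +
          ((∫ p, g1 p) - ∫ p, φ1 p) * ∫ p, g2 p) := by ring
    rw [e, abs_neg]
    refine (abs_add_le _ _).trans ?_
    rw [abs_mul, abs_mul]
    have k1 : |∫ p, φ1 p| * |(∫ p, g2 p) - ∫ p, φ2 p| ≤ 1 * ε :=
      mul_le_mul b1 a3 (abs_nonneg _) zero_le_one
    have k2 : |(∫ p, g1 p) - ∫ p, φ1 p| * |∫ p, g2 p| ≤ ε * 1 :=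
      mul_le_mul a2 b2 (abs_nonneg _) ((abs_nonneg _).trans a2)
    linarith
  have e : (∫ p, g1 p * g2 (F p)) - (∫ p, g1 p) * ∫ p, g2 p =
      ((∫ p, g1 p * g2 (F p)) - ∫ p, φ1 p * φ2 (F p)) +
      ((∫ p, φ1 p * φ2 (F p)) - (∫ p, φ1 p) * ∫ p, φ2 p) +
      ((∫ p, φ1 p) * (∫ p, φ2 p) - (∫ p, g1 p) * ∫ p, g2 p) := by ring
  rw [e]
  refine (abs_add_le _ _).trans ?_
  have := abs_add_le ((∫ p, g1 p * g2 (F p)) - ∫ p, φ1 p * φ2 (F p))
    ((∫ p, φ1 p * φ2 (F p)) - (∫ p, φ1 p) * ∫ p, φ2 p)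
  linarith

theorem ind_int (A B : Set T2) (hA : MeasurableSet A) (hB : MeasurableSet B) {F : T2 → T2}
    (hF : Measurable F) :
    ∫ p, A.indicator (fun _ => (1:ℝ)) p * B.indicator (fun _ => (1:ℝ)) (F p) =
      volume.real (A ∩ F ⁻¹' B) := by
  have e : (fun p => A.indicator (fun _ => (1:ℝ)) p * B.indicator (fun _ => (1:ℝ)) (F p)) =
      (A ∩ F ⁻¹' B).indicator (fun _ => (1:ℝ)) := by
    funext p
    by_cases h1 : p ∈ A
    · by_cases h2 : F p ∈ B
      · rw [Set.indicator_of_mem h1, Set.indicator_of_mem h2, Set.indicator_of_mem (Set.mem_inter h1 h2),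
          mul_one]
      · rw [Set.indicator_of_notMem h2, mul_zero, Set.indicator_of_notMem (fun h => h2 h.2)]
    · rw [Set.indicator_of_notMem h1, zero_mul, Set.indicator_of_notMem (fun h => h1 h.1)]
  rw [e, integral_indicator (hA.inter (hF hB)), setIntegral_const, smul_eq_mul, mul_one]

theorem ind_int1 (A : Set T2) (hA : MeasurableSet A) :
    ∫ p, A.indicator (fun _ => (1:ℝ)) p = volume.real A := by
  rw [integral_indicator hA, setIntegral_const, smul_eq_mul, mul_one]

theorem ind_abs (A : Set T2) (p : T2) : |A.indicator (fun _ => (1:ℝ)) p| ≤ 1 := by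
  by_cases h : p ∈ A
  · rw [Set.indicator_of_mem h, abs_one]
  · rw [Set.indicator_of_notMem h, abs_zero]
    exact zero_le_one

/-- **mixing along sequences of parameters and times** -/
theorem mix_seq {a : ℕ → ℝ} {n : ℕ → ℕ} (ha : Tendsto (fun j => |a j|) atTop atTop)
    (hn : ∀ j, 2 ≤ n j) (hr : Tendsto (fun j => (1 + log |a j|) * (√(n j) / |a j|)) atTop (𝓝 0))
    {A B : Set T2} (hA : MeasurableSet A) (hB : MeasurableSet B) :
    Tendsto (fun j => volume.real (A ∩ (S (a j))^[n j] ⁻¹' B)) atTop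
      (𝓝 (volume.real A * volume.real B)) := by
  have mA : Measurable (A.indicator (fun _ => (1:ℝ))) := measurable_const.indicator hA
  have mB : Measurable (B.indicator (fun _ => (1:ℝ))) := measurable_const.indicator hB
  rw [Metric.tendsto_atTop]
  intro ε hε
  obtain ⟨K1, φ1, h1, he1⟩ := approx mA (ind_abs A) (ε := ε / 16) (by positivity)
  obtain ⟨K2, φ2, h2, he2⟩ := approx mB (ind_abs B) (ε := ε / 16) (by positivity)
  -- the rate tends to zero
  have hr1 : Tendsto (fun j => (1 + log |a j|) * (1 / √|a j|)) atTop (𝓝 0) := by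
    have h3 : Tendsto (fun x : ℝ => (1 + log x) * (1 / √x)) atTop (𝓝 0) := by
      have h4 : Tendsto (fun x : ℝ => log x / x ^ (1 / 2 : ℝ)) atTop (𝓝 0) :=
        (isLittleO_log_rpow_atTop (by norm_num : (0:ℝ) < 1 / 2)).tendsto_div_nhds_zero
      have h5 : Tendsto (fun x : ℝ => x ^ (-(1 / 2) : ℝ)) atTop (𝓝 0) :=
        tendsto_rpow_neg_atTop (by norm_num)
      have h6 := h5.add h4
      rw [add_zero] at h6
      refine h6.congr' ?_
      filter_upwards [eventually_gt_atTop 0] with x hx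
      rw [Real.sqrt_eq_rpow, Real.rpow_neg hx.le]
      have : x ^ (1 / 2 : ℝ) ≠ 0 := (Real.rpow_pos_of_pos hx _).ne'
      field_simp
    exact h3.comp ha
  have hrate : Tendsto (fun j => (1 + log |a j|) * (1 / √|a j| + √(n j) / |a j|)) atTop
      (𝓝 0) := by
    have h3 := hr1.add hr
    rw [add_zero] at h3
    refine h3.congr fun j => ?_
    ring
  have hK1 := h1.nonneg
  have hK2 := h2.nonneg
  have hC0 : 0 < C0 := by
    have := KK_one
    unfold C0
    positivity
  -- choose the rate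
  set ρ : ℝ := ε / (8 * (C0 * (1 + K2) + 1) * (1 + K1)) ^ 1 with hρ
  have hρ0 : 0 < ρ := by positivity
  set σ : ℝ := min ρ (min (1 / 4) ((ε / (16 * (1 + K1))) ^ 2)) with hσ
  have hσ0 : 0 < σ := by positivity
  have hev := (hrate.eventually (gt_mem_nhds hσ0)).and (ha.eventually_ge_atTop 1)
  obtain ⟨J, hJ⟩ := (eventually_atTop.1 hev)
  refine ⟨J, fun j hj => ?_⟩
  obtain ⟨hlt, ha1⟩ := hJ j hj
  obtain ⟨m, hm⟩ := Nat.exists_eq_add_of_le' (hn j)
  have ha0 : 0 < |a j| := by linarith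
  have hl := log_nonneg ha1
  have h3 := fixed ha1 (a := fun _ => a j) (fun _ => le_rfl) (n := m + 1) (by omega) h1 h2
  rw [Fs_const] at h3
  have e : m + 1 + 1 = n j := by omega
  rw [e] at h3
  have hmn : √((m + 1 : ℕ) : ℝ) ≤ √(n j) := by
    apply Real.sqrt_le_sqrt
    exact_mod_cast (by omega : m + 1 ≤ n j)
  set δ : ℝ := 1 / √|a j| + √((m + 1 : ℕ) : ℝ) / |a j| with hδ
  have hδ0 : 0 < δ := by
    have : 0 < √|a j| := Real.sqrt_pos.2 ha0
    positivity
  have hδn : (1 + log |a j|) * δ < σ := by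
    refine lt_of_le_of_lt ?_ hlt
    apply mul_le_mul_of_nonneg_left _ (by linarith)
    rw [hδ]
    gcongr
  have hδσ : δ < σ := by nlinarith
  have hσ1 : σ ≤ ρ := min_le_left _ _
  have hσ2 : σ ≤ 1 / 4 := (min_le_right _ _).trans (min_le_left _ _)
  have hσ3 : σ ≤ (ε / (16 * (1 + K1))) ^ 2 := (min_le_right _ _).trans (min_le_right _ _)
  have h4 : C0 * (1 + K2) * ((1 + log |a j|) * δ) ≤ ε / 8 := by
    have h5 : C0 * (1 + K2) * ((1 + log |a j|) * δ) ≤ C0 * (1 + K2) * ρ := by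
      apply mul_le_mul_of_nonneg_left _ (by positivity)
      linarith
    refine h5.trans ?_
    rw [hρ, pow_one, ← mul_div_assoc, div_le_div_iff₀ (by positivity) (by norm_num)]
    have h6 : 0 ≤ C0 * (1 + K2) := by positivity
    have h7 : C0 * (1 + K2) ≤ (C0 * (1 + K2) + 1) * (1 + K1) := by nlinarith
    nlinarith
  have h5 : 2 * K1 * (4 / 3 * √δ) ^ (m + 1) ≤ ε / 4 := by
    have h6 : √δ ≤ ε / (16 * (1 + K1)) := by
      rw [Real.sqrt_le_left (by positivity)]
      linarith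
    have h7 : √δ ≤ 1 / 2 := by
      rw [Real.sqrt_le_left (by norm_num)]
      linarith
    have h8 : (4 / 3 * √δ) ^ (m + 1) ≤ 4 / 3 * √δ := by
      have h9 : (4 / 3 * √δ) ^ (m + 1) ≤ (4 / 3 * √δ) ^ 1 :=
        pow_le_pow_of_le_one (by positivity) (by linarith) (by omega)
      rwa [pow_one] at h9
    calc 2 * K1 * (4 / 3 * √δ) ^ (m + 1) ≤ 2 * K1 * (4 / 3 * √δ) := by gcongr
      _ ≤ 2 * (1 + K1) * (4 / 3 * (ε / (16 * (1 + K1)))) := by
          gcongr
          linarith
      _ ≤ ε / 4 := by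
          have : 2 * (1 + K1) * (4 / 3 * (ε / (16 * (1 + K1)))) = ε / 6 := by
            field_simp
            ring
          rw [this]
          linarith
  have h6 := meas_dec mA (ind_abs A) mB (ind_abs B) h1 h2 he1 he2
    ((S_mp (a j)).iterate (n j)) h3
  have hSm : Measurable ((S (a j))^[n j]) := ((S_cont (a j)).iterate (n j)).measurable
  rw [ind_int A B hA hB hSm, ind_int1 A hA, ind_int1 B hB] at h6
  rw [Real.dist_eq]
  refine h6.trans_lt ?_
  linarith

end Pool.Agent.U785.ST
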